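import Mathlib

set_option autoImplicit false

open Filter Topology

namespace Pool.Agent.H223.CE

variable {X : Type*} [MetricSpace X]

/-- `x` and `y` are forward asymptotic under `F`.  For the lift `F` of an Anosov diffeomorphism to a
covering this says that `y` lies on the (lifted) stable leaf of `x`; for `F⁻¹` in the place of `F`
it says that `y` lies on the unstable leaf of `x`. -/
def Asymp (F : X → X) (x y : X) : Prop :=
  Tendsto (fun n : ℕ => dist (F^[n] x) (F^[n] y)) atTop (𝓝 0)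

/-- Large-scale hyperbolicity: for some `N ≥ 1` and `R`, if `d(x, y) ≥ R` then `d(Fᴺ x, Fᴺ y)` or
`d(F⁻ᴺ x, F⁻ᴺ y)` is at least `2 d(x, y)`. -/
def CoarselyHyperbolic (F : X ≃ₜ X) : Prop :=
  ∃ N : ℕ, 1 ≤ N ∧ ∃ R : ℝ, ∀ x y : X, R ≤ dist x y →
    2 * dist x y ≤ max (dist (F^[N] x) (F^[N] y)) (dist (F.symm^[N] x) (F.symm^[N] y))

/-- Coarse domination: for some `n ≥ 1`, `0 ≤ κs < κu` and `C`, one has
`d(Fⁿ x, Fⁿ y) ≥ κu d(x, y) - C` if `x`, `y` are on the same unstable leaf and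
`d(Fⁿ x, Fⁿ y) ≤ κs d(x, y) + C` if `x`, `y` are on the same stable leaf. -/
def CoarselyDominated (F : X ≃ₜ X) : Prop :=
  ∃ n : ℕ, 1 ≤ n ∧ ∃ κs κu C : ℝ, 0 ≤ κs ∧ κs < κu ∧
    (∀ x y : X, Asymp F.symm x y → κu * dist x y - C ≤ dist (F^[n] x) (F^[n] y)) ∧
    (∀ x y : X, Asymp F x y → dist (F^[n] x) (F^[n] y) ≤ κs * dist x y + C)

/-- Every lift of every iterate has at most one fixed point.  (The lifts of `fⁿ` to the Galois
covering `X` with deck group `Γ` are the maps `γ⁻¹ ∘ Fⁿ`, `γ ∈ Γ`; so, on the universal covering,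
this says that any two fixed points of `fⁿ` in the same Nielsen class are equal, for all
`n ≥ 1`.) -/
def NFix (Γ : Type*) [Group Γ] {X : Type*} [MulAction Γ X] (F : X → X) : Prop :=
  ∀ n : ℕ, 1 ≤ n → ∀ (γ : Γ) (x y : X), F^[n] x = γ • x → F^[n] y = γ • y → x = y

/-- For each lift `φ = γ⁻¹ ∘ Fⁿ` (`n ≥ 1`, `γ ∈ Γ`) of each iterate there is a `K ≥ 1` such that
`φᴷ` has fewer than `2 ^ K` fixed points. -/
def NWeak (Γ : Type*) [Group Γ] {X : Type*} [MulAction Γ X] (F : X → X) : Prop :=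
  ∀ n : ℕ, 1 ≤ n → ∀ γ : Γ, ∃ K : ℕ, 1 ≤ K ∧
    {x | (fun x => γ⁻¹ • F^[n] x)^[K] x = x}.encard < 2 ^ K

end Pool.Agent.H223.CE
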