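import Pool.Agent.H223.CE.Reg
import Pool.Agent.H223.CE.Def

set_option autoImplicit false
set_option linter.unusedSectionVars false

namespace Pool.Agent.H223.CE

open Pool.Agent.H721R2 Pool.Agent.H721R2.CSys Pool.Agent.H789R2.AN Filter Topology Set

variable {X : Type*} [MetricSpace X]

theorem as_of_iter {g : X → X} (hu : UCont g) {N : ℕ} (hN : 1 ≤ N) {x y : X}
    (h : As (g^[N]) x y) : As g x y := by
  refine tendsto_order.mpr ⟨fun c hc => Eventually.of_forall fun n => lt_of_lt_of_le hc dist_nonneg,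
    fun ε hε => ?_⟩
  obtain ⟨δ, hδ, h1⟩ := hu.iters N ε hε
  obtain ⟨n0, hn0⟩ := eventually_atTop.mp ((tendsto_order.mp h).2 _ hδ)
  refine eventually_atTop.mpr ⟨N * n0, fun t ht => ?_⟩
  have h2 := Nat.mod_add_div t N
  have h3 : n0 ≤ t / N := by
    rw [Nat.le_div_iff_mul_le (by omega)]
    rwa [mul_comm]
  have h4 := hn0 (t / N) h3
  have h5 := h1 (t % N) (Nat.mod_lt _ (by omega)).le _ _ h4
  rw [← Function.iterate_mul, ← Function.iterate_add_apply, ← Function.iterate_add_apply, h2] at h5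
  exact h5

theorem iter_of_as {g : X → X} {N : ℕ} (hN : 1 ≤ N) {x y : X} (h : As g x y) :
    As (g^[N]) x y := by
  have h1 : Tendsto (fun n : ℕ => N * n) atTop atTop :=
    tendsto_atTop_mono (fun n => Nat.le_mul_of_pos_left n hN) tendsto_id
  have h2 := h.comp h1
  refine h2.congr fun n => ?_
  simp only [Function.comp, Function.iterate_mul]

theorem as_symm_iter (F : X ≃ X) {x y : X} (h : As F.symm x y) (m : ℕ) :
    As F.symm (F^[m] x) (F^[m] y) := by
  unfold As at *
  rw [← tendsto_add_atTop_iff_nat m]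
  refine h.congr fun n => ?_
  rw [Function.iterate_add_apply, Function.iterate_add_apply, eq_symm_iter_iter,
    eq_symm_iter_iter]

/-- powers of the expansion estimate -/
theorem exp_pow (F : X ≃ X) {n : ℕ} {R : ℝ}
    (hE : ∀ x y, As F.symm x y → R ≤ dist x y → 2 * dist x y ≤ dist (F^[n] x) (F^[n] y))
    (k : ℕ) : ∀ x y, As F.symm x y → R ≤ dist x y →
      2 * dist x y ≤ dist ((F^[n])^[k + 1] x) ((F^[n])^[k + 1] y) := by
  induction k with
  | zero => exact hE
  | succ k ih =>
    intro x y hxy hR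
    have h1 := ih x y hxy hR
    have h0 : 0 ≤ dist x y := dist_nonneg
    have h2 : As F.symm ((F^[n])^[k + 1] x) ((F^[n])^[k + 1] y) := by
      rw [← Function.iterate_mul]
      exact as_symm_iter F hxy _
    have h3 := hE _ _ h2 (by linarith)
    rw [Function.iterate_succ_apply' _ (k + 1), Function.iterate_succ_apply' _ (k + 1)]
    linarith

/-- Coarse hyperbolicity gives the expansion of the unstable pairs. -/
theorem leaf_of_ch (F : X ≃ X) {N : ℕ} {R : ℝ} (hC : ∀ x y, R ≤ dist x y →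
      2 * dist x y ≤ max (dist (F^[N] x) (F^[N] y)) (dist (F.symm^[N] x) (F.symm^[N] y)))
    (x y : X) (h : As F.symm x y) (hR : max R 1 ≤ dist x y) :
    2 * dist x y ≤ dist (F^[N] x) (F^[N] y) := by
  by_contra hcon
  push Not at hcon
  have hR1 : R ≤ dist x y := (le_max_left _ _).trans hR
  have h1 : 1 ≤ dist x y := (le_max_right _ _).trans hR
  have key : ∀ k : ℕ, dist x y ≤ dist ((F.symm^[N])^[k] x) ((F.symm^[N])^[k] y) ∧
      2 * dist ((F.symm^[N])^[k] x) ((F.symm^[N])^[k] y) ≤
        dist ((F.symm^[N])^[k + 1] x) ((F.symm^[N])^[k + 1] y) := by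
    intro k
    induction k with
    | zero =>
      refine ⟨le_rfl, ?_⟩
      rcases le_max_iff.mp (hC x y hR1) with h2 | h2
      · linarith
      · exact h2
    | succ k ih =>
      obtain ⟨i1, i2⟩ := ih
      set a := (F.symm^[N])^[k + 1] x with ha
      set b := (F.symm^[N])^[k + 1] y with hb
      have h2 : dist x y ≤ dist a b := by linarith
      refine ⟨h2, ?_⟩
      have h3 := hC a b (hR1.trans h2)
      have ha' : F^[N] a = (F.symm^[N])^[k] x := by
        rw [ha, Function.iterate_succ_apply', eq_iter_symm_iter]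
      have hb' : F^[N] b = (F.symm^[N])^[k] y := by
        rw [hb, Function.iterate_succ_apply', eq_iter_symm_iter]
      rw [ha', hb'] at h3
      rw [Function.iterate_succ_apply' _ (k + 1), Function.iterate_succ_apply' _ (k + 1), ← ha,
        ← hb]
      rcases le_max_iff.mp h3 with h4 | h4
      · linarith
      · exact h4
  rcases Nat.eq_zero_or_pos N with hN | hN
  · subst hN
    have h2 := hC x y hR1
    simp only [Function.iterate_zero, id, max_self] at h2
    linarith
  · have h2 := iter_of_as (N := N) hN h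
    obtain ⟨n0, hn0⟩ := eventually_atTop.mp ((tendsto_order.mp h2).2 1 one_pos)
    have h3 := hn0 n0 le_rfl
    have h4 := (key n0).1
    linarith

/-- powers of the lower bound -/
theorem domU_pow (F : X ≃ X) {n : ℕ} {κ C : ℝ} (hκ : 0 ≤ κ) (h : DomU F n κ C) (k : ℕ) :
    ∃ C', 0 ≤ C' ∧ DomU F (n * k) (κ ^ k) C' := by
  induction k with
  | zero =>
    refine ⟨0, le_rfl, fun x y _ => ?_⟩
    simp
  | succ k ih =>
    obtain ⟨C', hC', ih⟩ := ih
    refine ⟨κ * C' + max C 0, by positivity, fun x y hxy => ?_⟩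
    have h1 := ih x y hxy
    have h2 := h _ _ (as_symm_iter F hxy (n * k))
    rw [← Function.iterate_add_apply, ← Function.iterate_add_apply] at h2
    rw [Nat.mul_succ, Nat.add_comm (n * k) n, pow_succ]
    have h3 : κ * (κ ^ k * dist x y - C') ≤ κ * dist (F^[n * k] x) (F^[n * k] y) :=
      mul_le_mul_of_nonneg_left h1 hκ
    have h4 := le_max_left C 0
    nlinarith

theorem domS_pow (F : X ≃ X) {n : ℕ} {κ C : ℝ} (hκ : 0 ≤ κ) (h : DomS F n κ C) (k : ℕ) :
    ∃ C', 0 ≤ C' ∧ DomS F (n * k) (κ ^ k) C' := by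
  induction k with
  | zero =>
    refine ⟨0, le_rfl, fun x y _ => ?_⟩
    simp
  | succ k ih =>
    obtain ⟨C', hC', ih⟩ := ih
    refine ⟨κ * C' + max C 0, by positivity, fun x y hxy => ?_⟩
    have h1 := ih x y hxy
    have h2 := h _ _ (hxy.iter (n * k))
    rw [← Function.iterate_add_apply, ← Function.iterate_add_apply] at h2
    rw [Nat.mul_succ, Nat.add_comm (n * k) n, pow_succ]
    have h3 : κ * dist (F^[n * k] x) (F^[n * k] y) ≤ κ * (κ ^ k * dist x y + C') :=
      mul_le_mul_of_nonneg_left h1 hκ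
    have h4 := le_max_left C 0
    nlinarith

theorem DomU.mono {F : X ≃ X} {n : ℕ} {κ C C' : ℝ} (h : DomU F n κ C) (hC : C ≤ C') :
    DomU F n κ C' := fun x y hxy => by
  have := h x y hxy
  linarith

theorem DomS.mono {F : X ≃ X} {n : ℕ} {κ κ' C C' : ℝ} (h : DomS F n κ C) (hC : C ≤ C')
    (hκ : κ ≤ κ') : DomS F n κ' C' := fun x y hxy => by
  have h1 := h x y hxy
  have h2 : κ * dist x y ≤ κ' * dist x y := mul_le_mul_of_nonneg_right hκ dist_nonneg
  linarith

theorem as_symm_symm_iter (F : X ≃ X) {x y : X} (h : As F x y) (m : ℕ) :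
    As F (F.symm^[m] x) (F.symm^[m] y) := as_symm_iter F.symm (x := x) (y := y) h m

/-- domination for the inverse -/
theorem domU_symm {F : X ≃ X} {n : ℕ} {κ C : ℝ} (hκ : 0 < κ) (h : DomS F n κ C) :
    DomU F.symm n κ⁻¹ (C / κ) := by
  intro z w hzw
  have hzw' : As F z w := hzw
  have h1 := h _ _ (as_symm_symm_iter F hzw' n)
  rw [eq_iter_symm_iter, eq_iter_symm_iter] at h1
  have h2 : κ⁻¹ * dist z w - C / κ = (dist z w - C) / κ := by
    field_simp
  rw [h2, div_le_iff₀ hκ]
  linarith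

theorem domS_symm {F : X ≃ X} {n : ℕ} {κ C : ℝ} (hκ : 0 < κ) (h : DomU F n κ C) :
    DomS F.symm n κ⁻¹ (C / κ) := by
  intro y w hyw
  have h1 := h _ _ (hyw.iter n)
  rw [eq_iter_symm_iter, eq_iter_symm_iter] at h1
  have h2 : κ⁻¹ * dist y w + C / κ = (dist y w + C) / κ := by
    field_simp
  rw [h2, le_div_iff₀ hκ]
  linarith

theorem lexp_of_domU {F : X ≃ X} {n : ℕ} {κ C : ℝ} (hκ : 3 ≤ κ) (h : DomU F n κ C) :
    LExp F n C := by
  intro y w hyw hR
  have h1 := h y w hyw
  have h2 : 3 * dist y w ≤ κ * dist y w := mul_le_mul_of_nonneg_right hκ dist_nonneg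
  linarith

/-- Coarse hyperbolicity gives coarse domination. -/
theorem dominated_of_ch (F : X ≃ₜ X) (h : CoarselyHyperbolic F) : CoarselyDominated F := by
  obtain ⟨N, hN, R, hR⟩ := h
  have h1 := leaf_of_ch F.toEquiv (N := N) (R := R) hR
  have h2 := leaf_of_ch F.symm.toEquiv (N := N) (R := R) (fun x y hxy => by
    rw [max_comm]; exact hR x y hxy)
  refine ⟨N, hN, 1 / 2, 2, 2 * max R 1, by norm_num, by norm_num, fun x y hxy => ?_,
    fun x y hxy => ?_⟩
  · have h3 : (0 : ℝ) ≤ dist (F^[N] x) (F^[N] y) := dist_nonneg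
    rcases le_total (max R 1) (dist x y) with h | h
    · have h4 : 2 * dist x y ≤ dist (F^[N] x) (F^[N] y) := h1 x y hxy h
      have h5 := le_max_right R 1
      linarith
    · linarith
  · have h3 : (0 : ℝ) ≤ dist x y := dist_nonneg
    have h5 := le_max_right R 1
    rcases le_total (max R 1) (dist (F^[N] x) (F^[N] y)) with h | h
    · have h4 : 2 * dist (F^[N] x) (F^[N] y) ≤
          dist (F.symm.toEquiv^[N] (F^[N] x)) (F.symm.toEquiv^[N] (F^[N] y)) :=
        h2 _ _ (As.iter (g := F) hxy N) h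
      have e : ∀ z, F.symm.toEquiv^[N] (F^[N] z) = z := fun z => eq_symm_iter_iter F.toEquiv N z
      rw [e, e] at h4
      linarith
    · linarith

end Pool.Agent.H223.CE
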