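import Pool.Agent.H223.CE.Man2

set_option autoImplicit false
set_option linter.unusedSectionVars false

open scoped Manifold ContDiff Topology
open Set Filter

namespace Pool.Agent.H223.CE

open Pool.Agent.H721R2 Pool.Agent.H789R2.AN Pool.Agent.H721R2.CSys

variable {E : Type*} [NormedAddCommGroup E] [NormedSpace ℝ E] [FiniteDimensional ℝ E]
  {M : Type*} [TopologicalSpace M] [T2Space M] [CompactSpace M] [ConnectedSpace M]
  [ChartedSpace E M] [IsManifold 𝓘(ℝ, E) ∞ M]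
  {X : Type*} [MetricSpace X] [ProperSpace X] [ConnectedSpace X]
  {Γ : Type*} [Group Γ] [MulAction Γ X] [IsIsometricSMul Γ X]

theorem bounded_of_asymp {F : X → X} {x y : X} (h : Asymp F x y) :
    ∃ B, ∀ n : ℕ, dist (F^[n] x) (F^[n] y) ≤ B := by
  obtain ⟨B, hB⟩ := Filter.Tendsto.bddAbove_range h
  exact ⟨B, fun n => hB ⟨n, rfl⟩⟩

omit [ProperSpace X] [ConnectedSpace X] in
theorem lift_normal' {N : Type*} [TopologicalSpace N] [ConnectedSpace X] {P : X → N}
    (hP : IsCoveringMap P)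
    (hΓ : ∀ x y, P x = P y ↔ ∃ γ : Γ, γ • x = y) {f : N → N} {F : X → X} (hF : Continuous F)
    (hFf : ∀ x, P (F x) = f (P x)) (γ : Γ) : ∃ γ' : Γ, ∀ x, F (γ • x) = γ' • F x := by
  have hPΓ : ∀ (γ : Γ) (x : X), P (γ • x) = P x := fun γ x => ((hΓ x (γ • x)).mpr ⟨γ, rfl⟩).symm
  obtain ⟨x0⟩ : Nonempty X := inferInstance
  obtain ⟨γ', hγ'⟩ := (hΓ (F x0) (F (γ • x0))).mp (by rw [hFf, hFf, hPΓ])
  have h1 : (fun x => F (γ • x)) = fun x => γ' • F x := by
    apply hP.eq_of_comp_eq (A := X) _ _ _ x0 hγ'.symm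
    · exact hF.comp (isometry_smul X γ).continuous
    · exact (isometry_smul X γ').continuous.comp hF
    · funext x
      show P (F (γ • x)) = P (γ' • F x)
      rw [hFf, hPΓ, hPΓ, hFf]
  exact ⟨γ', fun x => congrFun h1 x⟩

omit [ProperSpace X] [ConnectedSpace X] [IsIsometricSMul Γ X] [MetricSpace X] in
theorem nweak_of_nfix {X : Type*} [MulAction Γ X] {F : X → X} (h : NFix Γ F) : NWeak Γ F := by
  intro n hn γ
  refine ⟨1, le_rfl, ?_⟩
  have h1 : {x | (fun x => γ⁻¹ • F^[n] x)^[1] x = x}.encard ≤ 1 := by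
    rw [Set.encard_le_one_iff]
    intro a b ha hb
    have ha' : γ⁻¹ • F^[n] a = a := ha
    have hb' : γ⁻¹ • F^[n] b = b := hb
    exact h n hn γ a b (inv_smul_eq_iff.mp ha') (inv_smul_eq_iff.mp hb')
  refine lt_of_le_of_lt h1 ?_
  norm_num

theorem man_tfae (f : Diffeomorph 𝓘(ℝ, E) 𝓘(ℝ, E) M M 1)
    (Es Eu : ∀ x : M, Submodule ℝ (TangentSpace 𝓘(ℝ, E) x)) (hA : IsAnosov f Es Eu)
    (P : X → M) (hP : IsCoveringMap P) (hs : Function.Surjective P)
    (hΓ : ∀ x y, P x = P y ↔ ∃ γ : Γ, γ • x = y) (F : X ≃ₜ X) (hF : ∀ x, P (F x) = f (P x))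
    (hD : CoarselyHyperbolic F ∨ CoarselyDominated F) :
    List.TFAE [TopTransitive f ∧ ∀ x y, ∃! w, Asymp F x w ∧ Asymp F.symm y w,
      ∀ x y, Asymp F x y → Asymp F.symm x y → x = y,
      ∀ x y B, (∀ n : ℕ, dist (F^[n] x) (F^[n] y) ≤ B) →
        (∀ n : ℕ, dist (F.symm^[n] x) (F.symm^[n] y) ≤ B) → x = y,
      NFix Γ F,
      NWeak Γ F] := by
  have hD' : CoarselyDominated F := hD.elim (dominated_of_ch F) id
  have hF' : ∀ x, P (F.symm x) = f.symm (P x) := by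
    intro x
    apply f.injective
    show f (P (F.symm x)) = f (f.symm (P x))
    rw [← hF, Homeomorph.apply_symm_apply]
    exact (f.apply_symm_apply _).symm
  have key := man_core f Es Eu hA P hP hs hΓ F hF hD'
  tfae_have 5 → 1 := fun h => (key (Or.inl h)).1
  tfae_have 2 → 1 := fun h => (key (Or.inr h)).1
  tfae_have 4 → 5 := fun h => nweak_of_nfix h
  tfae_have 1 → 2 := by
    intro h x y h1 h2
    obtain ⟨w, -, hw⟩ := h.2 x x
    rw [hw x ⟨As.refl _ _, As.refl _ _⟩, hw y ⟨h1, h2⟩]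
  tfae_have 1 → 4 := by
    intro h
    exact nfix_of_gps (F := F.toEquiv)
      (lift_normal' hP hΓ (f := f) F.continuous hF)
      (lift_normal' hP hΓ (f := f.symm) F.symm.continuous hF') h.2
  tfae_have 4 → 3 := by
    intro h x y B h1 h2
    obtain ⟨h3, h4, h5⟩ := key (Or.inl (nweak_of_nfix h))
    obtain ⟨w, -, hw⟩ := h3.2 x x
    rw [hw x ⟨As.refl _ _, As.refl _ _⟩, hw y ⟨h4 h x y B h1, h5 h x y B h2⟩]
  tfae_have 3 → 2 := by
    intro h x y h1 h2
    obtain ⟨B, hB⟩ := bounded_of_asymp h1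
    obtain ⟨B', hB'⟩ := bounded_of_asymp h2
    exact h x y (max B B') (fun n => (hB n).trans (le_max_left _ _))
      (fun n => (hB' n).trans (le_max_right _ _))
  tfae_finish

end Pool.Agent.H223.CE
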