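import Pool.Agent.H223.CE.Close

set_option autoImplicit false
set_option linter.unusedSectionVars false

namespace Pool.Agent.H223.CE

open Pool.Agent.H721R2 Pool.Agent.H721R2.CSys Pool.Agent.H789R2.AN Filter Topology Set

/-- Expansivity of chain systems. -/
theorem csys_expansive {Y : Type*} [MetricSpace Y] (T : CSys Y) {x y : Y}
    (h1 : FRel T.g T.εs x y) (h2 : FRel T.g.symm T.εs x y) : x = y := by
  have hα0 := T.α_pos
  have key : ∀ m : ℕ, dist x y ≤ T.α ^ m * T.εs := by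
    intro m
    have h3 : FRel T.g T.εs (T.g.symm^[m] x) (T.g.symm^[m] y) := by
      intro k
      rcases le_total m k with hk | hk
      · obtain ⟨j, rfl⟩ := Nat.exists_eq_add_of_le hk
        rw [Nat.add_comm m j, Function.iterate_add_apply, eq_iter_symm_iter,
          Function.iterate_add_apply, eq_iter_symm_iter]
        exact h1 j
      · rw [iter_symm_iter_of_le' _ _ _ hk, iter_symm_iter_of_le' _ _ _ hk]
        exact h2 _
    have h4 := T.contrS _ _ h3 m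
    rw [eq_iter_symm_iter, eq_iter_symm_iter] at h4
    exact h4.trans (mul_le_mul_of_nonneg_left (h2 m) (by positivity))
  have h5 : Tendsto (fun n : ℕ => T.α ^ n * T.εs) atTop (𝓝 0) := by
    have := (tendsto_pow_atTop_nhds_zero_of_lt_one hα0
      (by linarith [T.α_le] : T.α < 1)).mul_const T.εs
    simpa using this
  exact dist_le_zero.mp (ge_of_tendsto' h5 key)

/-- Two indices of an uncountable family. -/
theorem exists_pair {X : Type*} [MetricSpace X] [ProperSpace X] {ε2 : ℝ} (hε2 : 0 < ε2) (x : X)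
    (c : ℝ → X) (hc : ∀ t ∈ Ioo 0 ε2, dist x (c t) = t) (A : ℕ → Set ℝ)
    (hA : Ioo 0 ε2 ⊆ ⋃ n, A n) (τ : ℕ → ℝ) (hτ : ∀ n, 0 < τ n) :
    ∃ n, ∃ t ∈ A n ∩ Ioo 0 ε2, ∃ t' ∈ A n ∩ Ioo 0 ε2, t ≠ t' ∧ dist (c t) (c t') < τ n := by
  have h1 : ∃ n, (A n ∩ Ioo 0 ε2).Infinite := by
    by_contra h
    push Not at h
    have h2 : (⋃ n, A n ∩ Ioo 0 ε2).Countable :=
      countable_iUnion fun n => (h n).countable
    have h3 : (Ioo (0 : ℝ) ε2).Countable := by
      refine h2.mono ?_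
      rw [← iUnion_inter]
      exact subset_inter hA subset_rfl
    have h4 := h3.measure_zero MeasureTheory.volume
    rw [Real.volume_Ioo, ENNReal.ofReal_eq_zero] at h4
    linarith
  obtain ⟨n, hn⟩ := h1
  obtain ⟨s, -, hs, hcov⟩ := (isCompact_closedBall x ε2).finite_cover_balls (half_pos (hτ n))
  have hex : ∀ t, ∃ z : X, t ∈ Ioo 0 ε2 → z ∈ s ∧ dist (c t) z < τ n / 2 := by
    intro t
    by_cases ht : t ∈ Ioo 0 ε2
    · have h2 : c t ∈ Metric.closedBall x ε2 := by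
        rw [Metric.mem_closedBall, dist_comm, hc t ht]
        exact ht.2.le
      have h3 := hcov h2
      simp only [mem_iUnion, Metric.mem_ball, exists_prop] at h3
      obtain ⟨z, hz, hz'⟩ := h3
      exact ⟨z, fun _ => ⟨hz, hz'⟩⟩
    · exact ⟨x, fun h => absurd h ht⟩
  choose z hz using hex
  obtain ⟨t, ht, t', ht', hne, heq⟩ := hn.exists_ne_map_eq_of_mapsTo (f := z) (t := s)
    (fun t ht => (hz t ht.2).1) hs
  refine ⟨n, t, ht, t', ht', hne, ?_⟩
  have h2 := (hz t ht.2).2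
  have h3 := (hz t' ht'.2).2
  rw [← heq] at h3
  have := dist_triangle_right (c t) (c t') (z t)
  linarith

variable {M X Γ E : Type*} [MetricSpace M] [CompactSpace M] [MetricSpace X]
  [NormedAddCommGroup E] [NormedSpace ℝ E]
  [Group Γ] [MulAction Γ X] [IsIsometricSMul Γ X] {P : X → M} {r ρ : ℝ}

/-- backward bounds -/
theorem back_bound {G : X ≃ X} {R : ℝ} (hE : LExp G 1 R) {x y : X} (h : As G.symm x y)
    {B : ℝ} (hR : R ≤ B) (hB : dist x y ≤ B) (j : ℕ) :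
    dist (G.symm^[j] x) (G.symm^[j] y) ≤ B := by
  induction j with
  | zero => exact hB
  | succ j ih =>
    by_contra hcon
    push Not at hcon
    have h1 := hE _ _ (h.iter (j + 1)) (hR.trans hcon.le)
    have h0 : (0 : ℝ) ≤ B := dist_nonneg.trans hB
    have e : ∀ z : X, G^[1] (G.symm^[j + 1] z) = G.symm^[j] z := fun z =>
      iter_symm_iter_of_le' G (j + 1) 1 (by omega) z
    rw [e, e] at h1
    linarith

/-- **The limit of bounded unstable chains.** -/
theorem exists_limit [ProperSpace X] (H : Sheets P r ρ) {G : X ≃ X}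
    {g : M ≃ M} (hG : ∀ x, P (G x) = g (P x)) (hu : UCont G) (hu' : UCont G.symm)
    (T : CSys (LX H)) (hTg : T.g = lmap H G) (hTρ : T.εs < ρ)
    (hPΓ : ∀ (γ : Γ) (x : X), P (γ • x) = P x)
    (hn1 : ∀ (γ : Γ) (n : ℕ) (x y : X),
      dist (G^[n] (γ • x)) (G^[n] (γ • y)) = dist (G^[n] x) (G^[n] y))
    (hn2 : ∀ (γ : Γ) (n : ℕ) (x y : X),
      dist (G.symm^[n] (γ • x)) (G.symm^[n] (γ • y)) = dist (G.symm^[n] x) (G.symm^[n] y))
    {K : Set X} (hK : IsCompact K) (hKΓ : ∀ x, ∃ γ : Γ, γ • x ∈ K) {s0 : ℝ} (hs0 : 0 < s0)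
    (hs0T : ∀ x y : X, dist x y < s0 → dist (⟨x⟩ : LX H) ⟨y⟩ ≤ T.δ / 4)
    {B ε2 : ℝ} (hε2 : ε2 ≤ s0) (k l : ℕ → ℕ) (b : ℕ → ℕ → X)
    (hl : ∀ m, m ≤ l m)
    (hstep : ∀ m, ∀ i < k m, FRel T.g.symm (T.δ / 4) (T.g^[l m] ⟨b m i⟩)
      (T.g^[l m] ⟨b m (i + 1)⟩))
    (hfar : ∀ m, ε2 ≤ dist (b m 0) (b m (k m)))
    (hB : ∀ m, ∀ i ≤ k m, ∀ n ≤ l m, dist (G^[n] (b m 0)) (G^[n] (b m i)) ≤ B) :
    ∃ (x : X) (c : ℝ → X), (∀ t ∈ Ioo 0 ε2, dist x (c t) = t) ∧
      (∀ t ∈ Ioo 0 ε2, FRel T.g.symm (T.δ / 2) (⟨x⟩ : LX H) ⟨c t⟩) ∧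
      ∀ t ∈ Ioo 0 ε2, ∀ n : ℕ, dist (G^[n] x) (G^[n] (c t)) ≤ B := by
  classical
  have hTg' : T.g.symm = lmap H G.symm := by rw [hTg]; rfl
  have hG' := proj_symm (P := P) hG
  have hδ0 := T.δ_pos
  have hδε := T.δ_le_εs
  have hβ0 := T.β_pos
  have hr := H.r_pos
  have hδ2ρ : T.δ / 2 < ρ := by linarith
  set 𝒰 : Ultrafilter ℕ := hyperfilter ℕ with h𝒰
  have h𝒰at : (𝒰 : Filter ℕ) ≤ atTop := Nat.hyperfilter_le_atTop
  -- the first exit
  have hex : ∀ (t : ℝ) (m : ℕ), t ∈ Ioo 0 ε2 → ∃ i, t ≤ dist (b m 0) (b m i) := fun t m ht =>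
    ⟨k m, ht.2.le.trans (hfar m)⟩
  have hex' : ∀ (t : ℝ) (m : ℕ), ∃ i ≤ k m, t ∈ Ioo 0 ε2 → t ≤ dist (b m 0) (b m i) ∧
      ∀ j < i, dist (b m 0) (b m j) < t := by
    intro t m
    by_cases ht : t ∈ Ioo 0 ε2
    · refine ⟨Nat.find (hex t m ht), Nat.find_min' _ (ht.2.le.trans (hfar m)), fun _ =>
        ⟨Nat.find_spec (hex t m ht), fun j hj => ?_⟩⟩
      have := Nat.find_min (hex t m ht) hj
      exact not_le.mp this
    · exact ⟨0, Nat.zero_le _, fun h => absurd h ht⟩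
  choose ι hιk hι using hex'
  choose γ hγ using hKΓ
  -- backward closeness
  have hback : ∀ t ∈ Ioo 0 ε2, ∀ m, FRel T.g.symm (T.δ / 2) (⟨b m 0⟩ : LX H) ⟨b m (ι t m)⟩ := by
    intro t ht m
    have hst : ∀ i < k m, FRel T.g.symm (T.δ / 4) (⟨b m i⟩ : LX H) ⟨b m (i + 1)⟩ := by
      intro i hi
      have := (hstep m i hi).iter (l m)
      rwa [eq_symm_iter_iter, eq_symm_iter_iter] at this
    have : ∀ i ≤ ι t m, FRel T.g.symm (T.δ / 2) (⟨b m 0⟩ : LX H) ⟨b m i⟩ := by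
      intro i
      induction i with
      | zero => intro _; exact FRel.refl (by linarith) _
      | succ i ih =>
        intro hi
        have h1 := ih (by omega)
        have h2 : dist (b m 0) (b m i) < s0 :=
          ((hι t m ht).2 i (by omega)).trans (lt_of_lt_of_le ht.2 hε2)
        have h3 := hs0T _ _ h2
        have h4 : FRel T.g.symm (T.δ / 4) (⟨b m 0⟩ : LX H) ⟨b m i⟩ := by
          intro n
          have h5 := T.contrU _ _ (h1.mono (by linarith)) n
          have h6 : T.β ^ n ≤ 1 := pow_le_one₀ hβ0 (by linarith [T.β_le])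
          have h7 : T.β ^ n * dist (⟨b m 0⟩ : LX H) ⟨b m i⟩ ≤ 1 * dist (⟨b m 0⟩ : LX H) ⟨b m i⟩ :=
            mul_le_mul_of_nonneg_right h6 dist_nonneg
          linarith
        have h5 := h4.trans (hst i (lt_of_lt_of_le (by omega) (hιk t m)))
        exact h5.mono (by linarith)
    exact this _ le_rfl
  -- small steps
  have hsmall : ∀ τ > 0, ∀ᶠ m in atTop, ∀ i < k m, dist (b m i) (b m (i + 1)) < τ := by
    intro τ hτ
    obtain ⟨ε3, hε3, hun⟩ := H.unif τ hτ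
    have hmin : 0 < min ε3 ρ := lt_min hε3 H.ρ_pos
    have t1 : Tendsto (fun n : ℕ => T.β ^ n * (T.δ / 4)) atTop (𝓝 0) := by
      have := (tendsto_pow_atTop_nhds_zero_of_lt_one hβ0
        (by linarith [T.β_le] : T.β < 1)).mul_const (T.δ / 4)
      simpa using this
    obtain ⟨m0, hm0⟩ := eventually_atTop.mp ((tendsto_order.mp t1).2 _ hmin)
    refine eventually_atTop.mpr ⟨m0, fun m hm i hi => ?_⟩
    have h1 := hstep m i hi
    have h2 := T.contrU _ _ (h1.mono (by linarith)) (l m)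
    rw [eq_symm_iter_iter, eq_symm_iter_iter] at h2
    have h3 : T.β ^ (l m) * dist (T.g^[l m] (⟨b m i⟩ : LX H)) (T.g^[l m] ⟨b m (i + 1)⟩) ≤
        T.β ^ (l m) * (T.δ / 4) := mul_le_mul_of_nonneg_left h1.dist_le (by positivity)
    have h4 : dist (⟨b m i⟩ : LX H) ⟨b m (i + 1)⟩ < min ε3 ρ :=
      lt_of_le_of_lt (h2.trans h3) (hm0 _ (hm.trans (hl m)))
    rw [lx_dist] at h4
    have h5 := (ndist_le_iff (lt_of_lt_of_le h4 (min_le_right _ _))).mp le_rfl
    exact hun _ _ h5.1 (lt_of_le_of_lt h5.2 (lt_of_lt_of_le h4 (min_le_left _ _)))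
  -- limits
  have hB0 : 0 ≤ B := dist_nonneg.trans (hB 0 0 (Nat.zero_le _) 0 (Nat.zero_le _))
  have hlim : ∀ j : ℕ → ℕ, (∀ m, j m ≤ k m) →
      ∃ a, Tendsto (fun m => γ (b m 0) • b m (j m)) 𝒰 (𝓝 a) := by
    intro j hj
    have hmem : ∀ m, γ (b m 0) • b m (j m) ∈ Metric.cthickening B K := by
      intro m
      apply Metric.mem_cthickening_of_dist_le _ (γ (b m 0) • b m 0) _ _ (hγ _)
      rw [dist_smul, dist_comm]
      exact hB m (j m) (hj m) 0 (Nat.zero_le _)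
    obtain ⟨a, -, ha⟩ := (hK.cthickening (r := B)).ultrafilter_le_nhds
      (𝒰.map (fun m => γ (b m 0) • b m (j m)))
      (by
        rw [le_principal_iff]
        show {m | γ (b m 0) • b m (j m) ∈ Metric.cthickening B K} ∈ 𝒰
        exact Filter.univ_mem' hmem)
    exact ⟨a, ha⟩
  obtain ⟨x, hx⟩ := hlim (fun _ => 0) (fun _ => Nat.zero_le _)
  have hlim' : ∀ t, ∃ a, Tendsto (fun m => γ (b m 0) • b m (ι t m)) 𝒰 (𝓝 a) := fun t =>
    hlim (ι t) (hιk t)
  choose c hc using hlim'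
  have hcG : Continuous G := by
    rw [Metric.continuous_iff]
    intro a ε hε
    obtain ⟨δ, hδ, h⟩ := hu ε hε
    exact ⟨δ, hδ, fun y hy => h _ _ hy⟩
  have hcG' : Continuous G.symm := by
    rw [Metric.continuous_iff]
    intro a ε hε
    obtain ⟨δ, hδ, h⟩ := hu' ε hε
    exact ⟨δ, hδ, fun y hy => h _ _ hy⟩
  have hcP : Continuous P := by
    rw [Metric.continuous_iff]
    intro a ε hε
    obtain ⟨δ, hδ, h⟩ := H.cont ε hε
    exact ⟨δ, hδ, fun y hy => h _ _ hy⟩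
  refine ⟨x, c, fun t ht => ?_, fun t ht => ?_, fun t ht n => ?_⟩
  · -- the distance is `t`
    have h1 : Tendsto (fun m => dist (b m 0) (b m (ι t m))) 𝒰 (𝓝 (dist x (c t))) := by
      have := hx.dist (hc t)
      refine this.congr fun m => ?_
      rw [dist_smul]
    refine le_antisymm (le_of_forall_pos_le_add fun τ hτ => ?_)
      (ge_of_tendsto' h1 fun m => (hι t m ht).1)
    refine le_of_tendsto h1 (h𝒰at ?_)
    filter_upwards [hsmall τ hτ] with m hm
    have h2 := hι t m ht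
    have hpos : 0 < ι t m := by
      rcases Nat.eq_zero_or_pos (ι t m) with h | h
      · rw [h, dist_self] at h2
        exact absurd h2.1 (not_le.mpr ht.1)
      · exact h
    have h3 := h2.2 (ι t m - 1) (by omega)
    have h4 := hm (ι t m - 1) (lt_of_lt_of_le (by omega) (hιk t m))
    rw [Nat.sub_add_cancel hpos] at h4
    have := dist_triangle (b m 0) (b m (ι t m - 1)) (b m (ι t m))
    linarith
  · -- backward
    intro n
    rw [hTg', lx_dist, lmap_iter, lmap_iter, ndist_le_iff hδ2ρ]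
    have hm : ∀ m, dist (G.symm^[n] (b m 0)) (G.symm^[n] (b m (ι t m))) < r ∧
        dist (P (G.symm^[n] (b m 0))) (P (G.symm^[n] (b m (ι t m)))) ≤ T.δ / 2 := by
      intro m
      have h1 := hback t ht m
      rw [hTg'] at h1
      exact frel_lx H hδ2ρ h1 n
    have hm' : ∀ m, dist (G.symm^[n] (b m 0)) (G.symm^[n] (b m (ι t m))) ≤ r / 2 := fun m =>
      (H.gap _ _ (hm m).1 (lt_of_le_of_lt (hm m).2 hδ2ρ)).le
    have c1 : Tendsto (fun m => G.symm^[n] (γ (b m 0) • b m 0)) 𝒰 (𝓝 (G.symm^[n] x)) :=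
      ((hcG'.iterate n).tendsto _).comp hx
    have c2 : Tendsto (fun m => G.symm^[n] (γ (b m 0) • b m (ι t m))) 𝒰 (𝓝 (G.symm^[n] (c t))) :=
      ((hcG'.iterate n).tendsto _).comp (hc t)
    constructor
    · refine lt_of_le_of_lt (le_of_tendsto' (c1.dist c2) fun m => ?_) (by linarith : r / 2 < r)
      rw [hn2]
      exact hm' m
    · have c3 := ((hcP.tendsto _).comp c1).dist ((hcP.tendsto _).comp c2)
      refine le_of_tendsto' c3 fun m => ?_
      simp only [Function.comp]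
      rw [proj_iter hG', proj_iter hG', hPΓ, hPΓ, ← proj_iter hG', ← proj_iter hG']
      exact (hm m).2
  · -- forward
    have c1 : Tendsto (fun m => G^[n] (γ (b m 0) • b m 0)) 𝒰 (𝓝 (G^[n] x)) :=
      ((hcG.iterate n).tendsto _).comp hx
    have c2 : Tendsto (fun m => G^[n] (γ (b m 0) • b m (ι t m))) 𝒰 (𝓝 (G^[n] (c t))) :=
      ((hcG.iterate n).tendsto _).comp (hc t)
    refine le_of_tendsto (c1.dist c2) (h𝒰at ?_)
    filter_upwards [eventually_ge_atTop n] with m hm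
    rw [hn1]
    exact hB m _ (hιk t m) n (hm.trans (hl m))

end Pool.Agent.H223.CE
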