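import Pool.Agent.H223.CE.Conv
import Pool.Agent.TH289.Closing

set_option autoImplicit false
set_option linter.unusedSectionVars false

namespace Pool.Agent.H223.CE

open Pool.Agent.H721R2 Pool.Agent.H721R2.CSys Pool.Agent.H789R2.AN Filter Topology Set

variable {M X Γ E : Type*} [MetricSpace M] [CompactSpace M] [MetricSpace X]
  [NormedAddCommGroup E] [NormedSpace ℝ E]
  [Group Γ] [MulAction Γ X] [IsIsometricSMul Γ X] {P : X → M} {r ρ : ℝ}

/-- **Twisted shadowing.** -/
theorem tclose (S : HypSys M E) (H : Sheets P r ρ) {G : X ≃ X}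
    (hG : ∀ x, P (G x) = S.g (P x)) (hu : UCont G) (hPΓ : ∀ (γ : Γ) (x : X), P (γ • x) = P x)
    (ε : ℝ) (hε : 0 < ε) : ∃ δ > 0, ∀ (L : ℕ) (γ : Γ) (u : ℕ → X), 1 ≤ L →
      (∀ i < L, dist (G (u i)) (u (i + 1)) < δ) → u L = γ • u 0 →
      ∃ p, G^[L] p = γ • p ∧ ∀ i ≤ L, dist (G^[i] p) (u i) < ε := by
  have hr := H.r_pos
  obtain ⟨δG, hδG, hGc⟩ := hu (r / 4) (by positivity)
  set ε2 := min ε (min δG (r / 4)) with hε2
  have hε2' : 0 < ε2 := lt_min hε (lt_min hδG (by positivity))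
  have e1 : ε2 ≤ ε := min_le_left _ _
  have e2 : ε2 ≤ δG := (min_le_right _ _).trans (min_le_left _ _)
  have e3 : ε2 ≤ r / 4 := (min_le_right _ _).trans (min_le_right _ _)
  obtain ⟨ε3, hε3, hun⟩ := H.unif ε2 hε2'
  set ε4 := min (ε3 / 2) (ρ / 2) with hε4
  have hε4' : 0 < ε4 := lt_min (half_pos hε3) (half_pos H.ρ_pos)
  have e4 : ε4 < ε3 := lt_of_le_of_lt (min_le_left _ _) (by linarith)
  have e5 : ε4 < ρ := lt_of_le_of_lt (min_le_right _ _) (by linarith [H.ρ_pos])
  obtain ⟨δ1, hδ1, hps⟩ := Pool.Agent.TH289.per_shadow S hε4'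
  obtain ⟨η1, hη1, hc⟩ := H.cont δ1 hδ1
  refine ⟨min η1 (r / 4), lt_min hη1 (by positivity), fun L γ u hL hstep hend => ?_⟩
  have hL0 : (0 : ℤ) < L := by exact_mod_cast hL
  set v : ℤ → M := fun n => P (u (n % L).toNat) with hv
  have hPL : P (u L) = P (u 0) := by rw [hend, hPΓ]
  have hper : ∀ n, v (n + L) = v n := by
    intro n
    show P (u ((n + L) % L).toNat) = P (u (n % L).toNat)
    rw [Int.add_emod_right]
  have hnext : ∀ n : ℤ, v (n + 1) = P (u ((n % L).toNat + 1)) := by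
    intro n
    have e0 : 0 ≤ n % L := Int.emod_nonneg n hL0.ne'
    have e1 : n % L < L := Int.emod_lt_of_pos n hL0
    show P (u ((n + 1) % L).toNat) = _
    by_cases h4 : n % L + 1 < L
    · have h5 : (n + 1) % L = n % L + 1 := by
        rw [Int.add_emod]
        have h6 : (1 : ℤ) % L = 1 := Int.emod_eq_of_lt (by norm_num) (by omega)
        rw [h6]
        exact Int.emod_eq_of_lt (by omega) h4
      rw [h5]
      have h6 : (n % L + 1).toNat = (n % L).toNat + 1 := by omega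
      rw [h6]
    · have h5 : n % L = L - 1 := by omega
      have h6 : (n + 1) % L = 0 := by
        have : n + 1 = L * (n / L) + L := by
          have := Int.mul_ediv_add_emod n L
          omega
        rw [this]
        simp
      rw [h6]
      have h7 : (n % (L : ℤ)).toNat + 1 = L := by omega
      rw [h7, hPL]
      rfl
  have hpseudo : ∀ n, dist (S.g (v n)) (v (n + 1)) ≤ δ1 := by
    intro n
    have e0 : 0 ≤ n % L := Int.emod_nonneg n hL0.ne'
    have e1 : n % L < L := Int.emod_lt_of_pos n hL0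
    rw [hnext]
    show dist (S.g (P (u (n % L).toNat))) _ ≤ δ1
    rw [← hG]
    exact (hc _ _ (lt_of_lt_of_le (hstep _ (by omega)) (min_le_left _ _))).le
  obtain ⟨p0, hp0, hp1, -⟩ := hps L v hper hpseudo
  have hvi : ∀ i ≤ L, v (i : ℤ) = P (u i) := by
    intro i hi
    rcases Nat.lt_or_ge i L with h | h
    · show P (u ((i : ℤ) % L).toNat) = P (u i)
      have : (i : ℤ) % L = i := Int.emod_eq_of_lt (by omega) (by exact_mod_cast h)
      rw [this]; rfl
    · have : i = L := le_antisymm hi h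
      subst this
      rw [hPL]
      show P (u ((i : ℤ) % i).toNat) = P (u 0)
      rw [Int.emod_self]; rfl
  have h0 : dist (P (u 0)) p0 ≤ ε4 := by
    have h1 := hp1 0
    rw [hvi 0 (Nat.zero_le _)] at h1
    rw [dist_comm]; exact h1
  obtain ⟨p, hp, hup⟩ := H.lift (u 0) p0 (lt_of_le_of_lt h0 e5)
  have hproj : ∀ i : ℕ, P (G^[i] p) = S.g^[i] p0 := by
    intro i
    have : ∀ x, P (G x) = S.g.toEquiv (P x) := hG
    rw [proj_iter this, hp]; rfl
  have hsm : ∀ i ≤ L, dist (G^[i] p) (u i) < r → dist (G^[i] p) (u i) < ε2 := by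
    intro i hi h
    apply hun _ _ h
    rw [hproj, ← hvi i hi]
    exact lt_of_le_of_lt (hp1 i) e4
  have key : ∀ i ≤ L, dist (G^[i] p) (u i) < ε2 := by
    intro i
    induction i with
    | zero =>
      intro _
      apply hsm 0 (Nat.zero_le _)
      show dist p (u 0) < r
      rw [dist_comm]; linarith
    | succ i ih =>
      intro hi
      apply hsm _ hi
      have h1 := ih (by omega)
      have h2 := hGc _ _ (lt_of_lt_of_le h1 e2)
      have h3 := lt_of_lt_of_le (hstep i (by omega)) (min_le_right _ _)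
      rw [Function.iterate_succ_apply']
      have := dist_triangle (G (G^[i] p)) (G (u i)) (u (i + 1))
      linarith
  refine ⟨p, ?_, fun i hi => lt_of_lt_of_le (key i hi) e1⟩
  apply H.inj
  · have h1 := key L le_rfl
    have h2 := key 0 (Nat.zero_le _)
    have h2' : dist p (u 0) < ε2 := h2
    rw [hend] at h1
    have h3 := dist_triangle (G^[L] p) (γ • u 0) (γ • p)
    rw [dist_smul, dist_comm (u 0) p] at h3
    linarith
  · rw [hproj, hp0, hPΓ, hp]

/-- the closing lemma -/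
theorem tclosing (S : HypSys M E) (H : Sheets P r ρ) {G : X ≃ X}
    (hG : ∀ x, P (G x) = S.g (P x)) (hu : UCont G) (hPΓ : ∀ (γ : Γ) (x : X), P (γ • x) = P x)
    (ε : ℝ) (hε : 0 < ε) : ∃ δ > 0, ∀ (L : ℕ) (γ : Γ) (x : X), 1 ≤ L →
      dist (G^[L] x) (γ • x) < δ → ∃ p, G^[L] p = γ • p ∧ dist p x < ε := by
  obtain ⟨δ, hδ, h⟩ := tclose S H hG hu hPΓ ε hε
  refine ⟨δ, hδ, fun L γ x hL hx => ?_⟩
  obtain ⟨p, hp, hp'⟩ := h L γ (fun i => if i = L then γ • x else G^[i] x) hL (by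
    intro i hi
    have h1 : i ≠ L := by omega
    simp only [h1, if_false]
    by_cases h2 : i + 1 = L
    · simp only [h2, if_true]
      rw [← Function.iterate_succ_apply' G, Nat.succ_eq_add_one, h2]
      exact hx
    · simp only [h2, if_false]
      rw [← Function.iterate_succ_apply' G, dist_self]
      exact hδ) (by
    have h1 : (0 : ℕ) ≠ L := by omega
    simp [h1])
  refine ⟨p, hp, ?_⟩
  have h1 := hp' 0 (Nat.zero_le _)
  have h2 : (0 : ℕ) ≠ L := by omega
  simpa [h2] using h1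

/-- **Forward bounded pairs are forward asymptotic.** -/
theorem as_of_bounded [ProperSpace X] (S : HypSys M E) (H : Sheets P r ρ) {G : X ≃ X}
    (hG : ∀ x, P (G x) = S.g (P x)) (hu : UCont G) (hPΓ : ∀ (γ : Γ) (x : X), P (γ • x) = P x)
    {K : Set X} (hK : IsCompact K) (hKΓ : ∀ x, ∃ γ : Γ, γ • x ∈ K) (hN : NFix Γ G)
    {x y : X} {B : ℝ} (hB : ∀ n : ℕ, dist (G^[n] x) (G^[n] y) ≤ B) : As G x y := by
  by_contra hcon
  have h1 : ∃ c > 0, ∀ n0 : ℕ, ∃ n ≥ n0, c ≤ dist (G^[n] x) (G^[n] y) := by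
    by_contra h
    push Not at h
    apply hcon
    refine tendsto_order.mpr ⟨fun c hc => Eventually.of_forall fun n =>
      lt_of_lt_of_le hc dist_nonneg, fun ε hε => ?_⟩
    obtain ⟨n0, hn0⟩ := h ε hε
    exact eventually_atTop.mpr ⟨n0, hn0⟩
  obtain ⟨c, hc, hfreq⟩ := h1
  obtain ⟨δ, hδ, hcl⟩ := tclosing S H hG hu hPΓ (c / 2) (half_pos hc)
  -- a strictly increasing sequence of times
  obtain ⟨t, ht, htc⟩ : ∃ t : ℕ → ℕ, StrictMono t ∧
      ∀ i, c ≤ dist (G^[t i] x) (G^[t i] y) := by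
    choose φ hφ1 hφ2 using hfreq
    refine ⟨fun i => Nat.rec (φ 0) (fun _ m => φ (m + 1)) i, strictMono_nat_of_lt_succ ?_, ?_⟩
    · intro i
      exact hφ1 _
    · intro i
      cases i with
      | zero => exact hφ2 0
      | succ i => exact hφ2 _
  choose γ hγ using hKΓ
  have hB0 : 0 ≤ B := dist_nonneg.trans (hB 0)
  let w : ℕ → X × X := fun i => (γ (G^[t i] x) • G^[t i] x, γ (G^[t i] x) • G^[t i] y)
  have hw : ∀ i, w i ∈ K ×ˢ Metric.cthickening B K := by
    intro i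
    refine ⟨hγ _, Metric.mem_cthickening_of_dist_le _ (γ (G^[t i] x) • G^[t i] x) _ _ (hγ _) ?_⟩
    show dist (γ (G^[t i] x) • G^[t i] y) (γ (G^[t i] x) • G^[t i] x) ≤ B
    rw [dist_smul, dist_comm]
    exact hB _
  obtain ⟨a, -, φ, hφ, hlim⟩ := (hK.prod hK.cthickening).tendsto_subseq hw
  have hcs := hlim.cauchySeq
  rw [Metric.cauchySeq_iff] at hcs
  obtain ⟨n0, hn0⟩ := hcs δ hδ
  have h2 := hn0 n0 le_rfl (n0 + 1) (by omega)
  set i := φ n0 with hi
  set j := φ (n0 + 1) with hj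
  have hij : t i < t j := ht (hφ (by omega))
  obtain ⟨k, hk⟩ := Nat.exists_eq_add_of_lt hij
  have hk' : t j = (k + 1) + t i := by omega
  set g1 := γ (G^[t i] x) with hg1
  set g2 := γ (G^[t j] x) with hg2
  have h3 : dist (g1 • G^[t i] x) (g2 • G^[t j] x) < δ := by
    refine lt_of_le_of_lt ?_ h2
    exact le_max_left _ _
  have h4 : dist (g1 • G^[t i] y) (g2 • G^[t j] y) < δ := by
    refine lt_of_le_of_lt ?_ h2
    exact le_max_right _ _
  have conv : ∀ z : X, dist (g1 • G^[t i] z) (g2 • G^[t j] z) < δ →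
      dist (G^[k + 1] (G^[t i] z)) ((g2⁻¹ * g1) • G^[t i] z) < δ := by
    intro z hz
    rw [← dist_smul g2, mul_smul, smul_inv_smul, dist_comm, ← Function.iterate_add_apply, ← hk']
    exact hz
  obtain ⟨p, hp1, hp2⟩ := hcl (k + 1) (g2⁻¹ * g1) (G^[t i] x) (by omega) (conv x h3)
  obtain ⟨q, hq1, hq2⟩ := hcl (k + 1) (g2⁻¹ * g1) (G^[t i] y) (by omega) (conv y h4)
  have hpq := hN (k + 1) (by omega) _ _ _ hp1 hq1
  subst hpq
  have h5 := htc i
  have h6 := dist_triangle_left (G^[t i] x) (G^[t i] y) p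
  linarith

end Pool.Agent.H223.CE
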