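import Pool.Agent.H223.CE.Lift
import Pool.Agent.H721R2.Box
import Pool.Agent.H789R2.AN.Hyp

set_option autoImplicit false
set_option linter.unusedSectionVars false

namespace Pool.Agent.H223.CE

open Pool.Agent.H721R2 Pool.Agent.H721R2.CSys Pool.Agent.H789R2.AN Filter Topology

/-- Chain systems at arbitrarily small scales. -/
theorem exists_csys2 {X E : Type*} [MetricSpace X] [NormedAddCommGroup E] [NormedSpace ℝ E]
    [CompactSpace X] (S : HypSys X E) (η : ℝ) (hη : 0 < η) :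
    ∃ T : CSys X, T.g = S.g.toEquiv ∧ T.εs ≤ η ∧ T.ms * T.δ ≤ T.εs ∧ T.mu * T.δ ≤ T.εs := by
  have ha : S.a < 1 / 2 := by have := S.a_le; linarith
  have hb : S.b < 1 / 2 := by have := S.b_le; linarith
  set ms : ℕ := ⌈4 * S.Ls⌉₊ with hmsd
  set mu : ℕ := ⌈4 * S.Lu⌉₊ with hmud
  have hms : 4 * S.Ls ≤ ms := Nat.le_ceil _
  have hmu : 4 * S.Lu ≤ mu := Nat.le_ceil _
  obtain ⟨e1, he1, h1⟩ := S.contraction_iter (1 / 2) ha
  obtain ⟨e2, he2, h2⟩ := S.symm.contraction_iter (1 / 2) hb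
  obtain ⟨e3, he3, h3⟩ := S.local_product
  obtain ⟨e4, he4, h4⟩ := S.subdivide ms hms
  obtain ⟨e5, he5, h5⟩ := S.symm.subdivide mu hmu
  have hK := S.one_le_K
  have hK0 : 0 < S.K := by linarith
  have hLs := S.one_le_Ls
  have hLu := S.one_le_Lu
  have hms0 : (0 : ℝ) < ms := by linarith
  have hmu0 : (0 : ℝ) < mu := by linarith
  set εs := min (min e1 e2) η with hεs
  have hεs0 : 0 < εs := lt_min (lt_min he1 he2) hη
  set δ := min (min (min (εs / (36 * S.K + 2)) (e3 / 2)) (min e4 e5))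
    (min (εs / ms) (εs / mu)) with hδ
  have hδ0 : 0 < δ := by
    simp only [hδ, lt_min_iff]
    exact ⟨⟨⟨by positivity, by positivity⟩, he4, he5⟩, by positivity, by positivity⟩
  have d0 : δ ≤ min (min (εs / (36 * S.K + 2)) (e3 / 2)) (min e4 e5) := min_le_left _ _
  have d1 : δ ≤ εs / (36 * S.K + 2) := d0.trans ((min_le_left _ _).trans (min_le_left _ _))
  have d2 : δ ≤ e3 / 2 := d0.trans ((min_le_left _ _).trans (min_le_right _ _))
  have d3 : δ ≤ e4 := d0.trans ((min_le_right _ _).trans (min_le_left _ _))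
  have d4 : δ ≤ e5 := d0.trans ((min_le_right _ _).trans (min_le_right _ _))
  have d5 : δ ≤ εs / ms := (min_le_right _ _).trans (min_le_left _ _)
  have d6 : δ ≤ εs / mu := (min_le_right _ _).trans (min_le_right _ _)
  refine ⟨{
    g := S.g.toEquiv
    K := S.K
    δ := δ
    α := 1 / 2
    β := 1 / 2
    εs := εs
    ms := ms
    mu := mu
    one_le_K := hK
    δ_pos := hδ0
    α_pos := by norm_num
    β_pos := by norm_num
    α_le := le_rfl
    β_le := le_rfl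
    hδ := by
      rw [le_div_iff₀ (by positivity)] at d1
      linarith
    contrS := fun x y hxy k => h1 x y (hxy.mono ((min_le_left _ _).trans (min_le_left _ _))) k
    contrU := fun x y hxy k => h2 x y (hxy.mono ((min_le_left _ _).trans (min_le_right _ _))) k
    lp := fun x y hxy => h3 x y (by linarith)
    subS := fun x y hxy => h4 δ hδ0 d3 x y hxy
    subU := fun x y hxy => h5 δ hδ0 d4 x y hxy }, rfl,
    min_le_right _ _, ?_, ?_⟩
  · rw [le_div_iff₀ hms0] at d5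
    show (ms : ℝ) * δ ≤ εs
    linarith
  · rw [le_div_iff₀ hmu0] at d6
    show (mu : ℝ) * δ ≤ εs
    linarith

/-- uniform continuity in elementary form -/
def UCont {X : Type*} [MetricSpace X] (G : X → X) : Prop :=
  ∀ ε > 0, ∃ δ > 0, ∀ x y, dist x y < δ → dist (G x) (G y) < ε

theorem UCont.iter {X : Type*} [MetricSpace X] {G : X → X} (h : UCont G) (n : ℕ) :
    UCont (G^[n]) := by
  induction n with
  | zero => intro ε hε; exact ⟨ε, hε, fun x y hxy => hxy⟩
  | succ n ih =>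
    intro ε hε
    obtain ⟨δ, hδ, h1⟩ := h ε hε
    obtain ⟨δ', hδ', h2⟩ := ih δ hδ
    refine ⟨δ', hδ', fun x y hxy => ?_⟩
    rw [Function.iterate_succ_apply', Function.iterate_succ_apply']
    exact h1 _ _ (h2 _ _ hxy)

theorem UCont.iters {X : Type*} [MetricSpace X] {G : X → X} (h : UCont G) (n : ℕ) :
    ∀ ε > 0, ∃ δ > 0, ∀ k ≤ n, ∀ x y, dist x y < δ → dist (G^[k] x) (G^[k] y) < ε := by
  intro ε hε
  induction n with
  | zero =>
    refine ⟨ε, hε, fun k hk x y hxy => ?_⟩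
    have : k = 0 := by omega
    subst this
    exact hxy
  | succ n ih =>
    obtain ⟨δ, hδ, h1⟩ := ih
    obtain ⟨δ', hδ', h2⟩ := h.iter (n + 1) ε hε
    refine ⟨min δ δ', lt_min hδ hδ', fun k hk x y hxy => ?_⟩
    rcases Nat.lt_or_ge k (n + 1) with h | h
    · exact h1 k (by omega) x y (lt_of_lt_of_le hxy (min_le_left _ _))
    · have : k = n + 1 := by omega
      subst this
      exact h2 x y (lt_of_lt_of_le hxy (min_le_right _ _))

/-- Expansion of large distances, along the pairs of points that are backward asymptotic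
under `G`. -/
def LExp {X : Type*} [MetricSpace X] (G : X ≃ X) (n : ℕ) (R : ℝ) : Prop :=
  ∀ y w, As G.symm y w → R ≤ dist y w → 2 * dist y w ≤ dist (G^[n] y) (G^[n] w)

/-- lower bound for the growth of the distances of unstable pairs -/
def DomU {X : Type*} [MetricSpace X] (G : X ≃ X) (n : ℕ) (κ C : ℝ) : Prop :=
  ∀ y w, As G.symm y w → κ * dist y w - C ≤ dist (G^[n] y) (G^[n] w)

/-- upper bound for the growth of the distances of stable pairs -/
def DomS {X : Type*} [MetricSpace X] (G : X ≃ X) (n : ℕ) (κ C : ℝ) : Prop :=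
  ∀ z w, As G z w → dist (G^[n] z) (G^[n] w) ≤ κ * dist z w + C

/-- Bounded pieces of unstable leaves are uniformly contracted by the backward iterates. -/
def BPieces {X : Type*} [MetricSpace X] (G : X ≃ X) : Prop :=
  ∃ ε > 0, ∀ r : ℝ, ∀ ε' > 0, ∃ m : ℕ, ∀ (k : ℕ) (c : ℕ → X),
    (∀ i < k, ∀ l : ℕ, dist (G.symm^[l] (c i)) (G.symm^[l] (c (i + 1))) ≤ ε) →
    (∀ i ≤ k, dist (c 0) (c i) ≤ r) →
    ∀ l ≥ m, dist (G.symm^[l] (c 0)) (G.symm^[l] (c k)) ≤ ε'

section swap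

variable {M X E : Type*} [MetricSpace M] [MetricSpace X] [NormedAddCommGroup E] [NormedSpace ℝ E]
  {P : X → M} {r ρ : ℝ}

/-- stable pairs are joined by chains -/
theorem chain_of_as {Y : Type*} [MetricSpace Y] (T : CSys Y) {x y : Y} (h : As T.g x y) :
    ∃ N, Chain (FRel T.g T.δ) N x y := by
  obtain ⟨l, hl⟩ := eventually_atTop.mp ((tendsto_order.mp h).2 _ T.δ_pos)
  have h1 : FRel T.g T.δ (T.g^[l] x) (T.g^[l] y) := by
    intro k
    rw [← Function.iterate_add_apply, ← Function.iterate_add_apply]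
    exact (hl _ (by omega)).le
  have h2 := T.pullS l 1 _ _ (Chain.single h1)
  rw [eq_symm_iter_iter, eq_symm_iter_iter] at h2
  exact ⟨_, h2⟩

/-- The scale. -/
theorem exists_scale (H : Sheets P r ρ) {G : X ≃ X} (hu : UCont G) (hu' : UCont G.symm) (n : ℕ)
    (ε : ℝ) (hε : 0 < ε) : ∃ η > 0, η < ρ ∧ ∀ x y, dist x y < r → dist (P x) (P y) ≤ η →
      dist (G x) (G y) < r ∧ dist (G.symm x) (G.symm y) < r ∧
      (∀ k ≤ n, dist (G^[k] x) (G^[k] y) ≤ 1) ∧ dist x y ≤ ε := by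
  obtain ⟨δ1, hδ1, h1⟩ := hu r H.r_pos
  obtain ⟨δ2, hδ2, h2⟩ := hu' r H.r_pos
  obtain ⟨δ3, hδ3, h3⟩ := hu.iters n 1 one_pos
  obtain ⟨η0, hη0, h4⟩ := H.unif (min (min δ1 δ2) (min δ3 ε))
    (lt_min (lt_min hδ1 hδ2) (lt_min hδ3 hε))
  refine ⟨min (η0 / 2) (ρ / 2), lt_min (by linarith) (by linarith [H.ρ_pos]), ?_, ?_⟩
  · exact lt_of_le_of_lt (min_le_right _ _) (by linarith [H.ρ_pos])
  · intro x y hxy hP
    have h5 : dist (P x) (P y) < η0 := by
      have := min_le_left (η0 / 2) (ρ / 2)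
      linarith
    have h6 := h4 x y hxy h5
    rw [lt_min_iff, lt_min_iff, lt_min_iff] at h6
    exact ⟨h1 _ _ h6.1.1, h2 _ _ h6.1.2, fun k hk => (h3 k hk _ _ h6.2.1).le, h6.2.2.le⟩

/-- The lifted chain system at a small scale. -/
theorem exists_lift [CompactSpace M] (S : HypSys M E) (H : Sheets P r ρ) {G : X ≃ X}
    (hG : ∀ x, P (G x) = S.g (P x)) (hu : UCont G) (hu' : UCont G.symm) (n : ℕ)
    (ε : ℝ) (hε : 0 < ε) : ∃ T : CSys (LX H), T.g = lmap H G ∧
      (T.ms : ℝ) * T.δ ≤ T.εs ∧ (T.mu : ℝ) * T.δ ≤ T.εs ∧ T.εs < ρ ∧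
      ∀ x y, dist x y < r → dist (P x) (P y) ≤ T.εs →
      dist (G x) (G y) < r ∧ dist (G.symm x) (G.symm y) < r ∧
      (∀ k ≤ n, dist (G^[k] x) (G^[k] y) ≤ 1) ∧ dist x y ≤ ε := by
  obtain ⟨η, hη, hηρ, h1⟩ := exists_scale H hu hu' n ε hε
  obtain ⟨T0, hT0g, hT0, hms, hmu⟩ := exists_csys2 S η hη
  have hG0 : ∀ x, P (G x) = T0.g (P x) := by rw [hT0g]; exact hG
  have h2 : ∀ x y, dist x y < r → dist (P x) (P y) ≤ T0.εs →
      dist (G x) (G y) < r ∧ dist (G.symm x) (G.symm y) < r ∧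
      (∀ k ≤ n, dist (G^[k] x) (G^[k] y) ≤ 1) ∧ dist x y ≤ ε :=
    fun x y hxy hP => h1 x y hxy (hP.trans hT0)
  obtain ⟨T, hTg, -, hTδ, hTε, hTms, hTmu⟩ := lift_csys H T0 G hG0 (lt_of_le_of_lt hT0 hηρ) hms hmu
    (fun x y hxy hP => (h2 x y hxy hP).1) (fun x y hxy hP => (h2 x y hxy hP).2.1)
  refine ⟨T, hTg, ?_, ?_, ?_, ?_⟩
  · rw [hTms, hTδ, hTε]; exact hms
  · rw [hTmu, hTδ, hTε]; exact hmu
  · rw [hTε]; exact lt_of_le_of_lt hT0 hηρ
  · rw [hTε]; exact h2

theorem frel_lx (H : Sheets P r ρ) {G : X ≃ X} {ε : ℝ} (hε : ε < ρ) {a b : LX H}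
    (h : FRel (lmap H G) ε a b) (l : ℕ) : dist (G^[l] a.val) (G^[l] b.val) < r ∧
      dist (P (G^[l] a.val)) (P (G^[l] b.val)) ≤ ε := by
  have h1 : ndist P r ρ ((lmap H G)^[l] a).val ((lmap H G)^[l] b).val ≤ ε := h l
  rw [lmap_iter, lmap_iter] at h1
  exact (ndist_le_iff hε).mp h1

/-- **Swap in the covering space.** -/
theorem swapX [CompactSpace M] (S : HypSys M E) (H : Sheets P r ρ) {G : X ≃ X}
    (hG : ∀ x, P (G x) = S.g (P x)) (hu : UCont G) (hu' : UCont G.symm) {n : ℕ}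
    {κs κu C : ℝ} (hκ0 : 0 ≤ κs) (hκ : κs < κu) (hU : DomU G n κu C) (hS : DomS G n κs C)
    (hB : BPieces G) (x y z : X)
    (hxy : As G x y) (hxz : As G.symm x z) : ∃ w, As G.symm y w ∧ As G z w := by
  obtain ⟨εb, hεb, hB⟩ := hB
  obtain ⟨T, hTg, hms, hmu, hTρ, hsm⟩ := exists_lift S H hG hu hu' n εb hεb
  have hTg' : T.g.symm = lmap H G.symm := by rw [hTg]; rfl
  have hδρ : T.δ < ρ := lt_of_le_of_lt T.δ_le_εs hTρ
  have C : Coarse T (fun a b => dist a.val b.val) n κs κu C := {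
    κs_nonneg := hκ0
    κ_lt := hκ
    nonneg := fun _ _ => dist_nonneg
    self := fun _ => dist_self _
    comm := fun _ _ => dist_comm _ _
    tri := fun _ _ _ => dist_triangle _ _ _
    small := by
      intro a b hab k hk
      rw [lx_dist, ndist_le_iff hTρ] at hab
      rw [hTg, lmap_iter, lmap_iter]
      exact (hsm _ _ hab.1 hab.2).2.2.1 k hk
    expU := by
      intro a b hab
      rw [hTg'] at hab
      rw [hTg, lmap_iter, lmap_iter]
      exact hU _ _ (as_of_lx H hab)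
    expS := by
      intro a b hab
      rw [hTg] at hab ⊢
      rw [lmap_iter, lmap_iter]
      exact hS _ _ (as_of_lx H hab)
    bp := by
      intro r'
      obtain ⟨η', hη', hc⟩ := H.cont (T.δ / 2) (by linarith [T.δ_pos])
      obtain ⟨m, hm⟩ := hB r' (min η' r / 2) (half_pos (lt_min hη' H.r_pos))
      refine ⟨m, fun k c hstep hball => ?_⟩
      have h1 := hm k (fun i => (c i).val) (fun i hi l => by
        have h2 := hstep i hi
        rw [hTg'] at h2
        have h3 := frel_lx H hδρ h2 l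
        exact (hsm _ _ h3.1 (h3.2.trans T.δ_le_εs)).2.2.2) hball
      intro j
      rw [← Function.iterate_add_apply, ← Function.iterate_add_apply, hTg', lx_dist, lmap_iter,
        lmap_iter]
      have h4 := h1 (j + m) (by omega)
      have h5 : 0 < min η' r := lt_min hη' H.r_pos
      have h6 : dist (G.symm^[j + m] (c 0).val) (G.symm^[j + m] (c k).val) < min η' r := by
        linarith
      rw [ndist_le_iff (by linarith [T.δ_pos])]
      exact ⟨lt_of_lt_of_le h6 (min_le_right _ _),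
        (hc _ _ (lt_of_lt_of_le h6 (min_le_left _ _))).le⟩ }
  have h1 : As T.g (⟨x⟩ : LX H) ⟨y⟩ := by rw [hTg]; exact lx_of_as H hxy
  have h2 : As T.g.symm (⟨x⟩ : LX H) ⟨z⟩ := by rw [hTg']; exact lx_of_as H hxz
  obtain ⟨N, c, hc0, hcN, hc⟩ := chain_of_as T h1
  obtain ⟨J, d, hd0, hdJ, hd⟩ := chain_of_as T.symm h2
  obtain ⟨w, hw1, hw2⟩ := C.engine hms hmu N J c d hc hd (hc0.trans hd0.symm)
  rw [hcN, hTg'] at hw1
  rw [hdJ, hTg] at hw2
  exact ⟨w.val, as_of_lx H hw1, as_of_lx H hw2⟩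

/-- Lifting asymptotic pairs. -/
theorem lift_as (H : Sheets P r ρ) {g : M ≃ M} {G : X ≃ X} (hG : ∀ x, P (G x) = g (P x))
    {η : ℝ} (hη : 0 < η) (hηρ : η < ρ)
    (hp : ∀ x y, dist x y < r → dist (P x) (P y) ≤ η → dist (G x) (G y) < r) {x : X} {m : M}
    (h : As g (P x) m) : ∃ y, P y = m ∧ As G x y := by
  obtain ⟨l, hl⟩ := eventually_atTop.mp ((tendsto_order.mp h).2 _ hη)
  have h1 := hl l le_rfl
  rw [← proj_iter hG] at h1
  obtain ⟨y', hy1, hy2⟩ := H.lift _ _ (h1.trans hηρ)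
  have hr := H.r_pos
  have e1 : P (G.symm^[l] y') = m := by
    rw [proj_iter (proj_symm hG), hy1, eq_symm_iter_iter]
  refine ⟨G.symm^[l] y', e1, ?_⟩
  have h2 : ∀ j : ℕ, dist (G^[j + l] x) (G^[j + l] (G.symm^[l] y')) < r := by
    intro j
    rw [Function.iterate_add_apply _ j l (G.symm^[l] y'), eq_iter_symm_iter]
    induction j with
    | zero => rw [Nat.zero_add]; show dist _ y' < r; linarith
    | succ j ih =>
      rw [Function.iterate_succ_apply', show j + 1 + l = (j + l) + 1 by ring,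
        Function.iterate_succ_apply']
      apply hp _ _ ih
      rw [proj_iter hG, proj_iter hG, hy1, ← Function.iterate_add_apply]
      exact (hl _ (by omega)).le
  have h3 : ∀ k ≥ l, dist (G^[k] x) (G^[k] (G.symm^[l] y')) < r := by
    intro k hk
    obtain ⟨j, rfl⟩ := Nat.exists_eq_add_of_le' hk
    exact h2 j
  refine tendsto_order.mpr ⟨fun c hc => Eventually.of_forall fun n => lt_of_lt_of_le hc dist_nonneg,
    fun ε hε => ?_⟩
  obtain ⟨δ, hδ, h4⟩ := H.unif ε hε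
  filter_upwards [(tendsto_order.mp h).2 _ hδ, eventually_ge_atTop l] with k hk hkl
  apply h4 _ _ (h3 k hkl)
  rw [proj_iter hG, proj_iter hG, e1]
  exact hk

theorem proj_as (H : Sheets P r ρ) {g : M ≃ M} {G : X ≃ X} (hG : ∀ x, P (G x) = g (P x))
    {x y : X} (h : As G x y) : As g (P x) (P y) := by
  refine tendsto_order.mpr ⟨fun c hc => Eventually.of_forall fun n => lt_of_lt_of_le hc dist_nonneg,
    fun ε hε => ?_⟩
  obtain ⟨η, hη, h1⟩ := H.cont ε hε
  filter_upwards [(tendsto_order.mp h).2 _ hη] with n hn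
  rw [← proj_iter hG, ← proj_iter hG]
  exact h1 _ _ hn

/-- **Swap in the base.** -/
theorem swapM [CompactSpace M] (S : HypSys M E) (H : Sheets P r ρ)
    (hsurj : Function.Surjective P) {G : X ≃ X}
    (hG : ∀ x, P (G x) = S.g (P x)) (hu : UCont G) (hu' : UCont G.symm) {n : ℕ}
    {κs κu C : ℝ} (hκ0 : 0 ≤ κs) (hκ : κs < κu) (hU : DomU G n κu C) (hS : DomS G n κs C)
    (hB : BPieces G) (x y z : M)
    (hxy : WS S.g x y) (hxz : WS S.g.symm x z) : ∃ w, WS S.g.symm y w ∧ WS S.g z w := by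
  obtain ⟨x, rfl⟩ := hsurj x
  obtain ⟨η, hη, hηρ, hsc⟩ := exists_scale H hu hu' 0 1 one_pos
  have hG0 : ∀ x, P (G x) = S.g.toEquiv (P x) := hG
  have hG1 : ∀ x, P (G.symm x) = S.g.toEquiv.symm (P x) := proj_symm hG0
  obtain ⟨y, rfl, hy⟩ := lift_as H hG0 hη hηρ (fun a b hab h => (hsc a b hab h).1) hxy
  obtain ⟨z, rfl, hz⟩ := lift_as H hG1 hη hηρ (fun a b hab h => (hsc a b hab h).2.1) hxz
  obtain ⟨w, hw1, hw2⟩ := swapX S H hG hu hu' hκ0 hκ hU hS hB x y z hy hz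
  exact ⟨P w, proj_as H hG1 hw1, proj_as H hG0 hw2⟩

/-- global product in the base -/
theorem globalM [CompactSpace M] [PreconnectedSpace M] {g : M ≃ₜ M} {c : ℝ} (hL : LP g c)
    (hsw : ∀ x y z, WS g x y → WS g.symm x z → ∃ w, WS g.symm y w ∧ WS g z w) (x y : M) :
    ∃ w, WS g x w ∧ WS g.symm w y := by
  obtain ⟨δ, hδ, hlp⟩ := hL.lp c hL.c_pos
  set A : Set M := {y | ∃ w, WS g x w ∧ WS g.symm w y} with hA
  have key : ∀ y y', dist y y' < δ → y ∈ A → y' ∈ A := by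
    rintro y y' hyy' ⟨w, hw1, hw2⟩
    obtain ⟨z, hz1, hz2⟩ := hlp y y' hyy'
    have hS : WS g y z := WS.of_SR (hL.cS _ _ hz1)
    have hU : WS g.symm y' z := WS.of_SR (hL.cU _ _ hz2)
    obtain ⟨v, hv1, hv2⟩ := hsw y z w hS hw2.symm'
    exact ⟨v, hw1.trans hv2, (hU.trans hv1).symm'⟩
  have hopen : IsOpen A := by
    rw [Metric.isOpen_iff]
    exact fun y hy => ⟨δ, hδ, fun y' hy' => key y y' (by rw [dist_comm]; exact hy') hy⟩
  have hclosed : IsClosed A := by
    rw [← isOpen_compl_iff, Metric.isOpen_iff]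
    exact fun y hy => ⟨δ, hδ, fun y' hy' h => hy (key y' y hy' h)⟩
  have huniv : A = Set.univ := IsClopen.eq_univ ⟨hclosed, hopen⟩ ⟨x, x, WS.refl _ _, WS.refl _ _⟩
  have : y ∈ A := by rw [huniv]; trivial
  exact this

theorem transM [CompactSpace M] [PreconnectedSpace M] {g : M ≃ₜ M} {c : ℝ} (hL : LP g c)
    (hsw : ∀ x y z, WS g x y → WS g.symm x z → ∃ w, WS g.symm y w ∧ WS g z w)
    (U V : Set M) (hU : IsOpen U) (hUn : U.Nonempty) (hV : IsOpen V) (hVn : V.Nonempty) :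
    ∃ n : ℕ, (g^[n] '' U ∩ V).Nonempty := by
  refine transitive_of_unique hL (fun A hA => ?_) U V hU hUn hV hVn
  by_contra hcon
  obtain ⟨z, hz⟩ := (Set.ne_univ_iff_exists_notMem A).mp hcon
  obtain ⟨w, hw, -⟩ := exists_repeller hL hA hz
  obtain ⟨a, ha⟩ := hA.nonempty
  obtain ⟨v, hv1, hv2⟩ := globalM hL hsw w a
  exact hw ⟨v, hA.sat a ha v hv2.symm', hv1⟩

/-- global product in the covering space -/
theorem globalX [CompactSpace M] [PreconnectedSpace X] (S : HypSys M E) (H : Sheets P r ρ)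
    {G : X ≃ X} (hG : ∀ x, P (G x) = S.g (P x)) (hu : UCont G) (hu' : UCont G.symm) {n : ℕ}
    {κs κu C : ℝ} (hκ0 : 0 ≤ κs) (hκ : κs < κu) (hU : DomU G n κu C) (hS : DomS G n κs C)
    (hB : BPieces G) (x y : X) :
    ∃ w, As G x w ∧ As G.symm y w := by
  obtain ⟨T, hTg, -, -, hTρ, -⟩ := exists_lift S H hG hu hu' n 1 one_pos
  have hTg' : T.g.symm = lmap H G.symm := by rw [hTg]; rfl
  have hδ0 := T.δ_pos
  have h2δ : 2 * T.δ < ρ := by
    have := T.e36
    have := T.Kδ_pos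
    linarith
  obtain ⟨η, hη, hc⟩ := H.cont (2 * T.δ) (by linarith)
  have hmin : 0 < min η r := lt_min hη H.r_pos
  set A : Set X := {y | ∃ w, As G x w ∧ As G.symm y w} with hA
  have key : ∀ y y', dist y y' < min η r → y ∈ A → y' ∈ A := by
    rintro y y' hyy' ⟨w, hw1, hw2⟩
    have h1 : dist (⟨y⟩ : LX H) ⟨y'⟩ ≤ 2 * T.δ := by
      rw [lx_dist, ndist_le_iff h2δ]
      exact ⟨lt_of_lt_of_le hyy' (min_le_right _ _),
        (hc _ _ (lt_of_lt_of_le hyy' (min_le_left _ _))).le⟩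
    obtain ⟨z, hz1, hz2⟩ := T.lp _ _ h1
    have h9 : 9 * T.K * dist (⟨y⟩ : LX H) ⟨y'⟩ ≤ T.εs := by
      have h3 := T.e36
      have h4 := T.Kδ_pos
      have h5 : 9 * T.K * dist (⟨y⟩ : LX H) ⟨y'⟩ ≤ 9 * T.K * (2 * T.δ) :=
        mul_le_mul_of_nonneg_left h1 (by linarith [T.one_le_K])
      linarith
    have hS1 : As G y z.val := by
      have := as_of_frel T h9 hz1
      rw [hTg] at this
      exact as_of_lx H this
    have hU1 : As G.symm z.val y' := by
      have := asU_of_frel T h9 hz2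
      rw [hTg'] at this
      exact as_of_lx H this
    obtain ⟨v, hv1, hv2⟩ := swapX S H hG hu hu' hκ0 hκ hU hS hB y z.val w hS1 hw2
    exact ⟨v, hw1.trans hv2, hU1.symm.trans hv1⟩
  have hopen : IsOpen A := by
    rw [Metric.isOpen_iff]
    exact fun y hy => ⟨_, hmin, fun y' hy' => key y y' (by rw [dist_comm]; exact hy') hy⟩
  have hclosed : IsClosed A := by
    rw [← isOpen_compl_iff, Metric.isOpen_iff]
    exact fun y hy => ⟨_, hmin, fun y' hy' h => hy (key y' y hy' h)⟩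
  have huniv : A = Set.univ := IsClopen.eq_univ ⟨hclosed, hopen⟩ ⟨x, x, As.refl _ _, As.refl _ _⟩
  have : y ∈ A := by rw [huniv]; trivial
  exact this

end swap

end Pool.Agent.H223.CE
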