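import Pool.Agent.H721R2.Lad

set_option autoImplicit false

namespace Pool.Agent.H223.CE

open Pool.Agent.H721R2 Pool.Agent.H721R2.CSys Filter Topology

section As

variable {Y : Type*} [MetricSpace Y]

/-- forward asymptotic points -/
def As (g : Y → Y) (x y : Y) : Prop :=
  Tendsto (fun n : ℕ => dist (g^[n] x) (g^[n] y)) atTop (𝓝 0)

theorem As.refl (g : Y → Y) (x : Y) : As g x x := by simp [As]

theorem As.symm {g : Y → Y} {x y : Y} (h : As g x y) : As g y x := by
  unfold As at *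
  simpa only [dist_comm] using h

theorem As.trans {g : Y → Y} {x y z : Y} (h : As g x y) (h' : As g y z) : As g x z := by
  have h1 := h.add h'
  rw [add_zero] at h1
  exact squeeze_zero (fun _ => dist_nonneg) (fun n => dist_triangle _ (g^[n] y) _) h1

theorem As.iter {g : Y → Y} {x y : Y} (h : As g x y) (k : ℕ) : As g (g^[k] x) (g^[k] y) := by
  unfold As at *
  have h1 := h.comp (tendsto_add_atTop_nat k)
  refine h1.congr fun n => ?_
  simp only [Function.comp, Function.iterate_add_apply]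

theorem as_chain {g : Y → Y} {c : ℕ → Y} {k : ℕ} (h : ∀ i < k, As g (c i) (c (i + 1))) :
    ∀ i ≤ k, As g (c 0) (c i) := by
  intro i
  induction i with
  | zero => intro _; exact As.refl _ _
  | succ i ih => intro hi; exact (ih (by omega)).trans (h i (by omega))

theorem frel_chain {g : Y → Y} {c : ℕ → Y} {k : ℕ} {δ : ℝ}
    (h : ∀ i < k, FRel g δ (c i) (c (i + 1))) : ∀ i ≤ k, FRel g (i * δ) (c 0) (c i) := by
  intro i
  induction i with
  | zero => intro _ j; simp
  | succ i ih =>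
    intro hi j
    have h1 := (ih (by omega)) j
    have h2 := (h i (by omega)) j
    have h3 := dist_triangle (g^[j] (c 0)) (g^[j] (c i)) (g^[j] (c (i + 1)))
    push_cast
    linarith

end As

variable {Y : Type*} [MetricSpace Y]

theorem as_of_frel (T : CSys Y) {ε : ℝ} (hε : ε ≤ T.εs) {x y : Y} (h : FRel T.g ε x y) :
    As T.g x y := by
  have h1 := T.contrS x y (h.mono hε)
  have h2 : Tendsto (fun n : ℕ => T.α ^ n * dist x y) atTop (𝓝 0) := by
    have := (tendsto_pow_atTop_nhds_zero_of_lt_one T.α_pos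
      (by linarith [T.α_le] : T.α < 1)).mul_const (dist x y)
    simpa using this
  exact squeeze_zero (fun _ => dist_nonneg) h1 h2

theorem asU_of_frel (T : CSys Y) {ε : ℝ} (hε : ε ≤ T.εs) {x y : Y} (h : FRel T.g.symm ε x y) :
    As T.g.symm x y := as_of_frel T.symm hε h

/-- Pulling back a stable chain, with control of the intermediate points. -/
theorem nest (T : CSys Y) (hms : (T.ms : ℝ) * T.δ ≤ T.εs) (N : ℕ) (x : ℕ → Y)
    (hx : ∀ i < N, FRel T.g T.δ (x i) (x (i + 1))) (m : ℕ) :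
    Chain (fun a b => FRel T.g T.δ a b ∧
      (∃ j ≤ N, FRel T.g (T.ms * T.δ * (1 - (1 / 2) ^ m)) (x j) (T.g^[m] a)) ∧
      (∃ j ≤ N, FRel T.g (T.ms * T.δ * (1 - (1 / 2) ^ m)) (x j) (T.g^[m] b)))
      (T.ms ^ m * N) (T.g.symm^[m] (x 0)) (T.g.symm^[m] (x N)) := by
  induction m with
  | zero =>
    refine ⟨x, rfl, by simp, fun i hi => ?_⟩
    have hi' : i < N := by simpa using hi
    refine ⟨hx i hi', ⟨i, hi'.le, ?_⟩, ⟨i + 1, hi', ?_⟩⟩
    · simpa using FRel.refl le_rfl (x i)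
    · simpa using FRel.refl le_rfl (x (i + 1))
  | succ m ih =>
    have e : T.ms ^ (m + 1) * N = T.ms * (T.ms ^ m * N) := by ring
    rw [Function.iterate_succ_apply', Function.iterate_succ_apply', e]
    refine ih.flatten T.g.symm ?_
    rintro a b ⟨hab, ⟨j, hj, hja⟩, -⟩
    obtain ⟨c, h0, h1, h2⟩ := T.subS a b hab
    have hδ0 := T.δ_pos
    have near : ∀ i ≤ T.ms, ∃ j ≤ N,
        FRel T.g (T.ms * T.δ * (1 - (1 / 2) ^ (m + 1))) (x j) (T.g^[m + 1] (c i)) := by
      intro i hi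
      refine ⟨j, hj, ?_⟩
      have h3 : FRel T.g (T.ms * T.δ) (c 0) (c i) :=
        (frel_chain h2 i hi).mono
          (mul_le_mul_of_nonneg_right (by exact_mod_cast hi) hδ0.le)
      have h4 := T.shrink hms h3 h3.dist_le (m + 1)
      have h5 : T.g^[m + 1] (c 0) = T.g^[m] a := by
        rw [h0, Function.iterate_succ_apply, Equiv.apply_symm_apply]
      rw [h5] at h4
      refine (hja.trans h4).mono ?_
      have h6 : T.α ^ (m + 1) ≤ (1 / 2) ^ (m + 1) := pow_le_pow_left₀ T.α_pos T.α_le _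
      have h7 : T.α ^ (m + 1) * (T.ms * T.δ) ≤ (1 / 2) ^ (m + 1) * (T.ms * T.δ) :=
        mul_le_mul_of_nonneg_right h6 (by positivity)
      have h8 : (1 / 2 : ℝ) ^ (m + 1) = (1 / 2) ^ m * (1 / 2) := pow_succ _ _
      rw [h8] at h7 ⊢
      nlinarith
    exact ⟨c, h0, h1, fun i hi => ⟨h2 i hi, near i hi.le, near (i + 1) hi⟩⟩

theorem nest' (T : CSys Y) (hms : (T.ms : ℝ) * T.δ ≤ T.εs) (N : ℕ) (x : ℕ → Y)
    (hx : ∀ i < N, FRel T.g T.δ (x i) (x (i + 1))) (m : ℕ) :
    ∃ p : ℕ → Y, p 0 = T.g.symm^[m] (x 0) ∧ p (T.ms ^ m * N) = T.g.symm^[m] (x N) ∧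
      (∀ i < T.ms ^ m * N, FRel T.g T.δ (p i) (p (i + 1))) ∧
      ∀ i ≤ T.ms ^ m * N, ∃ j ≤ N, FRel T.g T.εs (x j) (T.g^[m] (p i)) := by
  obtain ⟨p, h0, h1, h2⟩ := nest T hms N x hx m
  have hδ0 := T.δ_pos
  have hle : T.ms * T.δ * (1 - (1 / 2) ^ m) ≤ T.εs := by
    have h3 : (0 : ℝ) ≤ (1 / 2) ^ m := by positivity
    have h4 : (0 : ℝ) ≤ T.ms * T.δ := by positivity
    nlinarith
  refine ⟨p, h0, h1, fun i hi => (h2 i hi).1, fun i hi => ?_⟩
  rcases Nat.lt_or_ge i (T.ms ^ m * N) with h | h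
  · obtain ⟨j, hj, h5⟩ := (h2 i h).2.1
    exact ⟨j, hj, h5.mono hle⟩
  · have hi' : i = T.ms ^ m * N := le_antisymm hi h
    rcases Nat.eq_zero_or_pos i with h6 | h6
    · refine ⟨0, Nat.zero_le _, ?_⟩
      rw [h6, h0, eq_iter_symm_iter]
      exact FRel.refl (hδ0.le.trans T.δ_le_εs) _
    · obtain ⟨j, hj, h5⟩ := (h2 (i - 1) (by omega)).2.2
      rw [Nat.sub_add_cancel h6] at h5
      exact ⟨j, hj, h5.mono hle⟩

/-- The coarse data: `dX` is the distance of the covering space. -/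
structure Coarse (T : CSys Y) (dX : Y → Y → ℝ) (n : ℕ) (κs κu C : ℝ) : Prop where
  κs_nonneg : 0 ≤ κs
  κ_lt : κs < κu
  nonneg : ∀ x y, 0 ≤ dX x y
  self : ∀ x, dX x x = 0
  comm : ∀ x y, dX x y = dX y x
  tri : ∀ x y z, dX x z ≤ dX x y + dX y z
  small : ∀ x y, dist x y ≤ T.εs → ∀ k ≤ n, dX (T.g^[k] x) (T.g^[k] y) ≤ 1
  expU : ∀ y w, As T.g.symm y w → κu * dX y w - C ≤ dX (T.g^[n] y) (T.g^[n] w)
  expS : ∀ z w, As T.g z w → dX (T.g^[n] z) (T.g^[n] w) ≤ κs * dX z w + C
  bp : ∀ r : ℝ, ∃ m : ℕ, ∀ (k : ℕ) (c : ℕ → Y),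
    (∀ i < k, FRel T.g.symm T.δ (c i) (c (i + 1))) → (∀ i ≤ k, dX (c 0) (c i) ≤ r) →
    FRel T.g.symm (T.δ / 2) (T.g.symm^[m] (c 0)) (T.g.symm^[m] (c k))

theorem Coarse.small0 {T : CSys Y} {dX : Y → Y → ℝ} {n : ℕ} {κs κu c : ℝ}
    (C : Coarse T dX n κs κu c) {x y : Y} (h : dist x y ≤ T.εs) : dX x y ≤ 1 :=
  C.small x y h 0 (Nat.zero_le _)

/-- The a priori estimate for rectangles. -/
theorem Coarse.ap {T : CSys Y} {dX : Y → Y → ℝ} {n : ℕ} {κs κu c : ℝ}
    (C : Coarse T dX n κs κu c)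
    {x y z w : Y} {A B : ℝ} (hA : dX x y ≤ A) (hA' : dX (T.g^[n] x) (T.g^[n] y) ≤ A)
    (hB : dX x z ≤ B) (hB' : dX (T.g^[n] x) (T.g^[n] z) ≤ B) (hU : As T.g.symm y w)
    (hS : As T.g z w) : dX y w ≤ ((1 + κs) * (A + B) + 2 * c) / (κu - κs) := by
  have hκ0 := C.κs_nonneg
  have hκ := C.κ_lt
  rw [le_div_iff₀ (by linarith)]
  have h1 := C.expU y w hU
  have h2 : dX z w ≤ B + A + dX y w := by
    have e1 := C.tri z x w
    have e2 := C.tri x y w
    rw [C.comm z x] at e1
    linarith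
  have h3 := C.expS z w hS
  have h4 : κs * dX z w ≤ κs * (B + A + dX y w) := mul_le_mul_of_nonneg_left h2 hκ0
  have e1 := C.tri (T.g^[n] y) (T.g^[n] x) (T.g^[n] w)
  have e2 := C.tri (T.g^[n] x) (T.g^[n] z) (T.g^[n] w)
  rw [C.comm (T.g^[n] y) (T.g^[n] x)] at e1
  nlinarith

/-- The engine: stable and unstable chains with the same base point span a rectangle. -/
theorem Coarse.engine {T : CSys Y} {dX : Y → Y → ℝ} {n : ℕ} {κs κu c₀ : ℝ}
    (C : Coarse T dX n κs κu c₀)
    (hms : (T.ms : ℝ) * T.δ ≤ T.εs) (hmu : (T.mu : ℝ) * T.δ ≤ T.εs) (N J : ℕ) (x z : ℕ → Y)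
    (hx : ∀ i < N, FRel T.g T.δ (x i) (x (i + 1)))
    (hz : ∀ i < J, FRel T.g.symm T.δ (z i) (z (i + 1))) (h0 : x 0 = z 0) :
    ∃ w, As T.g.symm (x N) w ∧ As T.g (z J) w := by
  have hδ0 := T.δ_pos
  have hδε := T.δ_le_εs
  have hK0 := T.Kδ_pos
  have hKδ := T.δ_le_Kδ
  have h36 := T.e36
  have hK := T.one_le_K
  have hα0 := T.α_pos
  have hβ0 := T.β_pos
  obtain ⟨m, hm⟩ := C.bp (((1 + κs) * (((N : ℝ) + 1) + ((J : ℝ) + 1)) + 2 * c₀) / (κu - κs))
  obtain ⟨p, hp0, hpN, hp, hpn⟩ := nest' T hms N x hx m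
  set N' := T.ms ^ m * N with hN'
  -- the times
  obtain ⟨k', hk1, hk2⟩ : ∃ k' : ℕ, 2 * (N' : ℝ) * T.α ^ (m + k') ≤ 1 ∧
      36 * T.K * T.β ^ k' ≤ 1 := by
    have t1 : Tendsto (fun k : ℕ => 2 * (N' : ℝ) * T.α ^ (m + k)) atTop (𝓝 0) := by
      have := ((tendsto_pow_atTop_nhds_zero_of_lt_one hα0
        (by linarith [T.α_le] : T.α < 1)).const_mul (2 * (N' : ℝ) * T.α ^ m))
      rw [mul_zero] at this
      refine this.congr fun k => ?_
      rw [pow_add]; ring
    have t2 : Tendsto (fun k : ℕ => 36 * T.K * T.β ^ k) atTop (𝓝 0) := by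
      have := ((tendsto_pow_atTop_nhds_zero_of_lt_one hβ0
        (by linarith [T.β_le] : T.β < 1)).const_mul (36 * T.K))
      rwa [mul_zero] at this
    obtain ⟨k, h1, h2⟩ := (((tendsto_order.mp t1).2 1 one_pos).and
      ((tendsto_order.mp t2).2 1 one_pos)).exists
    exact ⟨k, h1.le, h2.le⟩
  have hβk : T.β ^ (m + k') ≤ T.β ^ k' :=
    pow_le_pow_of_le_one hβ0 (by linarith [T.β_le]) (by omega)
  obtain ⟨b, hb0, hbJ, hb, hbn⟩ := nest' T.symm hmu J z hz k'
  have hb0' : b 0 = T.g^[k'] (z 0) := hb0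
  have hbJ' : b (T.mu ^ k' * J) = T.g^[k'] (z J) := hbJ
  set J' := T.mu ^ k' * J with hJ'
  have hb' : ∀ i < J', FRel T.g.symm T.δ (b i) (b (i + 1)) := hb
  have hbn' : ∀ i ≤ J', ∃ j ≤ J, FRel T.g.symm T.εs (z j) (T.g.symm^[k'] (b i)) := hbn
  have hxp : T.g^[m] (p 0) = x 0 := by rw [hp0, eq_iter_symm_iter]
  have back : ∀ a : Y, T.g.symm^[k'] (T.g^[m + k'] a) = T.g^[m] a := by
    intro a
    rw [add_comm m k', Function.iterate_add_apply, eq_symm_iter_iter]
  -- a priori bounds on the base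
  have baseS : ∀ i ≤ N', dX (x 0) (T.g^[m] (p i)) ≤ N + 1 ∧
      dX (T.g^[n] (x 0)) (T.g^[n] (T.g^[m] (p i))) ≤ N + 1 := by
    intro i hi
    obtain ⟨j, hj, h1⟩ := hpn i hi
    have h2 : ∀ l : ℕ, ∀ i ≤ N, dX (T.g^[l] (x 0)) (T.g^[l] (x i)) ≤ i := by
      intro l i
      induction i with
      | zero =>
        intro _
        rw [C.self]; simp
      | succ i ih =>
        intro hi
        have h3 := ih (by omega)
        have h4 : dX (T.g^[l] (x i)) (T.g^[l] (x (i + 1))) ≤ 1 :=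
          C.small0 (((hx i (by omega)) l).trans hδε)
        have h5 := C.tri (T.g^[l] (x 0)) (T.g^[l] (x i)) (T.g^[l] (x (i + 1)))
        push_cast
        linarith
    have hjN : (j : ℝ) ≤ N := by exact_mod_cast hj
    have key : ∀ l : ℕ, dX (T.g^[l] (x 0)) (T.g^[l] (T.g^[m] (p i))) ≤ N + 1 := by
      intro l
      have h3 := h2 l j hj
      have h4 : dX (T.g^[l] (x j)) (T.g^[l] (T.g^[m] (p i))) ≤ 1 := C.small0 (h1 l)
      have h5 := C.tri (T.g^[l] (x 0)) (T.g^[l] (x j)) (T.g^[l] (T.g^[m] (p i)))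
      linarith
    exact ⟨key 0, key n⟩
  have baseU : ∀ s ≤ J', dX (x 0) (T.g.symm^[k'] (b s)) ≤ J + 1 ∧
      dX (T.g^[n] (x 0)) (T.g^[n] (T.g.symm^[k'] (b s))) ≤ J + 1 := by
    intro s hs
    obtain ⟨j, hj, h1⟩ := hbn' s hs
    have h2 : ∀ l ≤ n, ∀ i ≤ J, dX (T.g^[l] (z 0)) (T.g^[l] (z i)) ≤ i := by
      intro l hl i
      induction i with
      | zero =>
        intro _
        rw [C.self]; simp
      | succ i ih =>
        intro hi
        have h3 := ih (by omega)
        have h4 : dX (T.g^[l] (z i)) (T.g^[l] (z (i + 1))) ≤ 1 :=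
          C.small _ _ (((hz i (by omega)).dist_le).trans hδε) l hl
        have h5 := C.tri (T.g^[l] (z 0)) (T.g^[l] (z i)) (T.g^[l] (z (i + 1)))
        push_cast
        linarith
    have hjJ : (j : ℝ) ≤ J := by exact_mod_cast hj
    have key : ∀ l ≤ n, dX (T.g^[l] (x 0)) (T.g^[l] (T.g.symm^[k'] (b s))) ≤ J + 1 := by
      intro l hl
      rw [h0]
      have h3 := h2 l hl j hj
      have h4 : dX (T.g^[l] (z j)) (T.g^[l] (T.g.symm^[k'] (b s))) ≤ 1 :=
        C.small _ _ h1.dist_le l hl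
      have h5 := C.tri (T.g^[l] (z 0)) (T.g^[l] (z j)) (T.g^[l] (T.g.symm^[k'] (b s)))
      linarith
    exact ⟨key 0 (Nat.zero_le _), key n le_rfl⟩
  -- the rows
  have vert : ∀ a a' : Y, FRel T.g.symm (18 * (T.K * T.δ)) (T.g^[m + k'] a) (T.g^[m + k'] a') →
      FRel T.g.symm T.δ (T.g^[m] a) (T.g^[m] a') := by
    intro a a' h
    have h1 := T.shrinkU (by linarith) h h.dist_le k'
    rw [back, back] at h1
    refine h1.mono ?_
    have h2 : T.β ^ k' * (18 * (T.K * T.δ)) = (36 * T.K * T.β ^ k') * (T.δ / 2) := by ring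
    rw [h2]
    have h3 : (36 * T.K * T.β ^ k') * (T.δ / 2) ≤ 1 * (T.δ / 2) :=
      mul_le_mul_of_nonneg_right hk2 (by positivity)
    linarith
  have rows : ∀ t ≤ J', ∃ q : ℕ → ℕ → Y, q 0 = p ∧
      (∀ s ≤ t, T.g^[m + k'] (q s 0) = b s) ∧
      (∀ s ≤ t, ∀ i < N', FRel T.g (2 * T.δ) (q s i) (q s (i + 1))) ∧
      (∀ s < t, ∀ i ≤ N', FRel T.g.symm (18 * (T.K * T.δ)) (T.g^[m + k'] (q s i))
        (T.g^[m + k'] (q (s + 1) i))) := by
    intro t
    induction t with
    | zero =>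
      intro _
      refine ⟨fun _ => p, rfl, ?_, ?_, ?_⟩
      · intro s hs
        have hs0 : s = 0 := by omega
        rw [hs0, hb0', ← h0, add_comm m k', Function.iterate_add_apply, hxp]
      · intro s _ i hi
        exact (hp i hi).mono (by linarith)
      · intro s hs; omega
    | succ t ih =>
      intro ht
      obtain ⟨q, hq0, hqb, hqS, hqU⟩ := ih (by omega)
      have hB : FRel T.g.symm T.δ (T.g^[m + k'] (q t 0)) (b (t + 1)) := by
        rw [hqb t le_rfl]; exact hb' t (by omega)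
      obtain ⟨p', hp'0, hp'S, hp'U⟩ := T.push (m + k') N' hk1 (2 * T.δ) le_rfl (by positivity)
        (q t) (hqS t le_rfl) (b (t + 1)) hB
      have h3δ : 2 * T.δ + 36 * T.K * T.β ^ (m + k') * T.δ ≤ 3 * T.δ := by
        have h1 : 36 * T.K * T.β ^ (m + k') ≤ 36 * T.K * T.β ^ k' :=
          mul_le_mul_of_nonneg_left hβk (by positivity)
        have h2 : 36 * T.K * T.β ^ (m + k') * T.δ ≤ 1 * T.δ :=
          mul_le_mul_of_nonneg_right (h1.trans hk2) hδ0.le
        linarith
      have hp'S3 : ∀ i < N', FRel T.g (3 * T.δ) (p' i) (p' (i + 1)) := fun i hi =>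
        (hp'S i hi).mono h3δ
      -- closeness to the base row
      have close : ∀ i ≤ N', FRel T.g.symm (T.δ / 2) (p i) (p' i) := by
        intro i hi
        let c : ℕ → Y := fun s => if s ≤ t then T.g^[m] (q s i) else T.g^[m] (p' i)
        have hc1 : ∀ s ≤ t, c s = T.g^[m] (q s i) := fun s hs => if_pos hs
        have hc2 : c (t + 1) = T.g^[m] (p' i) := if_neg (by omega)
        have hstep : ∀ s < t + 1, FRel T.g.symm T.δ (c s) (c (s + 1)) := by
          intro s hs
          rcases Nat.lt_or_ge s t with h | h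
          · rw [hc1 s h.le, hc1 (s + 1) h]
            exact vert _ _ (hqU s h i hi)
          · have hst : s = t := by omega
            subst hst
            rw [hc1 s le_rfl, hc2]
            exact vert _ _ (hp'U i hi)
        have hc0 : c 0 = T.g^[m] (p i) := by rw [hc1 0 (Nat.zero_le _), hq0]
        have hasU := as_chain (g := T.g.symm) (c := c) (k := t + 1)
          (fun s hs => asU_of_frel T hδε (hstep s hs))
        have hball : ∀ s ≤ t + 1, dX (c 0) (c s) ≤
            ((1 + κs) * (((N : ℝ) + 1) + ((J : ℝ) + 1)) + 2 * c₀) / (κu - κs) := by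
          intro s hs
          -- the row at level `s`
          obtain ⟨r, hr1, hr2, hr3⟩ : ∃ r : ℕ → Y, T.g^[m + k'] (r 0) = b s ∧
              c s = T.g^[m] (r i) ∧ ∀ i < N', FRel T.g (3 * T.δ) (r i) (r (i + 1)) := by
            rcases Nat.lt_or_ge s (t + 1) with h | h
            · exact ⟨q s, hqb s (by omega), hc1 s (by omega), fun i hi =>
                (hqS s (by omega) i hi).mono (by linarith)⟩
            · have hst : s = t + 1 := by omega
              subst hst
              exact ⟨p', hp'0, hc2, hp'S3⟩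
          have hz1 : T.g^[m] (r 0) = T.g.symm^[k'] (b s) := by rw [← hr1, back]
          have hS : As T.g (T.g^[m] (r 0)) (c s) := by
            rw [hr2]
            refine As.iter ?_ m
            exact as_chain (fun l hl => as_of_frel T (by linarith) (hr3 l hl)) i hi
          rw [hz1] at hS
          have hbS := baseS i hi
          have hbU := baseU s (by omega)
          rw [← hc0] at hbS
          exact C.ap hbS.1 hbS.2 hbU.1 hbU.2 (hasU s hs) hS
        have h1 := hm (t + 1) c hstep hball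
        rw [hc0, hc2, eq_symm_iter_iter, eq_symm_iter_iter] at h1
        exact h1
      refine ⟨fun s => if s ≤ t then q s else p', ?_, ?_, ?_, ?_⟩
      · simp only [Nat.zero_le, if_true]; exact hq0
      · intro s hs
        dsimp only
        rcases Nat.lt_or_ge s (t + 1) with h | h
        · rw [if_pos (by omega)]; exact hqb s (by omega)
        · have hst : s = t + 1 := by omega
          subst hst
          rw [if_neg (by omega)]; exact hp'0
      · intro s hs i hi
        dsimp only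
        rcases Nat.lt_or_ge s (t + 1) with h | h
        · rw [if_pos (by omega)]; exact hqS s (by omega) i hi
        · have hst : s = t + 1 := by omega
          subst hst
          rw [if_neg (by omega)]
          apply T.shrink0 (ε := 3 * T.δ) (by linarith) (hp'S3 i hi)
          have h1 := (close i hi.le).dist_le
          have h2 := (close (i + 1) hi).dist_le
          have h3 := (hp i hi).dist_le
          have h4 := dist_triangle4 (p' i) (p i) (p (i + 1)) (p' (i + 1))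
          rw [dist_comm (p' i) (p i)] at h4
          linarith
      · intro s hs i hi
        dsimp only
        rcases Nat.lt_or_ge s t with h | h
        · rw [if_pos (by omega), if_pos (by omega)]; exact hqU s h i hi
        · have hst : s = t := by omega
          subst hst
          rw [if_pos le_rfl, if_neg (by omega)]
          exact hp'U i hi
  obtain ⟨q, hq0, hqb, hqS, hqU⟩ := rows J' le_rfl
  refine ⟨T.g^[m] (q J' N'), ?_, ?_⟩
  · have h1 := as_chain (g := T.g.symm) (c := fun s => T.g^[m] (q s N')) (k := J')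
      (fun s hs => asU_of_frel T hδε (vert _ _ (hqU s hs N' le_rfl))) J' le_rfl
    have h2 : T.g^[m] (q 0 N') = x N := by rw [hq0, hpN, eq_iter_symm_iter]
    simp only [h2] at h1
    exact h1
  · have h1 := as_chain (g := T.g) (c := q J') (k := N')
      (fun i hi => as_of_frel T (by linarith) (hqS J' le_rfl i hi)) N' le_rfl
    have h2 := h1.iter m
    have h3 : T.g^[m] (q J' 0) = z J := by
      rw [← back, hqb J' le_rfl, hbJ', eq_symm_iter_iter]
    rwa [h3] at h2

end Pool.Agent.H223.CE
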