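import Pool.Agent.H223.CE.Weak
import Pool.Agent.TH289.K.Def
import Pool.Agent.H789R2.GP.Br

set_option autoImplicit false
set_option linter.unusedSectionVars false

namespace Pool.Agent.H223.CE

open Pool.Agent.H721R2 Pool.Agent.H721R2.CSys Pool.Agent.H789R2.AN Filter Topology Set unitInterval
open Pool.Agent.TH289.K (GPS StablePath)

variable {M X E : Type*} [MetricSpace M] [MetricSpace X]
  [NormedAddCommGroup E] [NormedSpace ℝ E] {P : X → M} {r ρ : ℝ}

theorem lx_small (H : Sheets P r ρ) {ε : ℝ} (hε : 0 < ε) :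
    ∃ ε' > 0, ∀ a b : LX H, dist a b < ε' → dist a.val b.val < ε := by
  obtain ⟨ε3, hε3, h⟩ := H.unif ε hε
  refine ⟨min ε3 ρ, lt_min hε3 H.ρ_pos, fun a b hab => ?_⟩
  rw [lx_dist] at hab
  have h1 := (ndist_le_iff (lt_of_lt_of_le hab (min_le_right _ _))).mp le_rfl
  exact h _ _ h1.1 (lt_of_le_of_lt h1.2 (lt_of_lt_of_le hab (min_le_left _ _)))

theorem lx_proj (H : Sheets P r ρ) {ε : ℝ} (hε : 0 < ε) :
    ∃ ε' > 0, ∀ a b : LX H, dist a b < ε' → dist (P a.val) (P b.val) < ε := by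
  refine ⟨min ε ρ, lt_min hε H.ρ_pos, fun a b hab => ?_⟩
  rw [lx_dist] at hab
  have h1 := (ndist_le_iff (lt_of_lt_of_le hab (min_le_right _ _))).mp le_rfl
  exact lt_of_le_of_lt h1.2 (lt_of_lt_of_le hab (min_le_left _ _))

theorem lx_near (H : Sheets P r ρ) {δ : ℝ} (hδ : 0 < δ) (hδρ : δ < ρ) :
    ∃ s > 0, ∀ a b : X, dist a b < s → dist (⟨a⟩ : LX H) ⟨b⟩ ≤ δ := by
  obtain ⟨η, hη, hc⟩ := H.cont δ hδ
  refine ⟨min η r, lt_min hη H.r_pos, fun a b hab => ?_⟩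
  rw [lx_dist, ndist_le_iff hδρ]
  exact ⟨lt_of_lt_of_le hab (min_le_right _ _), (hc _ _ (lt_of_lt_of_le hab (min_le_left _ _))).le⟩

section br

variable {H : Sheets P r ρ} {G : X ≃ X}

/-- stable pairs that are close are locally stable -/
theorem locS (T : CSys (LX H)) (hTg : T.g = lmap H G)
    (hU : ∀ x y, As G x y → As G.symm x y → x = y) {a b : X} (h : As G a b)
    (hd : dist (⟨a⟩ : LX H) ⟨b⟩ ≤ 2 * T.δ) : FRel T.g T.εs (⟨a⟩ : LX H) ⟨b⟩ := by
  have hTg' : T.g.symm = lmap H G.symm := by rw [hTg]; rfl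
  obtain ⟨z, hz1, hz2⟩ := T.lp _ _ hd
  have h36 := T.e36
  have hKδ := T.Kδ_pos
  have hK := T.one_le_K
  have h9 : 9 * T.K * dist (⟨a⟩ : LX H) ⟨b⟩ ≤ T.εs := by
    have h5 : 9 * T.K * dist (⟨a⟩ : LX H) ⟨b⟩ ≤ 9 * T.K * (2 * T.δ) :=
      mul_le_mul_of_nonneg_left hd (by linarith)
    nlinarith
  have hS1 := as_of_frel T h9 hz1
  have hU1 := asU_of_frel T h9 hz2
  rw [hTg] at hS1
  rw [hTg'] at hU1
  have h6 := hU z.val b ((as_of_lx H hS1).symm.trans h) (as_of_lx H hU1)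
  have h7 : z = (⟨b⟩ : LX H) := LX.ext h6
  rw [h7] at hz1
  exact hz1.mono h9

/-- the bracket is continuous -/
theorem br_cont (T : CSys (LX H)) (hTg : T.g = lmap H G) (hTρ : T.εs < ρ) (hu : UCont G)
    (hu' : UCont G.symm) (br : X → X → X) (h1 : ∀ a b, As G a (br a b))
    (h2 : ∀ a b, As G.symm b (br a b))
    (h3 : ∀ a b w, As G a w → As G.symm b w → w = br a b) :
    Continuous (fun p : X × X => br p.1 p.2) := by
  have hTg' : T.g.symm = lmap H G.symm := by rw [hTg]; rfl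
  have h36 := T.e36
  have hKδ := T.Kδ_pos
  have hK := T.one_le_K
  have hδ0 := T.δ_pos
  have hδρ : T.δ < ρ := lt_of_le_of_lt T.δ_le_εs hTρ
  have hα0 := T.α_pos
  have hβ0 := T.β_pos
  have h9 : ∀ a b : LX H, dist a b ≤ 2 * T.δ → 9 * T.K * dist a b ≤ T.εs := by
    intro a b hd
    have h5 : 9 * T.K * dist a b ≤ 9 * T.K * (2 * T.δ) :=
      mul_le_mul_of_nonneg_left hd (by linarith)
    nlinarith
  rw [Metric.continuous_iff]
  rintro ⟨a0, b0⟩ ε hε
  set w0 := br a0 b0 with hw0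
  obtain ⟨ε', hε', hsm⟩ := lx_small H (half_pos hε)
  obtain ⟨s, hs, hsT⟩ := lx_near H hδ0 hδρ
  have tα : Tendsto (fun n : ℕ => T.α ^ n * T.εs) atTop (𝓝 0) := by
    have := (tendsto_pow_atTop_nhds_zero_of_lt_one hα0
      (by linarith [T.α_le] : T.α < 1)).mul_const T.εs
    simpa using this
  have tβ : Tendsto (fun n : ℕ => T.β ^ n * T.εs) atTop (𝓝 0) := by
    have := (tendsto_pow_atTop_nhds_zero_of_lt_one hβ0
      (by linarith [T.β_le] : T.β < 1)).mul_const T.εs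
    simpa using this
  have as1 : As T.g (⟨a0⟩ : LX H) ⟨w0⟩ := by rw [hTg]; exact lx_of_as H (h1 a0 b0)
  have as2 : As T.g.symm (⟨b0⟩ : LX H) ⟨w0⟩ := by rw [hTg']; exact lx_of_as H (h2 a0 b0)
  obtain ⟨n, ⟨⟨⟨hn1, hn2⟩, hn3⟩, hn4⟩⟩ := (((((tendsto_order.mp as1).2 _ hδ0).and
    ((tendsto_order.mp as2).2 _ (half_pos hδ0))).and
    ((tendsto_order.mp tβ).2 (min ε' (T.δ / 2)) (lt_min hε' (half_pos hδ0)))).and
    ((tendsto_order.mp tα).2 ε' hε')).exists
  obtain ⟨η1, hη1, hi1⟩ := hu.iters n s hs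
  obtain ⟨η2, hη2, hi2⟩ := hu'.iters n s hs
  refine ⟨min η1 η2, lt_min hη1 hη2, ?_⟩
  rintro ⟨a, b⟩ hab
  have hab' : dist a a0 < min η1 η2 ∧ dist b b0 < min η1 η2 := by
    rw [Prod.dist_eq] at hab
    exact ⟨lt_of_le_of_lt (le_max_left _ _) hab, lt_of_le_of_lt (le_max_right _ _) hab⟩
  show dist (br a b) (br a0 b0) < ε
  rw [← hw0]
  have it : ∀ (k : ℕ) (x : X), T.g^[k] (⟨x⟩ : LX H) = ⟨G^[k] x⟩ := by
    intro k x
    rw [hTg]
    exact LX.ext (lmap_iter H G k ⟨x⟩)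
  have it' : ∀ (k : ℕ) (x : X), T.g.symm^[k] (⟨x⟩ : LX H) = ⟨G.symm^[k] x⟩ := by
    intro k x
    rw [hTg']
    exact LX.ext (lmap_iter H G.symm k ⟨x⟩)
  -- first step
  have hda : dist (T.g^[n] (⟨a⟩ : LX H)) (T.g^[n] ⟨w0⟩) ≤ 2 * T.δ := by
    have e1 : dist (T.g^[n] (⟨a⟩ : LX H)) (T.g^[n] ⟨a0⟩) ≤ T.δ := by
      rw [it, it]
      exact hsT _ _ (hi1 n le_rfl _ _ (lt_of_lt_of_le hab'.1 (min_le_left _ _)))
    have e2 := dist_triangle (T.g^[n] (⟨a⟩ : LX H)) (T.g^[n] ⟨a0⟩) (T.g^[n] ⟨w0⟩)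
    linarith
  obtain ⟨z, hz1, hz2⟩ := T.lp _ _ hda
  have hz1' := hz1.mono (h9 _ _ hda)
  have hz2' := hz2.mono (h9 _ _ hda)
  have hw1 : As T.g (⟨a⟩ : LX H) (T.g.symm^[n] z) := by
    apply as_of_shift n
    rw [eq_iter_symm_iter]
    exact as_of_frel T le_rfl hz1'
  have hw2 : As T.g.symm (T.g.symm^[n] z) (⟨w0⟩ : LX H) := by
    have := (asU_of_frel T le_rfl hz2').iter n
    rwa [eq_symm_iter_iter] at this
  have hw3 : (T.g.symm^[n] z).val = br a b0 := by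
    apply h3
    · rw [hTg] at hw1 ⊢
      exact as_of_lx H hw1
    · have h4 : As G.symm (T.g.symm^[n] z).val w0 := by
        have h5 := hw2
        rw [hTg'] at h5 ⊢
        exact as_of_lx H h5
      exact (h2 a0 b0).trans h4.symm
  have hw4 : (⟨br a b0⟩ : LX H) = T.g.symm^[n] z := LX.ext hw3.symm
  have hd1 : ∀ k, dist (T.g.symm^[k] (T.g.symm^[n] z)) (T.g.symm^[k] (⟨w0⟩ : LX H)) ≤
      T.β ^ n * T.εs := by
    intro k
    have h4 := T.contrU _ _ hz2' (k + n)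
    rw [Function.iterate_add_apply, Function.iterate_add_apply, eq_symm_iter_iter] at h4
    refine h4.trans ?_
    have h5 : T.β ^ (k + n) ≤ T.β ^ n :=
      pow_le_pow_of_le_one hβ0 (by linarith [T.β_le]) (by omega)
    exact mul_le_mul h5 hz2'.dist_le dist_nonneg (by positivity)
  have hX1 : dist (br a b0) w0 < ε / 2 := by
    have h4 := hd1 0
    have h5 : dist (⟨br a b0⟩ : LX H) ⟨w0⟩ < ε' := by
      rw [hw4]
      exact lt_of_le_of_lt h4 (lt_of_lt_of_le hn3 (min_le_left _ _))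
    exact hsm _ _ h5
  -- second step
  have hdb : dist (T.g.symm^[n] (⟨br a b0⟩ : LX H)) (T.g.symm^[n] ⟨b⟩) ≤ 2 * T.δ := by
    have e1 : dist (T.g.symm^[n] (⟨b⟩ : LX H)) (T.g.symm^[n] ⟨b0⟩) ≤ T.δ := by
      rw [it', it']
      exact hsT _ _ (hi2 n le_rfl _ _ (lt_of_lt_of_le hab'.2 (min_le_right _ _)))
    have e2 : dist (T.g.symm^[n] (⟨br a b0⟩ : LX H)) (T.g.symm^[n] ⟨w0⟩) ≤ T.δ / 2 := by
      rw [hw4]
      exact (hd1 n).trans (hn3.le.trans (min_le_right _ _))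
    have e3 := dist_triangle4 (T.g.symm^[n] (⟨br a b0⟩ : LX H)) (T.g.symm^[n] ⟨w0⟩)
      (T.g.symm^[n] ⟨b0⟩) (T.g.symm^[n] ⟨b⟩)
    rw [dist_comm (T.g.symm^[n] (⟨w0⟩ : LX H)), dist_comm (T.g.symm^[n] (⟨b0⟩ : LX H))
      (T.g.symm^[n] ⟨b⟩)] at e3
    linarith
  obtain ⟨z', hz1, hz2⟩ := T.lp _ _ hdb
  have hz3' := hz1.mono (h9 _ _ hdb)
  have hz4' := hz2.mono (h9 _ _ hdb)
  have hv1 : As T.g (⟨br a b0⟩ : LX H) (T.g^[n] z') := by
    have := (as_of_frel T le_rfl hz3').iter n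
    rwa [eq_iter_symm_iter] at this
  have hv2 : As T.g.symm (T.g^[n] z') (⟨b⟩ : LX H) := by
    apply as_of_shift n
    rw [eq_symm_iter_iter]
    exact asU_of_frel T le_rfl hz4'
  have hv3 : (T.g^[n] z').val = br a b := by
    apply h3
    · have h4 : As G (br a b0) (T.g^[n] z').val := by
        have h5 := hv1
        rw [hTg] at h5 ⊢
        exact as_of_lx H h5
      exact (h1 a b0).trans h4
    · have h4 : As G.symm (T.g^[n] z').val b := by
        have h5 := hv2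
        rw [hTg'] at h5
        exact as_of_lx H h5
      exact h4.symm
  have hX2 : dist (br a b) (br a b0) < ε / 2 := by
    have h4 := T.contrS _ _ hz3' n
    rw [eq_iter_symm_iter] at h4
    have h5 : dist (⟨br a b⟩ : LX H) ⟨br a b0⟩ < ε' := by
      have h6 : (⟨br a b⟩ : LX H) = T.g^[n] z' := LX.ext hv3.symm
      rw [h6, dist_comm]
      refine lt_of_le_of_lt (h4.trans ?_) hn4
      exact mul_le_mul_of_nonneg_left hz3'.dist_le (by positivity)
    exact hsm _ _ h5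
  have := dist_triangle (br a b) (br a b0) w0
  linarith

/-- uniform contraction of compact families of stable paths -/
theorem unif_contr (T : CSys (LX H)) (hTg : T.g = lmap H G) (hTρ : T.εs < ρ)
    (hU : ∀ x y, As G x y → As G.symm x y → x = y) (Hc : C(I × I, X))
    (hH : ∀ s t, As G (Hc (0, t)) (Hc (s, t))) (ε : ℝ) (hε : 0 < ε) :
    ∀ᶠ n : ℕ in atTop, ∀ s t, dist (T.g^[n] (⟨Hc (0, t)⟩ : LX H)) (T.g^[n] ⟨Hc (s, t)⟩) < ε := by
  have hδ0 := T.δ_pos
  have hδρ : T.δ < ρ := lt_of_le_of_lt T.δ_le_εs hTρ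
  have hα0 := T.α_pos
  obtain ⟨s0, hs0, hsT⟩ := lx_near H hδ0 hδρ
  have huc := CompactSpace.uniformContinuous_of_continuous Hc.continuous
  rw [Metric.uniformContinuous_iff] at huc
  obtain ⟨η, hη, huc⟩ := huc s0 hs0
  obtain ⟨m, hm⟩ := exists_nat_one_div_lt hη
  have hm0 : (0 : ℝ) < (m : ℝ) + 1 := by positivity
  have tα : Tendsto (fun n : ℕ => ((m : ℝ) + 1) * (T.α ^ n * T.εs)) atTop (𝓝 0) := by
    have := ((tendsto_pow_atTop_nhds_zero_of_lt_one hα0
      (by linarith [T.α_le] : T.α < 1)).mul_const T.εs).const_mul ((m : ℝ) + 1)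
    simpa using this
  filter_upwards [(tendsto_order.mp tα).2 ε hε] with n hn s t
  refine lt_of_le_of_lt ?_ hn
  let sg : ℕ → I := fun i => ⟨min ((i : ℝ) / (m + 1)) s, le_min (by positivity) s.2.1,
    (min_le_right _ _).trans s.2.2⟩
  have hσ : ∀ i, dist (sg i, t) (sg (i + 1), t) < η := by
    intro i
    rw [Prod.dist_eq, dist_self, max_lt_iff]
    refine ⟨?_, hη⟩
    refine lt_of_le_of_lt ?_ hm
    show |min ((i : ℝ) / (m + 1)) (s : ℝ) - min (((i + 1 : ℕ) : ℝ) / (m + 1)) s| ≤ _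
    have h1 : (((i + 1 : ℕ) : ℝ) / (m + 1)) = (i : ℝ) / (m + 1) + 1 / (m + 1) := by
      push_cast; ring
    rw [h1]
    have h2 : (0 : ℝ) < 1 / (m + 1) := by positivity
    rw [abs_le]
    constructor
    · rcases le_total ((i : ℝ) / (m + 1)) (s : ℝ) with h | h
      · rw [min_eq_left h]
        have := min_le_left ((i : ℝ) / (m + 1) + 1 / (m + 1)) (s : ℝ)
        linarith
      · rw [min_eq_right h]
        have := min_le_right ((i : ℝ) / (m + 1) + 1 / (m + 1)) (s : ℝ)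
        linarith
    · have h3 : min ((i : ℝ) / (m + 1)) (s : ℝ) ≤ min ((i : ℝ) / (m + 1) + 1 / (m + 1)) (s : ℝ) :=
        min_le_min_right _ (by linarith)
      linarith
  have hσ0 : sg 0 = 0 := by
    apply Subtype.ext
    show min (((0 : ℕ) : ℝ) / (m + 1)) (s : ℝ) = 0
    rw [Nat.cast_zero, zero_div]
    exact min_eq_left s.2.1
  have hσm : sg (m + 1) = s := by
    apply Subtype.ext
    show min (((m + 1 : ℕ) : ℝ) / (m + 1)) (s : ℝ) = s
    push_cast
    rw [div_self hm0.ne']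
    exact min_eq_right s.2.2
  have key : ∀ i : ℕ, dist (T.g^[n] (⟨Hc (0, t)⟩ : LX H)) (T.g^[n] ⟨Hc (sg i, t)⟩) ≤
      i * (T.α ^ n * T.εs) := by
    intro i
    induction i with
    | zero => rw [hσ0]; simp
    | succ i ih =>
      have h1 : As G (Hc (sg i, t)) (Hc (sg (i + 1), t)) := (hH _ t).symm.trans (hH _ t)
      have h2 := hsT _ _ (huc (hσ i))
      have h3 := locS T hTg hU h1 (h2.trans (by linarith))
      have h4 := (T.contrS _ _ h3 n).trans
        (mul_le_mul_of_nonneg_left h3.dist_le (by positivity : 0 ≤ T.α ^ n))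
      have h5 := dist_triangle (T.g^[n] (⟨Hc (0, t)⟩ : LX H)) (T.g^[n] ⟨Hc (sg i, t)⟩)
        (T.g^[n] ⟨Hc (sg (i + 1), t)⟩)
      push_cast
      linarith
  have h1 := key (m + 1)
  rw [hσm] at h1
  push_cast at h1
  exact h1

end br

/-- lifts of stable paths -/
theorem as_lift (H : Sheets P r ρ) {g : M ≃ M} {G : X ≃ X} (hG : ∀ x, P (G x) = g (P x))
    (hcG : Continuous G) (γ : I → M)
    (hst : ∀ ε > 0, ∀ᶠ n : ℕ in atTop, ∀ t, dist (g^[n] (γ 0)) (g^[n] (γ t)) < ε)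
    (γ' : C(I, X)) (hl : ∀ t, P (γ' t) = γ t) (t : I) : As G (γ' 0) (γ' t) := by
  refine tendsto_order.mpr ⟨fun c hc => Eventually.of_forall fun n => lt_of_lt_of_le hc dist_nonneg,
    fun ε hε => ?_⟩
  obtain ⟨ε3, hε3, hun⟩ := H.unif ε hε
  have hr := H.r_pos
  filter_upwards [hst (min ε3 ρ) (lt_min hε3 H.ρ_pos)] with n hn
  have hM : ∀ t, dist (P (G^[n] (γ' 0))) (P (G^[n] (γ' t))) < min ε3 ρ := by
    intro t
    rw [proj_iter hG, proj_iter hG, hl, hl]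
    exact hn t
  have hcont : Continuous (fun t => dist (G^[n] (γ' 0)) (G^[n] (γ' t))) :=
    continuous_const.dist ((hcG.iterate n).comp γ'.continuous)
  have hlt : ∀ t, dist (G^[n] (γ' 0)) (G^[n] (γ' t)) < r / 2 := by
    by_contra h
    push Not at h
    obtain ⟨t1, ht1⟩ := h
    have hiv := isPreconnected_univ.intermediate_value (mem_univ (0 : I)) (mem_univ t1)
      hcont.continuousOn
    have hmem : r / 2 ∈ Icc (dist (G^[n] (γ' 0)) (G^[n] (γ' 0)))
        (dist (G^[n] (γ' 0)) (G^[n] (γ' t1))) := by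
      rw [dist_self]
      exact ⟨by positivity, ht1⟩
    obtain ⟨t2, -, ht2⟩ := hiv hmem
    have ht2' : dist (G^[n] (γ' 0)) (G^[n] (γ' t2)) = r / 2 := ht2
    have := H.gap _ _ (by rw [ht2']; linarith) (lt_of_lt_of_le (hM t2) (min_le_right _ _))
    linarith
  exact hun _ _ (by linarith [hlt t]) (lt_of_lt_of_le (hM t) (min_le_left _ _))

/-- iterates: uniform smallness for a homeomorphism from its power -/
theorem unif_of_power [CompactSpace M] {ι : Type*} (f : M ≃ₜ M) {N : ℕ} (hN : 1 ≤ N)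
    (a b : ι → M)
    (h : ∀ ε > 0, ∀ᶠ n : ℕ in atTop, ∀ i, dist ((iterHomeo f N)^[n] (a i))
      ((iterHomeo f N)^[n] (b i)) < ε) (ε : ℝ) (hε : 0 < ε) :
    ∀ᶠ n : ℕ in atTop, ∀ i, dist (f^[n] (a i)) (f^[n] (b i)) < ε := by
  obtain ⟨η, hη, h1⟩ := Pool.Agent.H789R2.GP.T1_unif f N hε
  obtain ⟨n0, hn0⟩ := eventually_atTop.mp (h η hη)
  refine eventually_atTop.mpr ⟨N * n0, fun n hn i => ?_⟩
  have h2 := Nat.mod_add_div n N
  have h3 : n0 ≤ n / N := by
    rw [Nat.le_div_iff_mul_le (by omega)]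
    rwa [mul_comm]
  have h4 := hn0 (n / N) h3 i
  have h5 := h1 (n % N) (Nat.mod_lt _ (by omega)).le _ _ h4
  have e : ∀ x : M, (iterHomeo f N)^[n / N] x = f^[N * (n / N)] x := by
    intro x
    rw [Function.iterate_mul]; rfl
  rw [e, e, ← Function.iterate_add_apply, ← Function.iterate_add_apply, h2] at h5
  exact h5

theorem unif_power {ι : Type*} (f : M ≃ₜ M) {N : ℕ} (hN : 1 ≤ N) (a b : ι → M)
    (h : ∀ ε > 0, ∀ᶠ n : ℕ in atTop, ∀ i, dist (f^[n] (a i)) (f^[n] (b i)) < ε)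
    (ε : ℝ) (hε : 0 < ε) : ∀ᶠ n : ℕ in atTop, ∀ i, dist ((iterHomeo f N)^[n] (a i))
      ((iterHomeo f N)^[n] (b i)) < ε := by
  obtain ⟨n0, hn0⟩ := eventually_atTop.mp (h ε hε)
  refine eventually_atTop.mpr ⟨n0, fun n hn i => ?_⟩
  have e : ∀ x : M, (iterHomeo f N)^[n] x = f^[N * n] x := by
    intro x
    rw [Function.iterate_mul]; rfl
  rw [e, e]
  exact hn0 _ (hn.trans (Nat.le_mul_of_pos_left n hN)) i

/-- **Global product structure in the sense of rectangles.** -/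
theorem gps_of_global [CompactSpace M] (S : HypSys M E) (H : Sheets P r ρ) {G : X ≃ X}
    (hG : ∀ x, P (G x) = S.g (P x)) (hu : UCont G) (hu' : UCont G.symm)
    (hP : IsCoveringMap P) (hs : Function.Surjective P) {f : M ≃ₜ M} {N : ℕ} (hN : 1 ≤ N)
    (hg : S.g = iterHomeo f N) (hex : ∀ x y, ∃ w, As G x w ∧ As G.symm y w)
    (hU : ∀ x y, As G x y → As G.symm x y → x = y) : GPS f := by
  obtain ⟨T, hTg, -, -, hTρ, -⟩ := exists_lift S H hG hu hu' 0 1 one_pos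
  choose br hbr using hex
  have h1 : ∀ a b, As G a (br a b) := fun a b => (hbr a b).1
  have h2 : ∀ a b, As G.symm b (br a b) := fun a b => (hbr a b).2
  have h3 : ∀ a b w, As G a w → As G.symm b w → w = br a b := fun a b w hw1 hw2 =>
    hU _ _ (hw1.symm.trans (h1 a b)) (hw2.symm.trans (h2 a b))
  have hbc := br_cont T hTg hTρ hu hu' br h1 h2 h3
  have hcG : Continuous G := by
    rw [Metric.continuous_iff]
    intro a ε hε
    obtain ⟨δ, hδ, h⟩ := hu ε hε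
    exact ⟨δ, hδ, fun y hy => h _ _ hy⟩
  have hcG' : Continuous G.symm := by
    rw [Metric.continuous_iff]
    intro a ε hε
    obtain ⟨δ, hδ, h⟩ := hu' ε hε
    exact ⟨δ, hδ, fun y hy => h _ _ hy⟩
  have hG1 : ∀ x, P (G x) = S.g.toEquiv (P x) := hG
  have hG2 : ∀ x, P (G.symm x) = S.g.toEquiv.symm (P x) := proj_symm hG1
  intro α β hα hβ h0
  obtain ⟨x0, hx0⟩ := hs (α 0)
  obtain ⟨α', hα'1, hα'0⟩ := hP.exists_path_lifts α x0 hx0.symm
  obtain ⟨β', hβ'1, hβ'0⟩ := hP.exists_path_lifts β x0 (by rw [hx0]; exact h0.symm)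
  have hα'2 : ∀ t, P (α' t) = α t := fun t => congrFun hα'1 t
  have hβ'2 : ∀ t, P (β' t) = β t := fun t => congrFun hβ'1 t
  have conv : ∀ (f : M ≃ₜ M) (γ : C(I, M)), StablePath f γ →
      ∀ ε > 0, ∀ᶠ n : ℕ in atTop, ∀ t, dist (f^[n] (γ 0)) (f^[n] (γ t)) < ε := by
    intro f γ h ε hε
    have h4 : {p : M × M | dist p.1 p.2 < ε} ∈ 𝓝ˢ (diagonal M) := by
      rw [nhdsSet_diagonal_eq_uniformity]
      exact Metric.dist_mem_uniformity hε
    exact h _ h4
  have asα : ∀ s, As G (α' 0) (α' s) := by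
    apply as_lift H hG1 hcG α _ α' hα'2
    intro ε hε
    have h5 := unif_power f hN (fun _ : I => α 0) (fun t => α t) (conv f α hα) ε hε
    rw [← hg] at h5
    exact h5
  have asβ : ∀ t, As G.symm (β' 0) (β' t) := by
    apply as_lift H hG2 hcG' β _ β' hβ'2
    intro ε hε
    have h5 := unif_power f.symm hN (fun _ : I => β 0) (fun t => β t) (conv f.symm β hβ) ε hε
    have h6 : S.g.symm = iterHomeo f.symm N := by rw [hg]; rfl
    rw [← h6] at h5
    exact h5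
  have h00 : α' 0 = β' 0 := by rw [hα'0, hβ'0]
  let Hc : C(I × I, X) := ⟨fun p => br (β' p.2) (α' p.1),
    hbc.comp ((β'.continuous.comp continuous_snd).prodMk (α'.continuous.comp continuous_fst))⟩
  have hHs : ∀ s t, As G (Hc (0, t)) (Hc (s, t)) := fun s t =>
    (h1 (β' t) (α' 0)).symm.trans (h1 (β' t) (α' s))
  have hHu : ∀ s t, As G.symm (Hc (s, 0)) (Hc (s, t)) := fun s t =>
    (h2 (β' 0) (α' s)).symm.trans (h2 (β' t) (α' s))
  have e1 : ∀ s, Hc (s, 0) = α' s := by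
    intro s
    refine (h3 _ _ _ ?_ (As.refl _ _)).symm
    rw [← h00]; exact asα s
  have e2 : ∀ t, Hc (0, t) = β' t := by
    intro t
    refine (h3 _ _ _ (As.refl _ _) ?_).symm
    show As G.symm (α' 0) (β' t)
    rw [h00]; exact asβ t
  refine ⟨⟨fun p => P (Hc p), hP.continuous.comp Hc.continuous⟩, fun s => ?_, fun t => ?_, ?_⟩
  · show P (Hc (s, 0)) = α s
    rw [e1, hα'2]
  · show P (Hc (0, t)) = β t
    rw [e2, hβ'2]
  · intro 𝒰 h𝒰
    rw [nhdsSet_diagonal_eq_uniformity] at h𝒰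
    obtain ⟨ε, hε, hεU⟩ := Metric.mem_uniformity_dist.mp h𝒰
    -- horizontal
    have A1 : ∀ ε > 0, ∀ᶠ n : ℕ in atTop, ∀ p : I × I,
        dist (S.g^[n] (P (Hc (0, p.2)))) (S.g^[n] (P (Hc p))) < ε := by
      intro ε hε
      obtain ⟨ε', hε', hpr⟩ := lx_proj H hε
      filter_upwards [unif_contr T hTg hTρ hU Hc hHs ε' hε'] with n hn p
      have h4 := hpr _ _ (hn p.1 p.2)
      rw [hTg, lmap_iter, lmap_iter, proj_iter hG1, proj_iter hG1] at h4
      exact h4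
    have A2 : ∀ ε > 0, ∀ᶠ n : ℕ in atTop, ∀ p : I × I,
        dist (S.g.symm^[n] (P (Hc (p.1, 0)))) (S.g.symm^[n] (P (Hc p))) < ε := by
      intro ε hε
      obtain ⟨ε', hε', hpr⟩ := lx_proj H hε
      have hTg' : T.symm.g = lmap H G.symm := by
        show T.g.symm = _
        rw [hTg]; rfl
      have hU' : ∀ x y, As G.symm x y → As G.symm.symm x y → x = y := fun x y h h' => hU x y h' h
      let Hc' : C(I × I, X) := Hc.comp ⟨Prod.swap, continuous_swap⟩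
      have hH' : ∀ s t, As G.symm (Hc' (0, t)) (Hc' (s, t)) := fun s t => hHu t s
      filter_upwards [unif_contr T.symm hTg' hTρ hU' Hc' hH' ε' hε'] with n hn p
      have h4 := hpr _ _ (hn p.2 p.1)
      rw [hTg', lmap_iter, lmap_iter, proj_iter hG2, proj_iter hG2] at h4
      exact h4
    rw [hg] at A1
    have A2' : ∀ ε > 0, ∀ᶠ n : ℕ in atTop, ∀ p : I × I,
        dist ((iterHomeo f.symm N)^[n] (P (Hc (p.1, 0)))) ((iterHomeo f.symm N)^[n] (P (Hc p)))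
          < ε := by
      have h6 : S.g.symm = iterHomeo f.symm N := by rw [hg]; rfl
      rw [← h6]
      exact A2
    have B1 := unif_of_power f hN (fun p : I × I => P (Hc (0, p.2))) (fun p => P (Hc p)) A1 ε hε
    have B2 := unif_of_power f.symm hN (fun p : I × I => P (Hc (p.1, 0))) (fun p => P (Hc p)) A2'
      ε hε
    filter_upwards [B1, B2] with n hn1 hn2 s t
    exact ⟨hεU (hn1 (s, t)), hεU (hn2 (s, t))⟩

end Pool.Agent.H223.CE
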