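import Pool.Agent.H223.CE.Eng

set_option autoImplicit false
set_option linter.unusedSectionVars false

namespace Pool.Agent.H223.CE

open Pool.Agent.H721R2 Pool.Agent.H721R2.CSys Filter Topology

variable {M X : Type*} [MetricSpace M] [MetricSpace X]

/-- The sheets of the covering `P`, at a uniform scale. -/
structure Sheets (P : X → M) (r ρ : ℝ) : Prop where
  r_pos : 0 < r
  ρ_pos : 0 < ρ
  inj : ∀ x y, dist x y < r → P x = P y → x = y
  lift : ∀ x m, dist (P x) m < ρ → ∃ y, P y = m ∧ dist x y < r / 2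
  gap : ∀ x y, dist x y < r → dist (P x) (P y) < ρ → dist x y < r / 2
  unif : ∀ η > 0, ∃ ε > 0, ∀ x y, dist x y < r → dist (P x) (P y) < ε → dist x y < η
  cont : ∀ ε > 0, ∃ η > 0, ∀ x y, dist x y < η → dist (P x) (P y) < ε

/-- The space `X` with another metric. -/
@[ext]
structure LX {P : X → M} {r ρ : ℝ} (H : Sheets P r ρ) where
  val : X

variable {P : X → M} {r ρ : ℝ} (H : Sheets P r ρ)

open Classical in
/-- the new distance -/
noncomputable def ndist (P : X → M) (r ρ : ℝ) (x y : X) : ℝ :=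
  if dist x y < r then min (dist (P x) (P y)) ρ else ρ

theorem ndist_of_lt {x y : X} (h : dist x y < r) : ndist P r ρ x y = min (dist (P x) (P y)) ρ :=
  if_pos h

theorem ndist_of_ge {x y : X} (h : ¬ dist x y < r) : ndist P r ρ x y = ρ := if_neg h

theorem ndist_le (x y : X) : ndist P r ρ x y ≤ ρ := by
  unfold ndist
  split_ifs
  · exact min_le_right _ _
  · exact le_rfl

include H in
theorem ndist_nonneg (x y : X) : 0 ≤ ndist P r ρ x y := by
  unfold ndist
  split_ifs
  · exact le_min dist_nonneg H.ρ_pos.le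
  · exact H.ρ_pos.le

theorem ndist_le_iff {ε : ℝ} (hε : ε < ρ) {x y : X} :
    ndist P r ρ x y ≤ ε ↔ dist x y < r ∧ dist (P x) (P y) ≤ ε := by
  unfold ndist
  split_ifs with h
  · rw [min_le_iff]
    constructor
    · rintro (h1 | h1)
      · exact ⟨h, h1⟩
      · linarith
    · rintro ⟨-, h1⟩; exact Or.inl h1
  · constructor
    · intro h1; linarith
    · rintro ⟨h1, -⟩; exact absurd h1 h

theorem ndist_eq {x y : X} (h : dist x y < r) (h' : dist (P x) (P y) ≤ ρ) :
    ndist P r ρ x y = dist (P x) (P y) := by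
  rw [ndist_of_lt h, min_eq_left h']

noncomputable instance : MetricSpace (LX H) where
  dist a b := ndist P r ρ a.val b.val
  dist_self a := by
    show ndist P r ρ a.val a.val = 0
    rw [ndist_of_lt (by rw [dist_self]; exact H.r_pos), dist_self, min_eq_left H.ρ_pos.le]
  dist_comm a b := by
    show ndist P r ρ a.val b.val = ndist P r ρ b.val a.val
    unfold ndist
    rw [dist_comm a.val b.val, dist_comm (P a.val)]
  dist_triangle a b c := by
    show ndist P r ρ a.val c.val ≤ ndist P r ρ a.val b.val + ndist P r ρ b.val c.val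
    have h0 := ndist_nonneg H a.val b.val
    have h1 := ndist_nonneg H b.val c.val
    have h2 := ndist_le (P := P) (r := r) (ρ := ρ) a.val c.val
    by_cases hab : ndist P r ρ a.val b.val < ρ
    · by_cases hbc : ndist P r ρ b.val c.val < ρ
      · obtain ⟨d1, e1⟩ := (ndist_le_iff hab).mp le_rfl
        obtain ⟨d2, e2⟩ := (ndist_le_iff hbc).mp le_rfl
        have g1 := H.gap _ _ d1 (lt_of_le_of_lt e1 hab)
        have g2 := H.gap _ _ d2 (lt_of_le_of_lt e2 hbc)
        have g3 : dist a.val c.val < r := by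
          have := dist_triangle a.val b.val c.val
          linarith
        rw [ndist_of_lt g3]
        have := dist_triangle (P a.val) (P b.val) (P c.val)
        exact (min_le_left _ _).trans (by linarith)
      · push Not at hbc; linarith
    · push Not at hab; linarith
  eq_of_dist_eq_zero {a b} h := by
    have h' : ndist P r ρ a.val b.val = 0 := h
    obtain ⟨d1, e1⟩ := (ndist_le_iff H.ρ_pos).mp h'.le
    exact LX.ext (H.inj _ _ d1 (dist_le_zero.mp e1))

theorem lx_dist (a b : LX H) : dist a b = ndist P r ρ a.val b.val := rfl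

/-- the map on `LX` -/
def lmap (G : X ≃ X) : LX H ≃ LX H where
  toFun a := ⟨G a.val⟩
  invFun a := ⟨G.symm a.val⟩
  left_inv a := LX.ext (G.symm_apply_apply a.val)
  right_inv a := LX.ext (G.apply_symm_apply a.val)

theorem lmap_symm (G : X ≃ X) : (lmap H G).symm = lmap H G.symm := rfl

theorem lmap_iter (G : X ≃ X) (n : ℕ) (a : LX H) : ((lmap H G)^[n] a).val = G^[n] a.val := by
  induction n generalizing a with
  | zero => rfl
  | succ n ih => rw [Function.iterate_succ_apply, Function.iterate_succ_apply, ih]; rfl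

theorem proj_iter {g : M ≃ M} {G : X ≃ X} (hG : ∀ x, P (G x) = g (P x)) (n : ℕ) (x : X) :
    P (G^[n] x) = g^[n] (P x) := by
  induction n generalizing x with
  | zero => rfl
  | succ n ih => rw [Function.iterate_succ_apply, Function.iterate_succ_apply, ih, hG]

theorem proj_symm {g : M ≃ M} {G : X ≃ X} (hG : ∀ x, P (G x) = g (P x)) (x : X) :
    P (G.symm x) = g.symm (P x) := by
  apply g.injective
  rw [← hG, Equiv.apply_symm_apply, Equiv.apply_symm_apply]

/-- lifting and projecting relations -/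
theorem frel_iff {g : M ≃ M} {G : X ≃ X} (hG : ∀ x, P (G x) = g (P x)) {e ε : ℝ} (he : e < ρ)
    (hε : ε ≤ e) (hp : ∀ x y, dist x y < r → dist (P x) (P y) ≤ e → dist (G x) (G y) < r)
    (a b : LX H) :
    FRel (lmap H G) ε a b ↔ dist a.val b.val < r ∧ FRel g ε (P a.val) (P b.val) := by
  constructor
  · intro h
    refine ⟨((ndist_le_iff (lt_of_le_of_lt hε he)).mp (h 0)).1, fun k => ?_⟩
    have h1 : ndist P r ρ ((lmap H G)^[k] a).val ((lmap H G)^[k] b).val ≤ ε := h k
    rw [lmap_iter, lmap_iter] at h1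
    have h2 := ((ndist_le_iff (lt_of_le_of_lt hε he)).mp h1).2
    rwa [proj_iter hG, proj_iter hG] at h2
  · rintro ⟨h0, h1⟩ k
    show ndist P r ρ ((lmap H G)^[k] a).val ((lmap H G)^[k] b).val ≤ ε
    rw [lmap_iter, lmap_iter, ndist_le_iff (lt_of_le_of_lt hε he), proj_iter hG, proj_iter hG]
    refine ⟨?_, h1 k⟩
    induction k with
    | zero => exact h0
    | succ k ih =>
      rw [Function.iterate_succ_apply', Function.iterate_succ_apply']
      apply hp _ _ ih
      rw [proj_iter hG, proj_iter hG]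
      exact (h1 k).trans hε

/-- Lifting a chain. -/
theorem lift_chain {g : M ≃ M} {G : X ≃ X} (hG : ∀ x, P (G x) = g (P x)) {e δ : ℝ} (he : e < ρ)
    (hδ : δ ≤ e) (hp : ∀ x y, dist x y < r → dist (P x) (P y) ≤ e → dist (G x) (G y) < r)
    {ms : ℕ} (hms : (ms : ℝ) * δ ≤ e) (hδ0 : 0 ≤ δ) (a b : LX H) (hab : dist a.val b.val < r)
    (h : Chain (FRel g δ) ms (P a.val) (P b.val)) : Chain (FRel (lmap H G) δ) ms a b := by
  obtain ⟨c, h0, h1, h2⟩ := h
  have h3 : ∀ i ≤ ms, dist (P a.val) (c i) ≤ e := by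
    intro i hi
    have h4 := frel_chain h2 i hi 0
    rw [h0] at h4
    refine h4.trans ((mul_le_mul_of_nonneg_right ?_ hδ0).trans hms)
    exact_mod_cast hi
  have h5 : ∀ i, ∃ y : X, i ≤ ms → P y = c i ∧ dist a.val y < r / 2 := by
    intro i
    by_cases hi : i ≤ ms
    · obtain ⟨y, hy⟩ := H.lift a.val (c i) (lt_of_le_of_lt (h3 i hi) he)
      exact ⟨y, fun _ => hy⟩
    · exact ⟨a.val, fun h => absurd h hi⟩
  choose y hy using h5
  have hr := H.r_pos
  refine ⟨fun i => ⟨y i⟩, ?_, ?_, fun i hi => ?_⟩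
  · refine LX.ext (H.inj _ _ ?_ ?_)
    · show dist (y 0) a.val < r
      rw [dist_comm]
      linarith [(hy 0 (Nat.zero_le _)).2]
    · show P (y 0) = P a.val
      rw [(hy 0 (Nat.zero_le _)).1, h0]
  · have hg := H.gap _ _ hab (by
      have := h3 ms le_rfl
      rw [h1] at this
      exact lt_of_le_of_lt this he)
    refine LX.ext (H.inj _ _ ?_ ?_)
    · show dist (y ms) b.val < r
      have h6 := (hy ms le_rfl).2
      have h7 := dist_triangle (y ms) a.val b.val
      rw [dist_comm (y ms) a.val] at h7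
      linarith
    · show P (y ms) = P b.val
      rw [(hy ms le_rfl).1, h1]
  · rw [frel_iff H hG he hδ hp]
    refine ⟨?_, ?_⟩
    · show dist (y i) (y (i + 1)) < r
      have h6 := (hy i hi.le).2
      have h6' := (hy (i + 1) hi).2
      have h7 := dist_triangle (y i) a.val (y (i + 1))
      rw [dist_comm (y i) a.val] at h7
      linarith
    · show FRel g δ (P (y i)) (P (y (i + 1)))
      rw [(hy i hi.le).1, (hy (i + 1) hi).1]
      exact h2 i hi

/-- The lifted chain system. -/
theorem lift_csys (T : CSys M) (G : X ≃ X) (hG : ∀ x, P (G x) = T.g (P x))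
    (he : T.εs < ρ) (hms : (T.ms : ℝ) * T.δ ≤ T.εs) (hmu : (T.mu : ℝ) * T.δ ≤ T.εs)
    (hp : ∀ x y, dist x y < r → dist (P x) (P y) ≤ T.εs → dist (G x) (G y) < r)
    (hp' : ∀ x y, dist x y < r → dist (P x) (P y) ≤ T.εs → dist (G.symm x) (G.symm y) < r) :
    ∃ T' : CSys (LX H), T'.g = lmap H G ∧ T'.K = T.K ∧ T'.δ = T.δ ∧ T'.εs = T.εs ∧
      T'.ms = T.ms ∧ T'.mu = T.mu := by
  have hG' := proj_symm (P := P) hG
  have hδ0 := T.δ_pos
  have hδε := T.δ_le_εs
  have hKδ := T.Kδ_pos
  have h36 := T.e36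
  have hK := T.one_le_K
  have hr := H.r_pos
  refine ⟨{
    g := lmap H G
    K := T.K
    δ := T.δ
    α := T.α
    β := T.β
    εs := T.εs
    ms := T.ms
    mu := T.mu
    one_le_K := T.one_le_K
    δ_pos := T.δ_pos
    α_pos := T.α_pos
    β_pos := T.β_pos
    α_le := T.α_le
    β_le := T.β_le
    hδ := T.hδ
    contrS := ?_
    contrU := ?_
    lp := ?_
    subS := ?_
    subU := ?_ }, rfl, rfl, rfl, rfl, rfl, rfl⟩
  · intro a b h k
    obtain ⟨h0, h1⟩ := (frel_iff H hG he le_rfl hp a b).mp h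
    have h2 := (frel_iff H hG he le_rfl hp _ _).mp (h.iter k)
    rw [lx_dist, lx_dist, ndist_eq h2.1 (h2.2.dist_le.trans he.le),
      ndist_eq h0 (h1.dist_le.trans he.le), lmap_iter, lmap_iter, proj_iter hG, proj_iter hG]
    exact T.contrS _ _ h1 k
  · intro a b h k
    rw [lmap_symm] at h ⊢
    obtain ⟨h0, h1⟩ := (frel_iff H hG' he le_rfl hp' a b).mp h
    have h2 := (frel_iff H hG' he le_rfl hp' _ _).mp (h.iter k)
    rw [lx_dist, lx_dist, ndist_eq h2.1 (h2.2.dist_le.trans he.le),
      ndist_eq h0 (h1.dist_le.trans he.le), lmap_iter, lmap_iter, proj_iter hG', proj_iter hG']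
    exact T.contrU _ _ h1 k
  · intro a b h
    have h2δ : 2 * T.δ < ρ := by linarith
    rw [lx_dist] at h ⊢
    obtain ⟨h0, h1⟩ := (ndist_le_iff h2δ).mp h
    have hg := H.gap _ _ h0 (lt_of_le_of_lt h1 h2δ)
    rw [ndist_eq h0 (h1.trans h2δ.le)]
    obtain ⟨z, hz1, hz2⟩ := T.lp _ _ h1
    have h5 : 9 * T.K * dist (P a.val) (P b.val) ≤ T.εs := by
      have : 9 * T.K * dist (P a.val) (P b.val) ≤ 9 * T.K * (2 * T.δ) :=
        mul_le_mul_of_nonneg_left h1 (by positivity)
      linarith
    obtain ⟨y, hy1, hy2⟩ := H.lift a.val z (lt_of_le_of_lt (hz1.dist_le.trans h5) he)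
    refine ⟨⟨y⟩, ?_, ?_⟩
    · rw [frel_iff H hG he h5 hp]
      refine ⟨?_, ?_⟩
      · show dist a.val y < r
        linarith
      · show FRel _ _ (P a.val) (P y)
        rw [hy1]; exact hz1
    · rw [lmap_symm, frel_iff H hG' he h5 hp']
      refine ⟨?_, ?_⟩
      · show dist y b.val < r
        have := dist_triangle y a.val b.val
        rw [dist_comm y a.val] at this
        linarith
      · show FRel _ _ (P y) (P b.val)
        rw [hy1]; exact hz2
  · intro a b h
    obtain ⟨h0, h1⟩ := (frel_iff H hG he hδε hp a b).mp h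
    apply lift_chain H hG he hδε hp hms hδ0.le
    · show dist (G.symm a.val) (G.symm b.val) < r
      exact hp' _ _ h0 (h1.dist_le.trans hδε)
    · show Chain _ _ (P (G.symm a.val)) (P (G.symm b.val))
      rw [hG', hG']
      exact T.subS _ _ h1
  · intro a b h
    obtain ⟨h0, h1⟩ := (frel_iff H hG' he hδε hp' a b).mp h
    apply lift_chain H hG' he hδε hp' hmu hδ0.le
    · show dist (G a.val) (G b.val) < r
      exact hp _ _ h0 (h1.dist_le.trans hδε)
    · show Chain _ _ (P (G a.val)) (P (G b.val))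
      rw [hG, hG]
      exact T.subU _ _ h1

/-- asymptotic in `LX` implies asymptotic in `X` -/
theorem as_of_lx {G : X ≃ X} {a b : LX H} (h : As (lmap H G) a b) : As G a.val b.val := by
  refine tendsto_order.mpr ⟨fun c hc => Eventually.of_forall fun n => lt_of_lt_of_le hc dist_nonneg,
    fun η hη => ?_⟩
  obtain ⟨ε, hε, h1⟩ := H.unif η hη
  have h2 : 0 < min ε ρ := lt_min hε H.ρ_pos
  filter_upwards [(tendsto_order.mp h).2 _ h2] with n hn
  rw [lx_dist, lmap_iter, lmap_iter] at hn
  have h3 := (ndist_le_iff (lt_of_lt_of_le hn (min_le_right _ _))).mp le_rfl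
  exact h1 _ _ h3.1 (lt_of_le_of_lt h3.2 (lt_of_lt_of_le hn (min_le_left _ _)))

theorem lx_of_as {G : X ≃ X} {a b : LX H} (h : As G a.val b.val) : As (lmap H G) a b := by
  refine tendsto_order.mpr ⟨fun c hc => Eventually.of_forall fun n => lt_of_lt_of_le hc dist_nonneg,
    fun ε hε => ?_⟩
  obtain ⟨η, hη, h1⟩ := H.cont ε hε
  have h2 : 0 < min η r := lt_min hη H.r_pos
  filter_upwards [(tendsto_order.mp h).2 _ h2] with n hn
  rw [lx_dist, lmap_iter, lmap_iter, ndist_of_lt (lt_of_lt_of_le hn (min_le_right _ _))]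
  exact lt_of_le_of_lt (min_le_left _ _) (h1 _ _ (lt_of_lt_of_le hn (min_le_left _ _)))

end Pool.Agent.H223.CE
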