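import Pool.Agent.H223.CE.Bp

set_option autoImplicit false
set_option linter.unusedSectionVars false

namespace Pool.Agent.H223.CE

open Pool.Agent.H721R2 Pool.Agent.H721R2.CSys Pool.Agent.H789R2.AN Filter Topology Set

variable {M X Γ E : Type*} [MetricSpace M] [CompactSpace M] [MetricSpace X] [ProperSpace X]
  [NormedAddCommGroup E] [NormedSpace ℝ E]
  [Group Γ] [MulAction Γ X] [IsIsometricSMul Γ X] {P : X → M} {r ρ : ℝ}

/-- **If each lift of each iterate has at most one fixed point, bounded pieces of unstable leaves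
are uniformly contracted by the backward iterates.** -/
theorem bp_of_nfix (S : HypSys M E) (H : Sheets P r ρ) {G : X ≃ X}
    (hG : ∀ x, P (G x) = S.g (P x)) (hu : UCont G) (hu' : UCont G.symm)
    (hPΓ : ∀ (γ : Γ) (x : X), P (γ • x) = P x)
    (hn1 : ∀ (γ : Γ) (n : ℕ) (x y : X),
      dist (G^[n] (γ • x)) (G^[n] (γ • y)) = dist (G^[n] x) (G^[n] y))
    (hn2 : ∀ (γ : Γ) (n : ℕ) (x y : X),
      dist (G.symm^[n] (γ • x)) (G.symm^[n] (γ • y)) = dist (G.symm^[n] x) (G.symm^[n] y))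
    {K : Set X} (hK : IsCompact K) (hKΓ : ∀ x, ∃ γ : Γ, γ • x ∈ K) (hN : NFix Γ G)
    {R : ℝ} (hE : LExp G 1 R) : BPieces G := by
  obtain ⟨T, hTg, -, -, hTρ, -⟩ := exists_lift S H hG hu hu' 0 1 one_pos
  have hTg' : T.g.symm = lmap H G.symm := by rw [hTg]; rfl
  have hδ0 := T.δ_pos
  have hδε := T.δ_le_εs
  have hr := H.r_pos
  have hδρ : T.δ < ρ := lt_of_le_of_lt hδε hTρ
  have hG1 : ∀ x, P (G x) = S.g.toEquiv (P x) := hG
  obtain ⟨η, hη, hc⟩ := H.cont (T.δ / 4) (by linarith)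
  set s0 := min η r with hs0d
  have hs0 : 0 < s0 := lt_min hη hr
  have hs0T : ∀ x y : X, dist x y < s0 → dist (⟨x⟩ : LX H) ⟨y⟩ ≤ T.δ / 4 := by
    intro a b hab
    rw [lx_dist, ndist_le_iff (by linarith)]
    exact ⟨lt_of_lt_of_le hab (min_le_right _ _), (hc _ _ (lt_of_lt_of_le hab (min_le_left _ _))).le⟩
  by_contra hcon
  unfold BPieces at hcon
  push Not at hcon
  obtain ⟨r', ε', hε', hbad⟩ := hcon (s0 / 2) (half_pos hs0)
  choose k c hc1 hc2 l hl hfar using hbad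
  have hstepX : ∀ m, ∀ i < k m, FRel T.g.symm (T.δ / 4) (⟨c m i⟩ : LX H) ⟨c m (i + 1)⟩ := by
    intro m i hi j
    rw [hTg', lx_dist, lmap_iter, lmap_iter, ← lx_dist H ⟨_⟩ ⟨_⟩]
    exact hs0T _ _ (lt_of_le_of_lt (hc1 m i hi j) (by linarith))
  have hasy : ∀ m, ∀ i ≤ k m, As G.symm (c m 0) (c m i) := by
    intro m i hi
    have h1 := as_chain (g := T.g.symm) (c := fun i => (⟨c m i⟩ : LX H)) (k := k m)
      (fun i hi => asU_of_frel T (by linarith : T.δ / 4 ≤ T.εs) (hstepX m i hi)) i hi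
    rw [hTg'] at h1
    exact as_of_lx H h1
  have hup : ∀ (m : ℕ) (z : X), T.g^[l m] (⟨G.symm^[l m] z⟩ : LX H) = ⟨z⟩ := by
    intro m z
    rw [hTg]
    apply LX.ext
    rw [lmap_iter, eq_iter_symm_iter]
  obtain ⟨x, c', h1, h2, h3⟩ := exists_limit (Γ := Γ) (g := S.g.toEquiv) H hG1 hu hu' T hTg hTρ hPΓ hn1 hn2 hK hKΓ hs0
    hs0T (B := max R r') (ε2 := min ε' s0) (min_le_right _ _) k l
    (fun m i => G.symm^[l m] (c m i)) hl (by
      intro m i hi
      rw [hup, hup]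
      exact hstepX m i hi) (by
      intro m
      exact (min_le_left _ _).trans (hfar m).le) (by
      intro m i hi n hn
      rw [iter_symm_iter_of_le' _ _ _ hn, iter_symm_iter_of_le' _ _ _ hn]
      exact back_bound hE (hasy m i hi) (le_max_left _ _) ((hc2 m i hi).trans (le_max_right _ _)) _)
  have hε2 : 0 < min ε' s0 := lt_min hε' hs0
  have hiter : ∀ n : ℕ, ∃ δ > 0, ∀ k ≤ n, ∀ x y, dist x y < δ → dist (G^[k] x) (G^[k] y) < s0 :=
    fun n => hu.iters n s0 hs0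
  choose τ hτ hτ' using hiter
  obtain ⟨n, t, ⟨ht, ht0⟩, t', ⟨ht', ht0'⟩, hne, hclose⟩ := exists_pair hε2 x c' h1
    (fun n => {t | ∀ j ≥ n, dist (T.g^[j] (⟨x⟩ : LX H)) (T.g^[j] ⟨c' t⟩) ≤ T.δ / 2}) (by
      intro t ht
      have h4 := as_of_bounded S H hG hu hPΓ hK hKΓ hN (h3 t ht)
      have h5 : As (lmap H G) (⟨x⟩ : LX H) ⟨c' t⟩ := lx_of_as H h4
      rw [← hTg] at h5
      obtain ⟨n, hn⟩ := eventually_atTop.mp ((tendsto_order.mp h5).2 (T.δ / 2) (by linarith))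
      exact mem_iUnion.mpr ⟨n, fun j hj => (hn j hj).le⟩) τ hτ
  apply hne
  have h6 : (⟨c' t⟩ : LX H) = ⟨c' t'⟩ := by
    apply csys_expansive T
    · intro j
      rcases Nat.lt_or_ge j n with h | h
      · have h7 := hτ' n j h.le _ _ hclose
        have h8 := hs0T _ _ h7
        rw [hTg, lx_dist, lmap_iter, lmap_iter, ← lx_dist H ⟨_⟩ ⟨_⟩]
        linarith
      · have h7 := ht j h
        have h8 := ht' j h
        have h9 := dist_triangle_left (T.g^[j] (⟨c' t⟩ : LX H)) (T.g^[j] ⟨c' t'⟩) (T.g^[j] ⟨x⟩)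
        linarith
    · exact ((h2 t ht0).symm.trans (h2 t' ht0')).mono (by linarith)
  have h7 : c' t = c' t' := congrArg LX.val h6
  rw [← h1 t ht0, ← h1 t' ht0', h7]

end Pool.Agent.H223.CE
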