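import Pool.Agent.H223.CE.Shadow2
import Pool.Agent.H223.CE.Nf

set_option autoImplicit false
set_option linter.unusedSectionVars false

namespace Pool.Agent.H223.CE

open Pool.Agent.H721R2 Pool.Agent.H721R2.CSys Pool.Agent.H789R2.AN Filter Topology Set

theorem as_of_shift {X : Type*} [MetricSpace X] {g : X → X} {x y : X} (m : ℕ)
    (h : As g (g^[m] x) (g^[m] y)) : As g x y := by
  unfold As at *
  rw [← tendsto_add_atTop_iff_nat m]
  refine h.congr fun n => ?_
  rw [Function.iterate_add_apply, Function.iterate_add_apply]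

/-- a large set of inequivalent elements -/
theorem exists_inequiv {α : Type*} {T : Set α} (hT : ¬ T.Countable) (R : α → α → Prop)
    (hR : ∀ t, {t' ∈ T | R t t'}.Countable) (n : ℕ) :
    ∃ s : Finset α, s.card = n ∧ (∀ t ∈ s, t ∈ T) ∧
      ∀ t ∈ s, ∀ t' ∈ s, t ≠ t' → ¬ R t t' ∨ ¬ R t' t := by
  classical
  induction n with
  | zero => exact ⟨∅, by simp, by simp, by simp⟩
  | succ n ih =>
    obtain ⟨s, hs, hsT, hsR⟩ := ih
    have h1 : ((⋃ t ∈ s, {t' ∈ T | R t t'}) ∪ (s : Set α)).Countable :=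
      (s.countable_toSet.biUnion fun t _ => hR t).union s.countable_toSet
    have h2 : ∃ t' ∈ T, t' ∉ (⋃ t ∈ s, {t' ∈ T | R t t'}) ∪ (s : Set α) := by
      by_contra h
      push Not at h
      exact hT (h1.mono h)
    obtain ⟨t', ht', hn⟩ := h2
    simp only [mem_union, mem_iUnion, not_or, not_exists, Finset.mem_coe, Set.mem_ofPred_eq, not_and]
      at hn
    refine ⟨insert t' s, by rw [Finset.card_insert_of_notMem hn.2, hs], ?_, ?_⟩
    · intro t ht
      rcases Finset.mem_insert.mp ht with h | h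
      · rw [h]; exact ht'
      · exact hsT t h
    · intro a ha b hb hab
      rcases Finset.mem_insert.mp ha with h | h
      · rcases Finset.mem_insert.mp hb with h' | h'
        · exact absurd (h.trans h'.symm) hab
        · right
          rw [h]
          exact hn.1 b h' ht'
      · rcases Finset.mem_insert.mp hb with h' | h'
        · left
          rw [h']
          exact hn.1 a h ht'
        · exact hsR a h b h' hab

/-- close points of an infinite family -/
theorem exists_close {X : Type*} [MetricSpace X] [ProperSpace X] {ε2 : ℝ} (x : X)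
    (c : ℝ → X) (hc : ∀ t ∈ Ioo 0 ε2, dist x (c t) = t) (A : Set ℝ)
    (hA : (A ∩ Ioo 0 ε2).Infinite) (τ : ℝ) (hτ : 0 < τ) :
    ∃ t ∈ A ∩ Ioo 0 ε2, ∃ t' ∈ A ∩ Ioo 0 ε2, t ≠ t' ∧ dist (c t) (c t') < τ := by
  obtain ⟨s, -, hs, hcov⟩ := (isCompact_closedBall x ε2).finite_cover_balls (half_pos hτ)
  have hex : ∀ t, ∃ z : X, t ∈ Ioo 0 ε2 → z ∈ s ∧ dist (c t) z < τ / 2 := by
    intro t
    by_cases ht : t ∈ Ioo 0 ε2
    · have h2 : c t ∈ Metric.closedBall x ε2 := by
        rw [Metric.mem_closedBall, dist_comm, hc t ht]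
        exact ht.2.le
      have h3 := hcov h2
      simp only [mem_iUnion, Metric.mem_ball, exists_prop] at h3
      obtain ⟨z, hz, hz'⟩ := h3
      exact ⟨z, fun _ => ⟨hz, hz'⟩⟩
    · exact ⟨x, fun h => absurd h ht⟩
  choose z hz using hex
  obtain ⟨t, ht, t', ht', hne, heq⟩ := hA.exists_ne_map_eq_of_mapsTo (f := z) (t := s)
    (fun t ht => (hz t ht.2).1) hs
  refine ⟨t, ht, t', ht', hne, ?_⟩
  have h2 := (hz t ht.2).2
  have h3 := (hz t' ht'.2).2
  rw [← heq] at h3
  have := dist_triangle_right (c t) (c t') (z t)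
  linarith

variable {M X Γ E : Type*} [MetricSpace M] [CompactSpace M] [MetricSpace X] [ProperSpace X]
  [NormedAddCommGroup E] [NormedSpace ℝ E]
  [Group Γ] [MulAction Γ X] [IsIsometricSMul Γ X] {P : X → M} {r ρ : ℝ}

/-- **Forward bounded pairs are asymptotic or separated.** -/
theorem as_or_sep (S : HypSys M E) (H : Sheets P r ρ) {G : X ≃ X}
    (hG : ∀ x, P (G x) = S.g (P x)) (hu : UCont G) (hu' : UCont G.symm)
    (hPΓ : ∀ (γ : Γ) (x : X), P (γ • x) = P x)
    {K : Set X} (hK : IsCompact K) (hKΓ : ∀ x, ∃ γ : Γ, γ • x ∈ K) (hN : NWeak Γ G) :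
    ∃ c > 0, ∀ (x y : X) (B : ℝ), (∀ n : ℕ, dist (G^[n] x) (G^[n] y) ≤ B) →
      As G x y ∨ ∃ n0, ∀ n ≥ n0, c ≤ dist (G^[n] x) (G^[n] y) := by
  obtain ⟨T, hTg, -, -, hTρ, -⟩ := exists_lift S H hG hu hu' 0 1 one_pos
  have hδ0 := T.δ_pos
  have hδε := T.δ_le_εs
  have hr := H.r_pos
  obtain ⟨η, hη, hc⟩ := H.cont T.δ hδ0
  set s0 := min η r with hs0d
  have hs0 : 0 < s0 := lt_min hη hr
  have hδρ : T.δ < ρ := lt_of_le_of_lt hδε hTρ
  have hs0T : ∀ x y : X, dist x y < s0 → dist (⟨x⟩ : LX H) ⟨y⟩ ≤ T.δ := by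
    intro a b hab
    rw [lx_dist, ndist_le_iff hδρ]
    exact ⟨lt_of_lt_of_le hab (min_le_right _ _), (hc _ _ (lt_of_lt_of_le hab (min_le_left _ _))).le⟩
  obtain ⟨δ, hδ, hhs⟩ := horseshoe S H hG hu hPΓ (s0 / 2) (half_pos hs0)
  obtain ⟨ηG, hηG, hGc⟩ := hu (δ / 2) (half_pos hδ)
  refine ⟨min ηG (δ / 4), lt_min hηG (by positivity), fun x y B hB => ?_⟩
  by_contra hcon
  push Not at hcon
  obtain ⟨hnas, hclose⟩ := hcon
  have hfar : ∀ n0 : ℕ, ∃ n ≥ n0, s0 ≤ dist (G^[n] x) (G^[n] y) := by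
    by_contra h
    push Not at h
    obtain ⟨n0, hn0⟩ := h
    apply hnas
    apply as_of_shift n0
    have h1 : FRel T.g T.δ (⟨G^[n0] x⟩ : LX H) ⟨G^[n0] y⟩ := by
      intro k
      rw [hTg, lx_dist, lmap_iter, lmap_iter, ← lx_dist H ⟨_⟩ ⟨_⟩]
      apply hs0T
      show dist (G^[k] (G^[n0] x)) (G^[k] (G^[n0] y)) < s0
      rw [← Function.iterate_add_apply, ← Function.iterate_add_apply]
      exact hn0 _ (by omega)
    have h2 := as_of_frel T hδε h1
    rw [hTg] at h2
    exact as_of_lx H h2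
  choose φ1 hφ1 hφ1' using hfar
  choose φ2 hφ2 hφ2' using hclose
  -- close times with far times in between
  obtain ⟨t, htc, htf⟩ : ∃ t : ℕ → ℕ, (∀ i, dist (G^[t i] x) (G^[t i] y) < min ηG (δ / 4)) ∧
      ∀ i, ∃ n, t i < n ∧ n < t (i + 1) ∧ s0 ≤ dist (G^[n] x) (G^[n] y) := by
    refine ⟨fun i => Nat.rec (φ2 0) (fun _ m => φ2 (φ1 (m + 1) + 1)) i, ?_, ?_⟩
    · intro i
      cases i with
      | zero => exact hφ2' 0
      | succ i => exact hφ2' _
    · intro i
      refine ⟨φ1 ((Nat.rec (φ2 0) (fun _ m => φ2 (φ1 (m + 1) + 1)) i : ℕ) + 1), ?_, ?_, hφ1' _⟩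
      · exact lt_of_lt_of_le (Nat.lt_succ_self _) (hφ1 _)
      · exact lt_of_lt_of_le (Nat.lt_succ_self _) (hφ2 _)
  have ht : StrictMono t := strictMono_nat_of_lt_succ fun i => by
    obtain ⟨n, h1, h2, -⟩ := htf i
    exact h1.trans h2
  choose γ hγ using hKΓ
  let w : ℕ → X × X := fun i => (γ (G^[t i] x) • G^[t i] x, γ (G^[t i] x) • G^[t i] y)
  have hw : ∀ i, w i ∈ K ×ˢ Metric.cthickening B K := by
    intro i
    refine ⟨hγ _, Metric.mem_cthickening_of_dist_le _ (γ (G^[t i] x) • G^[t i] x) _ _ (hγ _) ?_⟩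
    show dist (γ (G^[t i] x) • G^[t i] y) (γ (G^[t i] x) • G^[t i] x) ≤ B
    rw [dist_smul, dist_comm]
    exact hB _
  obtain ⟨a, -, φ, hφ, hlim⟩ := (hK.prod hK.cthickening).tendsto_subseq hw
  have hcs := hlim.cauchySeq
  rw [Metric.cauchySeq_iff] at hcs
  obtain ⟨n0, hn0⟩ := hcs (δ / 4) (by positivity)
  have h2 := hn0 n0 le_rfl (n0 + 1) (by omega)
  set i := φ n0 with hi
  set j := φ (n0 + 1) with hj
  have hij' : i < j := hφ (by omega)
  obtain ⟨n, hn1, hn2, hn3⟩ := htf i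
  have hn4 : n < t j := lt_of_lt_of_le hn2 (ht.monotone hij')
  obtain ⟨k, hk⟩ := Nat.exists_eq_add_of_lt (hn1.trans hn4)
  have hk' : t j = (k + 1) + t i := by omega
  set g1 := γ (G^[t i] x) with hg1
  set g2 := γ (G^[t j] x) with hg2
  have h3 : dist (g1 • G^[t i] x) (g2 • G^[t j] x) < δ / 4 := lt_of_le_of_lt (le_max_left _ _) h2
  have h4 : dist (g1 • G^[t i] y) (g2 • G^[t j] y) < δ / 4 := lt_of_le_of_lt (le_max_right _ _) h2
  have conv : ∀ z : X, dist (g1 • G^[t i] z) (g2 • G^[t j] z) < δ / 4 →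
      dist (G^[k + 1] (G^[t i] z)) ((g2⁻¹ * g1) • G^[t i] z) < δ / 4 := by
    intro z hz
    rw [← dist_smul g2, mul_smul, smul_inv_smul, dist_comm, ← Function.iterate_add_apply, ← hk']
    exact hz
  have c1 := conv x h3
  have c2 := conv y h4
  have hxy0 := htc i
  set γ0 := g2⁻¹ * g1 with hγ0
  set x0 := G^[t i] x with hx0
  set y0 := G^[t i] y with hy0
  -- the blocks
  obtain ⟨Kn, hKn1, hKn2⟩ := hN (k + 1) (by omega) γ0
  have hbig := hhs (k + 1) γ0 x0 (fun a i => if i = 0 then x0 else if i = k + 1 then γ0 • x0 else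
    G^[i] (if a then y0 else x0)) (by omega) (fun a => by simp) (fun a => by simp) (by
      intro a i hi
      rcases Nat.eq_zero_or_pos i with h | h
      · subst h
        have hk2 : (0 + 1 : ℕ) ≠ k + 1 := by
          intro h'
          omega
        simp only [if_true, hk2, if_false]
        rw [if_neg (by omega), Function.iterate_one]
        cases a
        · simp [hδ]
        · simp only [if_true]
          have := hGc x0 y0 (lt_of_lt_of_le hxy0 (min_le_left _ _))
          linarith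
      · have h1 : i ≠ 0 := by omega
        have h2 : i ≠ k + 1 := by omega
        have h3 : i + 1 ≠ 0 := by omega
        simp only [h1, h2, h3, if_false]
        rw [← Function.iterate_succ_apply' G]
        by_cases h4 : i + 1 = k + 1
        · rw [if_pos h4, Nat.succ_eq_add_one, h4]
          cases a
          · show dist (G^[k + 1] x0) (γ0 • x0) < δ
            linarith
          · show dist (G^[k + 1] y0) (γ0 • x0) < δ
            have h5 := dist_triangle (G^[k + 1] y0) (γ0 • y0) (γ0 • x0)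
            rw [dist_smul, dist_comm y0 x0] at h5
            have h6 := lt_of_lt_of_le hxy0 (min_le_right _ _)
            linarith
        · rw [if_neg h4, dist_self]
          exact hδ) ⟨n - t i, by omega, by
      have h1 : n - t i ≠ 0 := by omega
      have h2 : n - t i ≠ k + 1 := by omega
      simp only [h1, h2, if_false]
      show 2 * (s0 / 2) ≤ dist (G^[n - t i] x0) (G^[n - t i] y0)
      rw [hx0, hy0, ← Function.iterate_add_apply, ← Function.iterate_add_apply,
        Nat.sub_add_cancel hn1.le]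
      linarith⟩ Kn hKn1
  exact absurd hKn2 (not_lt.mpr hbig)

/-- **Fewer than `2 ^ K` fixed points imply that bounded pieces of unstable leaves are uniformly
contracted by the backward iterates.** -/
theorem bp_of_nweak (S : HypSys M E) (H : Sheets P r ρ) {G : X ≃ X}
    (hG : ∀ x, P (G x) = S.g (P x)) (hu : UCont G) (hu' : UCont G.symm)
    (hPΓ : ∀ (γ : Γ) (x : X), P (γ • x) = P x)
    (hn1 : ∀ (γ : Γ) (n : ℕ) (x y : X),
      dist (G^[n] (γ • x)) (G^[n] (γ • y)) = dist (G^[n] x) (G^[n] y))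
    (hn2 : ∀ (γ : Γ) (n : ℕ) (x y : X),
      dist (G.symm^[n] (γ • x)) (G.symm^[n] (γ • y)) = dist (G.symm^[n] x) (G.symm^[n] y))
    {K : Set X} (hK : IsCompact K) (hKΓ : ∀ x, ∃ γ : Γ, γ • x ∈ K) (hN : NWeak Γ G)
    (hBG : BGeom X) {R : ℝ} (hE : LExp G 1 R) : BPieces G := by
  classical
  obtain ⟨T, hTg, -, -, hTρ, -⟩ := exists_lift S H hG hu hu' 0 1 one_pos
  have hTg' : T.g.symm = lmap H G.symm := by rw [hTg]; rfl
  have hδ0 := T.δ_pos
  have hδε := T.δ_le_εs
  have hr := H.r_pos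
  have hδρ : T.δ < ρ := lt_of_le_of_lt hδε hTρ
  have hG1 : ∀ x, P (G x) = S.g.toEquiv (P x) := hG
  obtain ⟨η, hη, hc⟩ := H.cont (T.δ / 4) (by linarith)
  set s0 := min η r with hs0d
  have hs0 : 0 < s0 := lt_min hη hr
  have hs0T : ∀ x y : X, dist x y < s0 → dist (⟨x⟩ : LX H) ⟨y⟩ ≤ T.δ / 4 := by
    intro a b hab
    rw [lx_dist, ndist_le_iff (by linarith)]
    exact ⟨lt_of_lt_of_le hab (min_le_right _ _), (hc _ _ (lt_of_lt_of_le hab (min_le_left _ _))).le⟩
  by_contra hcon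
  unfold BPieces at hcon
  push Not at hcon
  obtain ⟨r', ε', hε', hbad⟩ := hcon (s0 / 2) (half_pos hs0)
  choose k c hc1 hc2 l hl hfar using hbad
  have hstepX : ∀ m, ∀ i < k m, FRel T.g.symm (T.δ / 4) (⟨c m i⟩ : LX H) ⟨c m (i + 1)⟩ := by
    intro m i hi j
    rw [hTg', lx_dist, lmap_iter, lmap_iter, ← lx_dist H ⟨_⟩ ⟨_⟩]
    exact hs0T _ _ (lt_of_le_of_lt (hc1 m i hi j) (by linarith))
  have hasy : ∀ m, ∀ i ≤ k m, As G.symm (c m 0) (c m i) := by
    intro m i hi
    have h1 := as_chain (g := T.g.symm) (c := fun i => (⟨c m i⟩ : LX H)) (k := k m)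
      (fun i hi => asU_of_frel T (by linarith : T.δ / 4 ≤ T.εs) (hstepX m i hi)) i hi
    rw [hTg'] at h1
    exact as_of_lx H h1
  have hup : ∀ (m : ℕ) (z : X), T.g^[l m] (⟨G.symm^[l m] z⟩ : LX H) = ⟨z⟩ := by
    intro m z
    rw [hTg]
    apply LX.ext
    rw [lmap_iter, eq_iter_symm_iter]
  set B := max R r' with hBd
  obtain ⟨x, c', h1, h2, h3⟩ := exists_limit (Γ := Γ) (g := S.g.toEquiv) H hG1 hu hu' T hTg hTρ
    hPΓ hn1 hn2 hK hKΓ hs0
    hs0T (B := B) (ε2 := min ε' s0) (min_le_right _ _) k l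
    (fun m i => G.symm^[l m] (c m i)) hl (by
      intro m i hi
      rw [hup, hup]
      exact hstepX m i hi) (by
      intro m
      exact (min_le_left _ _).trans (hfar m).le) (by
      intro m i hi n hn
      rw [iter_symm_iter_of_le' _ _ _ hn, iter_symm_iter_of_le' _ _ _ hn]
      exact back_bound hE (hasy m i hi) (le_max_left _ _) ((hc2 m i hi).trans (le_max_right _ _)) _)
  have hε2 : 0 < min ε' s0 := lt_min hε' hs0
  have hiter : ∀ n : ℕ, ∃ δ > 0, ∀ k ≤ n, ∀ x y, dist x y < δ → dist (G^[k] x) (G^[k] y) < s0 :=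
    fun n => hu.iters n s0 hs0
  choose τ hτ hτ' using hiter
  -- the classes are countable
  have hclass : ∀ z : X, {t ∈ Ioo 0 (min ε' s0) | As G z (c' t)}.Countable := by
    intro z
    have hsub : {t ∈ Ioo 0 (min ε' s0) | As G z (c' t)} ⊆ ⋃ n : ℕ,
        ({t | ∀ j ≥ n, dist (T.g^[j] (⟨z⟩ : LX H)) (T.g^[j] ⟨c' t⟩) ≤ T.δ / 2} ∩
          Ioo 0 (min ε' s0)) := by
      rintro t ⟨ht, h4⟩
      have h5 : As (lmap H G) (⟨z⟩ : LX H) ⟨c' t⟩ := lx_of_as H h4
      rw [← hTg] at h5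
      obtain ⟨n, hn⟩ := eventually_atTop.mp ((tendsto_order.mp h5).2 (T.δ / 2) (by linarith))
      exact mem_iUnion.mpr ⟨n, fun j hj => (hn j hj).le, ht⟩
    refine Set.Countable.mono hsub (countable_iUnion fun n => ?_)
    apply Set.Finite.countable
    by_contra hinf
    obtain ⟨t, ⟨ht, ht0⟩, t', ⟨ht', ht0'⟩, hne, hclose⟩ := exists_close x c' h1 _ hinf (τ n) (hτ n)
    apply hne
    have h6 : (⟨c' t⟩ : LX H) = ⟨c' t'⟩ := by
      apply csys_expansive T
      · intro j
        rcases Nat.lt_or_ge j n with h | h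
        · have h7 := hτ' n j h.le _ _ hclose
          have h8 := hs0T _ _ h7
          rw [hTg, lx_dist, lmap_iter, lmap_iter, ← lx_dist H ⟨_⟩ ⟨_⟩]
          linarith
        · have h7 := ht j h
          have h8 := ht' j h
          have h9 := dist_triangle_left (T.g^[j] (⟨c' t⟩ : LX H)) (T.g^[j] ⟨c' t'⟩) (T.g^[j] ⟨z⟩)
          linarith
      · exact ((h2 t ht0).symm.trans (h2 t' ht0')).mono (by linarith)
    have h7 : c' t = c' t' := congrArg LX.val h6
    rw [← h1 t ht0, ← h1 t' ht0', h7]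
  have hunc : ¬ (Ioo 0 (min ε' s0)).Countable := by
    intro h
    have h4 := h.measure_zero MeasureTheory.volume
    rw [Real.volume_Ioo, ENNReal.ofReal_eq_zero] at h4
    linarith
  obtain ⟨cs, hcs, hdich⟩ := as_or_sep S H hG hu hu' hPΓ hK hKΓ hN
  obtain ⟨Q, hQ⟩ := hBG B (cs / 2) (half_pos hcs)
  obtain ⟨s, hs, hsT, hsR⟩ := exists_inequiv hunc (fun t t' => As G (c' t) (c' t'))
    (fun t => hclass (c' t)) (Q + 1)
  have hpair : ∀ t ∈ s, ∀ t' ∈ s, t ≠ t' → ∃ n0, ∀ n ≥ n0,
      cs ≤ dist (G^[n] (c' t)) (G^[n] (c' t')) := by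
    intro t ht t' ht' hne
    rcases hdich (c' t) (c' t') (B + B) (fun n => by
      have h4 := h3 t (hsT t ht) n
      have h5 := h3 t' (hsT t' ht') n
      have h6 := dist_triangle_left (G^[n] (c' t)) (G^[n] (c' t')) (G^[n] x)
      linarith) with h | h
    · rcases hsR t ht t' ht' hne with h' | h'
      · exact absurd h h'
      · exact absurd h.symm h'
    · exact h
  -- a common time
  have hcommon : ∃ n, ∀ t ∈ s, ∀ t' ∈ s, t ≠ t' → cs ≤ dist (G^[n] (c' t)) (G^[n] (c' t')) := by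
    have hex : ∀ p : ℝ × ℝ, ∃ n0, p.1 ∈ s → p.2 ∈ s → p.1 ≠ p.2 → ∀ n ≥ n0,
        cs ≤ dist (G^[n] (c' p.1)) (G^[n] (c' p.2)) := by
      rintro ⟨t, t'⟩
      by_cases h : t ∈ s ∧ t' ∈ s ∧ t ≠ t'
      · obtain ⟨n0, hn0⟩ := hpair t h.1 t' h.2.1 h.2.2
        exact ⟨n0, fun _ _ _ => hn0⟩
      · exact ⟨0, fun h1 h2 h3 => absurd ⟨h1, h2, h3⟩ h⟩
    choose nn hnn using hex
    refine ⟨(s ×ˢ s).sup nn, fun t ht t' ht' hne => hnn (t, t') ht ht' hne _ ?_⟩
    exact Finset.le_sup (f := nn) (Finset.mem_product.mpr ⟨ht, ht'⟩)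
  obtain ⟨n, hn⟩ := hcommon
  obtain ⟨q, hq, hcov⟩ := hQ (G^[n] x)
  have hz : ∀ t, ∃ z, t ∈ s → z ∈ q ∧ dist z (G^[n] (c' t)) < cs / 2 := by
    intro t
    by_cases ht : t ∈ s
    · obtain ⟨z, hz⟩ := hcov (G^[n] (c' t)) (h3 t (hsT t ht) n)
      exact ⟨z, fun _ => hz⟩
    · exact ⟨x, fun h => absurd h ht⟩
  choose z hz using hz
  obtain ⟨t, ht, t', ht', hne, heq⟩ := Finset.exists_ne_map_eq_of_card_lt_of_maps_to
    (s := s) (t := q) (by omega) (f := z) (fun t ht => (hz t ht).1)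
  have h4 := hn t ht t' ht' hne
  have h5 := (hz t ht).2
  have h6 := (hz t' ht').2
  rw [← heq] at h6
  have h7 := dist_triangle_left (G^[n] (c' t)) (G^[n] (c' t')) (z t)
  linarith

/-- Uniqueness of the intersections from transitivity. -/
theorem uniq_of_nweak (S : HypSys M E) (H : Sheets P r ρ) {G : X ≃ X}
    (hG : ∀ x, P (G x) = S.g (P x)) (hu : UCont G)
    (hΓ : ∀ x y, P x = P y ↔ ∃ γ : Γ, γ • x = y)
    (hN : NWeak Γ G) (htr : ∀ U V : Set M, IsOpen U → U.Nonempty → IsOpen V → V.Nonempty →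
      ∃ n : ℕ, (S.g^[n] '' U ∩ V).Nonempty) (x y : X) (h1 : As G x y) (h2 : As G.symm x y) :
    x = y := by
  have hPΓ : ∀ (γ : Γ) (x : X), P (γ • x) = P x := fun γ x => ((hΓ x (γ • x)).mpr ⟨γ, rfl⟩).symm
  have hr := H.r_pos
  have hρ := H.ρ_pos
  have hG1 : ∀ x, P (G x) = S.g.toEquiv (P x) := hG
  by_contra hxy
  have hd : 0 < dist x y := dist_pos.mpr hxy
  obtain ⟨δ, hδ, hcl⟩ := horseshoe S H hG hu hPΓ (dist x y / 2) (half_pos hd)
  obtain ⟨ηG, hηG, hGc⟩ := hu δ hδ
  obtain ⟨ε3, hε3, hun⟩ := H.unif (δ / 2) (half_pos hδ)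
  have hm3 : 0 < min ε3 ρ := lt_min hε3 hρ
  have hmd : 0 < min (δ / 2) ηG := lt_min (half_pos hδ) hηG
  obtain ⟨n1, hn1⟩ := eventually_atTop.mp (((tendsto_order.mp h1).2 _ hmd).and
    ((tendsto_order.mp h2).2 _ hmd))
  obtain ⟨n, hn⟩ : ∃ n, n = n1 + 1 := ⟨_, rfl⟩
  have hb1 := (hn1 n (by omega)).1
  have hb2 := (hn1 n (by omega)).2
  -- connecting orbit
  obtain ⟨t, m, ⟨z, hzU, rfl⟩, hzV⟩ := htr (Metric.ball (P (G^[n] x)) (min ε3 ρ))
    (S.g ⁻¹' Metric.ball (P (G.symm^[n] x)) (min ε3 ρ)) Metric.isOpen_ball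
    ⟨_, Metric.mem_ball_self hm3⟩ (Metric.isOpen_ball.preimage S.g.continuous)
    (by
      obtain ⟨w, hw⟩ := S.g.surjective (P (G.symm^[n] x))
      refine ⟨w, ?_⟩
      show S.g w ∈ Metric.ball (P (G.symm^[n] x)) (min ε3 ρ)
      rw [hw]; exact Metric.mem_ball_self hm3)
  have hzV' : S.g^[t + 1] z ∈ Metric.ball (P (G.symm^[n] x)) (min ε3 ρ) := by
    rw [Function.iterate_succ_apply' S.g t z]; exact hzV
  rw [Metric.mem_ball, dist_comm] at hzU
  rw [Metric.mem_ball] at hzV'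
  obtain ⟨z', hz', hdz⟩ := H.lift _ _ (lt_of_lt_of_le hzU (min_le_right _ _))
  have hdz' : dist (G^[n] x) z' < δ / 2 := by
    apply hun _ _ (by linarith)
    rw [hz']
    exact lt_of_lt_of_le hzU (min_le_left _ _)
  have hPz : P (G^[t + 1] z') = S.g^[t + 1] z := by
    rw [proj_iter hG1, hz']; rfl
  obtain ⟨a', ha', hda⟩ := H.lift (G^[t + 1] z') (P (G.symm^[n] x)) (by
    rw [hPz]; exact lt_of_lt_of_le hzV' (min_le_right _ _))
  have hda' : dist (G^[t + 1] z') a' < δ / 2 := by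
    apply hun _ _ (by linarith)
    rw [ha', hPz]
    exact lt_of_lt_of_le hzV' (min_le_left _ _)
  obtain ⟨γ, hγ⟩ := (hΓ (G.symm^[n] x) a').mp ha'.symm
  rw [← hγ] at hda'
  set L := 2 * n + (t + 1) with hL
  obtain ⟨Kn, hKn1, hKn2⟩ := hN L (by omega) γ
  have e0 : ∀ i w, G^[n + i] (G.symm^[n] w) = G^[i] w := by
    intro i w
    rw [Nat.add_comm n i, Function.iterate_add_apply, eq_iter_symm_iter]
  set w : Bool → X := fun a => if a then y else x with hw
  have hw1 : ∀ a, dist (G^[n] (w a)) (G^[n] x) < δ / 2 := by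
    intro a
    cases a
    · show dist (G^[n] x) (G^[n] x) < δ / 2
      rw [dist_self]; linarith
    · show dist (G^[n] y) (G^[n] x) < δ / 2
      rw [dist_comm]; exact lt_of_lt_of_le hb1 (min_le_left _ _)
  have hw2 : ∀ a, dist (G.symm^[n] x) (G.symm^[n] (w a)) < ηG := by
    intro a
    cases a
    · show dist (G.symm^[n] x) (G.symm^[n] x) < ηG
      rw [dist_self]; exact hηG
    · exact lt_of_lt_of_le hb2 (min_le_right _ _)
  have hbig := hcl L γ (G.symm^[n] x)
    (fun a i => if i = 0 then G.symm^[n] x else if i < 2 * n then G^[i] (G.symm^[n] (w a)) else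
        if i < L then G^[i - 2 * n] z' else γ • G.symm^[n] x) (by omega)
    (fun a => by simp) (fun a => by
      have h3 : L ≠ 0 := by omega
      have h4 : ¬ L < 2 * n := by omega
      simp only [h3, h4, if_false, lt_irrefl]) (by
      intro a i hi
      have hG1 : i < 2 * n → dist (G (if i = 0 then G.symm^[n] x else if i < 2 * n then
          G^[i] (G.symm^[n] (w a)) else if i < L then G^[i - 2 * n] z' else γ • G.symm^[n] x))
          (G^[i + 1] (G.symm^[n] (w a))) < δ := by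
        intro h'
        rcases Nat.eq_zero_or_pos i with h | h
        · subst h
          rw [if_pos rfl]
          exact hGc _ _ (hw2 a)
        · rw [if_neg (by omega), if_pos h', ← Function.iterate_succ_apply' G, dist_self]
          exact hδ
      have hG2 : 2 * n ≤ i → dist (G (if i = 0 then G.symm^[n] x else if i < 2 * n then
          G^[i] (G.symm^[n] (w a)) else if i < L then G^[i - 2 * n] z' else γ • G.symm^[n] x))
          (G^[i + 1 - 2 * n] z') < δ := by
        intro h'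
        rw [if_neg (show ¬ i = 0 by omega), if_neg (by omega), if_pos hi,
          ← Function.iterate_succ_apply' G, show (i - 2 * n).succ = i + 1 - 2 * n by omega,
          dist_self]
        exact hδ
      rcases Nat.lt_or_ge (i + 1) (2 * n) with h | h
      · rw [if_neg (show ¬ i + 1 = 0 by omega), if_pos h]
        exact hG1 (by omega)
      · rcases Nat.lt_or_ge i (2 * n) with h' | h'
        · have hi' : i + 1 = 2 * n := by omega
          have hi0 : i ≠ 0 := by omega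
          rw [if_neg hi0, if_pos h', if_neg (show ¬ i + 1 = 0 by omega),
            if_neg (show ¬ i + 1 < 2 * n by omega), if_pos (show i + 1 < L by omega), hi',
            Nat.sub_self, ← Function.iterate_succ_apply' G i, Nat.succ_eq_add_one, hi',
            show 2 * n = n + n by ring, e0]
          show dist (G^[n] (w a)) z' < δ
          have h5 := dist_triangle (G^[n] (w a)) (G^[n] x) z'
          have h6 := hw1 a
          linarith
        · rcases Nat.lt_or_ge (i + 1) L with h'' | h''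
          · rw [if_neg (show ¬ i + 1 = 0 by omega), if_neg (show ¬ i + 1 < 2 * n by omega),
              if_pos h'']
            exact hG2 h'
          · have hi' : i + 1 = L := by omega
            rw [if_neg (show ¬ i = 0 by omega), if_neg (show ¬ i < 2 * n by omega), if_pos hi,
              if_neg (show ¬ i + 1 = 0 by omega), if_neg (show ¬ i + 1 < 2 * n by omega),
              if_neg (show ¬ i + 1 < L by omega),
              ← Function.iterate_succ_apply' G, show (i - 2 * n).succ = t + 1 by omega]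
            linarith) ⟨n, by omega, by
      have h3 : n ≠ 0 := by omega
      have h4 : n < 2 * n := by omega
      simp only [h3, h4, if_false, if_true]
      rw [eq_iter_symm_iter, eq_iter_symm_iter]
      show 2 * (dist x y / 2) ≤ dist x y
      linarith⟩ Kn hKn1
  exact absurd hKn2 (not_lt.mpr hbig)

end Pool.Agent.H223.CE
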