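import Pool.Agent.H223.CE.Tr
import Pool.Agent.H223.CE.Weak
import Pool.Agent.Y330.G.A9

set_option autoImplicit false
set_option linter.unusedSectionVars false

open scoped Manifold ContDiff Topology
open Set Filter

namespace Pool.Agent.H223.CE

open Pool.Agent.H721R2 Pool.Agent.H789R2.AN Pool.Agent.H721R2.CSys

theorem exists_sys_mul {E₀ : Type*} [NormedAddCommGroup E₀] [NormedSpace ℝ E₀]
    [FiniteDimensional ℝ E₀]
    {M : Type*} [MetricSpace M] [CompactSpace M] [ChartedSpace E₀ M] [IsManifold 𝓘(ℝ, E₀) 1 M]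
    {F : Type*} [NormedAddCommGroup F] [NormedSpace ℝ F]
    {e : M → F} (hiso : ∀ x y, dist x y = ‖e x - e y‖)
    (he : ContMDiff 𝓘(ℝ, E₀) 𝓘(ℝ, F) 1 e) (hinj : ∀ x, Function.Injective (dm E₀ e x))
    (f : Diffeomorph 𝓘(ℝ, E₀) 𝓘(ℝ, E₀) M M 1)
    (Es Eu : ∀ x : M, Submodule ℝ (TangentSpace 𝓘(ℝ, E₀) x)) (h : IsAnosov f Es Eu)
    (k : ℕ) (hk : 1 ≤ k) :
    ∃ (n : ℕ) (S : HypSys M F), k ∣ n ∧ 1 ≤ n ∧ S.g = iterHomeo f.toHomeomorph n := by
  obtain ⟨C, a, b, Ls, Lu, hE⟩ := eanosov_of_isAnosov e he hinj f Es Eu h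
  obtain ⟨K, hK, hang⟩ := hE.angle he hinj
  have t1 : Tendsto (fun n : ℕ => K * (C * a ^ n)) atTop (𝓝 0) := by
    have := ((tendsto_pow_atTop_nhds_zero_of_lt_one hE.a_pos.le hE.a_lt).const_mul C).const_mul K
    simpa using this
  have t2 : Tendsto (fun n : ℕ => K * (C * b ^ n)) atTop (𝓝 0) := by
    have := ((tendsto_pow_atTop_nhds_zero_of_lt_one hE.b_pos.le hE.b_lt).const_mul C).const_mul K
    simpa using this
  obtain ⟨N0, hN0⟩ := eventually_atTop.mp (((tendsto_order.mp t1).2 (1 / 16) (by norm_num)).and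
    ((tendsto_order.mp t2).2 (1 / 16) (by norm_num)))
  have hle : N0 ≤ k * (N0 + 1) := by nlinarith
  have hpos : 1 ≤ k * (N0 + 1) := by nlinarith
  obtain ⟨h1, h2⟩ := hN0 (k * (N0 + 1)) hle
  obtain ⟨S, hS⟩ := exists_hypSys' hiso he hinj hE K hK hang (k * (N0 + 1)) h1.le h2.le
  exact ⟨_, S, Dvd.intro _ rfl, hpos, hS.1⟩

section core

variable {M X E : Type*} [MetricSpace M] [CompactSpace M] [MetricSpace X]
  [NormedAddCommGroup E] [NormedSpace ℝ E] {P : X → M} {r ρ : ℝ}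

/-- swap, from the bounded pieces of one of the two foliations -/
theorem swapM_either (S : HypSys M E) (H : Sheets P r ρ)
    (hsurj : Function.Surjective P) {G : X ≃ X}
    (hG : ∀ x, P (G x) = S.g (P x)) (hu : UCont G) (hu' : UCont G.symm)
    {κs κu C : ℝ} (hκ0 : 0 < κs) (hκ : κs < κu) (hU : DomU G 1 κu C) (hS : DomS G 1 κs C)
    (hB : BPieces G ∨ BPieces G.symm) (x y z : M)
    (hxy : WS S.g x y) (hxz : WS S.g.symm x z) : ∃ w, WS S.g.symm y w ∧ WS S.g z w := by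
  rcases hB with hB | hB
  · exact swapM S H hsurj hG hu hu' hκ0.le hκ hU hS hB x y z hxy hxz
  · have hκu : 0 < κu := hκ0.trans hκ
    have hG' : ∀ x, P (G.symm x) = S.symm.g (P x) := proj_symm (P := P) (g := S.g.toEquiv) hG
    have h1 := (domU_symm hκ0 hS).mono (le_max_left (C / κs) (C / κu))
    have h2 := (domS_symm hκu hU).mono (le_max_right (C / κs) (C / κu)) le_rfl
    obtain ⟨w, hw1, hw2⟩ := swapM S.symm H hsurj hG' hu' hu (inv_nonneg.mpr hκu.le)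
      (inv_strictAnti₀ hκ0 hκ) h1 h2 hB x z y hxz hxy
    exact ⟨w, hw2, hw1⟩

theorem globalX_either [PreconnectedSpace X] (S : HypSys M E) (H : Sheets P r ρ)
    {G : X ≃ X} (hG : ∀ x, P (G x) = S.g (P x)) (hu : UCont G) (hu' : UCont G.symm)
    {κs κu C : ℝ} (hκ0 : 0 < κs) (hκ : κs < κu) (hU : DomU G 1 κu C) (hS : DomS G 1 κs C)
    (hB : BPieces G ∨ BPieces G.symm) (x y : X) :
    ∃ w, As G x w ∧ As G.symm y w := by
  rcases hB with hB | hB
  · exact globalX S H hG hu hu' hκ0.le hκ hU hS hB x y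
  · have hκu : 0 < κu := hκ0.trans hκ
    have hG' : ∀ x, P (G.symm x) = S.symm.g (P x) := proj_symm (P := P) (g := S.g.toEquiv) hG
    have h1 := (domU_symm hκ0 hS).mono (le_max_left (C / κs) (C / κu))
    have h2 := (domS_symm hκu hU).mono (le_max_right (C / κs) (C / κu)) le_rfl
    obtain ⟨w, hw1, hw2⟩ := globalX S.symm H hG' hu' hu (inv_nonneg.mpr hκu.le)
      (inv_strictAnti₀ hκ0 hκ) h1 h2 hB y x
    exact ⟨w, hw2, hw1⟩

end core

/-- the fixed points of the powers of the inverse -/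
theorem fix_inv {X : Type*} {φ ψ : X → X} (h1 : Function.LeftInverse φ ψ)
    (h2 : Function.LeftInverse ψ φ) (K : ℕ) : {x | φ^[K] x = x} = {x | ψ^[K] x = x} := by
  ext x
  constructor
  · intro hx
    have hx' : φ^[K] x = x := hx
    show ψ^[K] x = x
    have h3 := h2.iterate K x
    rwa [hx'] at h3
  · intro hx
    have hx' : ψ^[K] x = x := hx
    show φ^[K] x = x
    have h3 := h1.iterate K x
    rwa [hx'] at h3

/-- The exponents. -/
theorem exists_exponent {κs κu : ℝ} (h0 : 0 < κs) (h : κs < κu) :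
    ∃ k : ℕ, 1 ≤ k ∧ ∀ j : ℕ, k ∣ j → 1 ≤ j → κs ^ j < κu ^ j ∧ (3 ≤ κu ^ j ∨ 3 ≤ (κs ^ j)⁻¹) := by
  have hlt : ∀ j : ℕ, 1 ≤ j → κs ^ j < κu ^ j := fun j hj =>
    pow_lt_pow_left₀ h h0.le (by omega)
  rcases lt_or_ge 1 κu with h1 | h1
  · obtain ⟨k, hk⟩ := pow_unbounded_of_one_lt 3 h1
    refine ⟨k + 1, by omega, fun j hj hj1 => ⟨hlt j hj1, Or.inl ?_⟩⟩
    have h2 : k ≤ j := (Nat.le_succ k).trans (Nat.le_of_dvd hj1 hj)
    exact hk.le.trans (pow_le_pow_right₀ h1.le h2)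
  · have h2 : 1 < κs⁻¹ := (one_lt_inv₀ h0).mpr (h.trans_le h1)
    obtain ⟨k, hk⟩ := pow_unbounded_of_one_lt 3 h2
    refine ⟨k + 1, by omega, fun j hj hj1 => ⟨hlt j hj1, Or.inr ?_⟩⟩
    have h3 : k ≤ j := (Nat.le_succ k).trans (Nat.le_of_dvd hj1 hj)
    rw [← inv_pow]
    exact hk.le.trans (pow_le_pow_right₀ h2.le h3)

variable {E : Type*} [NormedAddCommGroup E] [NormedSpace ℝ E] [FiniteDimensional ℝ E]
  {M : Type*} [TopologicalSpace M] [T2Space M] [CompactSpace M] [ConnectedSpace M]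
  [ChartedSpace E M] [IsManifold 𝓘(ℝ, E) ∞ M]
  {X : Type*} [MetricSpace X] [ProperSpace X] [ConnectedSpace X]
  {Γ : Type*} [Group Γ] [MulAction Γ X] [IsIsometricSMul Γ X]

theorem man_core (f : Diffeomorph 𝓘(ℝ, E) 𝓘(ℝ, E) M M 1)
    (Es Eu : ∀ x : M, Submodule ℝ (TangentSpace 𝓘(ℝ, E) x)) (hA : IsAnosov f Es Eu)
    (P : X → M) (hP : IsCoveringMap P) (hs : Function.Surjective P)
    (hΓ : ∀ x y, P x = P y ↔ ∃ γ : Γ, γ • x = y) (F : X ≃ₜ X) (hF : ∀ x, P (F x) = f (P x))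
    (hD : CoarselyDominated F)
    (hU : NWeak Γ F ∨ ∀ x y, Asymp F x y → Asymp F.symm x y → x = y) :
    (TopTransitive f ∧ ∀ x y, ∃! w, Asymp F x w ∧ Asymp F.symm y w) ∧
    (NFix Γ F → ∀ (x y : X) (B : ℝ), (∀ n : ℕ, dist (F^[n] x) (F^[n] y) ≤ B) → Asymp F x y) ∧
    (NFix Γ F → ∀ (x y : X) (B : ℝ), (∀ n : ℕ, dist (F.symm^[n] x) (F.symm^[n] y) ≤ B) →
      Asymp F.symm x y) := by
  obtain ⟨m, e, he, hemb, hinj⟩ := exists_embedding_euclidean_of_compact (I := 𝓘(ℝ, E)) (M := M)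
  let _ : MetricSpace M := hemb.isEmbedding.comapMetricSpace e
  have hiso : ∀ x y : M, dist x y = ‖e x - e y‖ := fun x y => dist_eq_norm (e x) (e y)
  have he1 : ContMDiff 𝓘(ℝ, E) (𝓡 m) 1 e := he.of_le (by simp)
  obtain ⟨n, hn, κs', κu, C₀, hκs', hκ', hDu, hDs⟩ := hD
  -- positive rates
  obtain ⟨κs, hκs, hκ, hDs⟩ : ∃ κs : ℝ, 0 < κs ∧ κs < κu ∧ DomS F.toEquiv n κs C₀ := by
    refine ⟨(κs' + κu) / 2, by linarith, by linarith, ?_⟩
    have h0 : DomS F.toEquiv n κs' C₀ := hDs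
    exact h0.mono le_rfl (by linarith)
  have hDu : DomU F.toEquiv n κu C₀ := hDu
  have hκu : 0 < κu := hκs.trans hκ
  obtain ⟨k0, hk0, hk0'⟩ := exists_exponent hκs hκ
  obtain ⟨N, S, hdvd, hN, hg⟩ := exists_sys_mul hiso he1 hinj f Es Eu hA (n * k0)
    (Nat.mul_pos hn hk0)
  obtain ⟨j0, hj0⟩ : ∃ j, N = n * j := by
    obtain ⟨j, hj⟩ := hdvd
    exact ⟨k0 * j, by rw [hj]; ring⟩
  have hj1 : 1 ≤ j0 := by
    rcases Nat.eq_zero_or_pos j0 with h | h
    · rw [h, mul_zero] at hj0; omega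
    · exact h
  have hj2 : k0 ∣ j0 := by
    rw [hj0] at hdvd
    exact Nat.dvd_of_mul_dvd_mul_left hn hdvd
  obtain ⟨hκj, hκj'⟩ := hk0' j0 hj2 hj1
  obtain ⟨c, hL⟩ := exists_LP S
  obtain ⟨K, hK, hKΓ⟩ := exists_K (Γ := Γ) hP hs hΓ
  obtain ⟨r, ρ, H⟩ := exists_sheets (Γ := Γ) hP hΓ hK hKΓ
  have hF' : ∀ x, P (F.symm x) = f.symm (P x) := by
    intro x
    apply f.injective
    show f (P (F.symm x)) = f (f.symm (P x))
    rw [← hF, Homeomorph.apply_symm_apply]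
    exact (f.apply_symm_apply _).symm
  have hu : UCont F := lift_ucont (Γ := Γ) hP hΓ hK hKΓ (f := f) F.continuous hF
  have hu' : UCont F.symm :=
    lift_ucont (Γ := Γ) hP hΓ hK hKΓ (f := f.symm) F.symm.continuous hF'
  have hno1 : ∀ γ : Γ, ∃ γ' : Γ, ∀ x, F (γ • x) = γ' • F x :=
    lift_normal hP hΓ (f := f) F.continuous hF
  have hno2 : ∀ γ : Γ, ∃ γ' : Γ, ∀ x, F.symm (γ • x) = γ' • F.symm x :=
    lift_normal hP hΓ (f := f.symm) F.symm.continuous hF'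
  have hBG : BGeom X := bgeom (Γ := Γ) hK hKΓ
  set G : X ≃ X := (iterHomeo F N).toEquiv with hGdef
  have hGf : ∀ x, G x = F^[N] x := fun _ => rfl
  have hGi : ∀ (n : ℕ) x, G^[n] x = F^[N * n] x := by
    intro n x
    rw [Function.iterate_mul]; rfl
  have hGsi : ∀ (n : ℕ) x, G.symm^[n] x = F.symm^[N * n] x := by
    intro n x
    rw [Function.iterate_mul]; rfl
  have hG : ∀ x, P (G x) = S.g (P x) := by
    intro x
    have h1 : ∀ (k : ℕ) (x : X), P (F^[k] x) = f^[k] (P x) := by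
      intro k
      induction k with
      | zero => intro x; rfl
      | succ k ih => intro x; rw [Function.iterate_succ_apply, Function.iterate_succ_apply, ih, hF]
    rw [hg, hGf, h1]; rfl
  have huG : UCont G := hu.iter N
  have huG' : UCont G.symm := hu'.iter N
  have as1 : ∀ x y, As G x y → As F x y := fun x y h => as_of_iter hu hN h
  have as2 : ∀ x y, As G.symm x y → As F.symm x y := fun x y h => as_of_iter hu' hN h
  have as1' : ∀ x y, As F x y → As G x y := fun x y h => iter_of_as hN h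
  have as2' : ∀ x y, As F.symm x y → As G.symm x y := fun x y h => iter_of_as hN h
  have hGn1 : ∀ (γ : Γ) (n : ℕ) (x y : X),
      dist (G^[n] (γ • x)) (G^[n] (γ • y)) = dist (G^[n] x) (G^[n] y) := by
    intro γ n x y
    rw [hGi, hGi, hGi, hGi]
    exact inv_iter hno1 _ _ _ _
  have hGn2 : ∀ (γ : Γ) (n : ℕ) (x y : X),
      dist (G.symm^[n] (γ • x)) (G.symm^[n] (γ • y)) = dist (G.symm^[n] x) (G.symm^[n] y) := by
    intro γ n x y
    rw [hGsi, hGsi, hGsi, hGsi]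
    exact inv_iter hno2 _ _ _ _
  have hnfG : NFix Γ F → NFix Γ G := by
    intro hU n hn γ x y hx hy
    rw [hGi] at hx hy
    exact hU _ (Nat.mul_pos hN hn) γ x y hx hy
  have hnfG' : NFix Γ F → NFix Γ G.symm := by
    intro hU n hn γ x y hx hy
    have hno : ∀ n : ℕ, ∀ γ : Γ, ∃ γ' : Γ, ∀ x, F^[n] (γ • x) = γ' • F^[n] x := by
      intro n
      induction n with
      | zero => intro γ; exact ⟨γ, fun x => rfl⟩
      | succ n ih =>
        intro γ
        obtain ⟨γ1, h1⟩ := hno1 γ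
        obtain ⟨γ2, h2⟩ := ih γ1
        refine ⟨γ2, fun x => ?_⟩
        rw [Function.iterate_succ_apply, h1, h2, Function.iterate_succ_apply]
    obtain ⟨γ', hγ'⟩ := hno (N * n) γ
    have conv : ∀ z : X, G.symm^[n] z = γ • z → F^[N * n] z = γ'⁻¹ • z := by
      intro z hz
      have h3 : G^[n] (G.symm^[n] z) = z := eq_iter_symm_iter G n z
      rw [hz, hGi, hγ'] at h3
      rw [eq_inv_smul_iff]
      exact h3
    exact hU _ (Nat.mul_pos hN hn) _ x y (conv x hx) (conv y hy)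
  have hnwG : NWeak Γ F → NWeak Γ G := by
    intro hU n hn γ
    obtain ⟨K, hK, hK'⟩ := hU (N * n) (Nat.mul_pos hN hn) γ
    refine ⟨K, hK, ?_⟩
    have : (fun x => γ⁻¹ • G^[n] x) = fun x => γ⁻¹ • F^[N * n] x := by
      funext x
      rw [hGi]
    rw [this]
    exact hK'
  have hnwG' : NWeak Γ F → NWeak Γ G.symm := by
    intro hU n hn γ
    have hno : ∀ n : ℕ, ∀ γ : Γ, ∃ γ' : Γ, ∀ x, F^[n] (γ • x) = γ' • F^[n] x := by
      intro n
      induction n with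
      | zero => intro γ; exact ⟨γ, fun x => rfl⟩
      | succ n ih =>
        intro γ
        obtain ⟨γ1, h1⟩ := hno1 γ
        obtain ⟨γ2, h2⟩ := ih γ1
        refine ⟨γ2, fun x => ?_⟩
        rw [Function.iterate_succ_apply, h1, h2, Function.iterate_succ_apply]
    obtain ⟨γ', hγ'⟩ := hno (N * n) γ
    obtain ⟨K, hK, hK'⟩ := hU (N * n) (Nat.mul_pos hN hn) γ'⁻¹
    refine ⟨K, hK, ?_⟩
    have h3 : ∀ x, (γ'⁻¹)⁻¹ • F^[N * n] x = G^[n] (γ • x) := by
      intro x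
      rw [hGi, hγ', inv_inv]
    rw [fix_inv (φ := fun x => γ⁻¹ • G.symm^[n] x) (ψ := fun x => (γ'⁻¹)⁻¹ • F^[N * n] x)]
    · exact hK'
    · intro x
      show γ⁻¹ • G.symm^[n] ((γ'⁻¹)⁻¹ • F^[N * n] x) = x
      rw [h3, eq_symm_iter_iter, inv_smul_smul]
    · intro x
      show (γ'⁻¹)⁻¹ • F^[N * n] (γ⁻¹ • G.symm^[n] x) = x
      rw [h3, smul_inv_smul, eq_iter_symm_iter]
  have hG' : ∀ x, P (G.symm x) = S.symm.g (P x) := proj_symm (P := P) (g := S.g.toEquiv) hG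
  have hPΓ : ∀ (γ : Γ) (x : X), P (γ • x) = P x := proj_smul hΓ
  -- domination for `G`
  obtain ⟨C1, hC1, hU1⟩ := domU_pow F.toEquiv hκu.le hDu j0
  obtain ⟨C2, hC2, hS1⟩ := domS_pow F.toEquiv hκs.le hDs j0
  rw [← hj0] at hU1 hS1
  have hGU : DomU G 1 (κu ^ j0) (max C1 C2) := fun x y hxy =>
    (hU1.mono (le_max_left C1 C2)) x y (as2 _ _ hxy)
  have hGS : DomS G 1 (κs ^ j0) (max C1 C2) := fun x y hxy =>
    (hS1.mono (le_max_right C1 C2) le_rfl) x y (as1 _ _ hxy)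
  have hκs0 : 0 < κs ^ j0 := by positivity
  have hκu0 : 0 < κu ^ j0 := by positivity
  have hB : BPieces G ∨ BPieces G.symm := by
    rcases hU with hU | hU
    · rcases hκj' with h3 | h3
      · exact Or.inl (bp_of_nweak S H hG huG huG' hPΓ hGn1 hGn2 hK hKΓ (hnwG hU) hBG
          (lexp_of_domU h3 hGU))
      · exact Or.inr (bp_of_nweak S.symm H hG' huG' huG hPΓ hGn2 hGn1 hK hKΓ (hnwG' hU) hBG
          (lexp_of_domU h3 (domU_symm hκs0 hGS)))
    · exact Or.inl (bp_of_unique S H hG huG huG' hBG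
        (fun x y h h' => hU x y (as1 _ _ h) (as2 _ _ h')))
  have htr : ∀ U V : Set M, IsOpen U → U.Nonempty → IsOpen V → V.Nonempty →
      ∃ n : ℕ, (S.g^[n] '' U ∩ V).Nonempty := transM hL (fun x y z hxy hxz =>
        swapM_either S H hs hG huG huG' hκs0 hκj hGU hGS hB x y z hxy hxz)
  have huniq : ∀ x y, Asymp F x y → Asymp F.symm x y → x = y := by
    rcases hU with hU | hU
    · intro x y hx hy
      exact uniq_of_nweak S H hG huG hΓ (hnwG hU) htr x y (as1' _ _ hx) (as2' _ _ hy)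
    · exact hU
  refine ⟨⟨?_, fun x y => ?_⟩, fun hU x y B hB => ?_, fun hU x y B hB => ?_⟩
  rotate_left 2
  · apply as1
    exact as_of_bounded S H hG huG hPΓ hK hKΓ (hnfG hU) (B := B) (fun n => by
      rw [hGi, hGi]; exact hB _)
  · apply as2
    exact as_of_bounded S.symm H hG' huG' hPΓ hK hKΓ (hnfG' hU) (B := B) (fun n => by
      rw [hGsi, hGsi]; exact hB _)
  · intro U V hUo hUn hVo hVn
    obtain ⟨k, hk⟩ := htr U V hUo hUn hVo hVn
    refine ⟨N * k, ?_⟩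
    have h3 : S.g^[k] = f^[N * k] := by
      rw [Function.iterate_mul, hg]; rfl
    rw [h3] at hk
    exact hk
  · obtain ⟨w, hw1, hw2⟩ := globalX_either S H hG huG huG' hκs0 hκj hGU hGS hB x y
    refine ⟨w, ⟨as1 _ _ hw1, as2 _ _ hw2⟩, ?_⟩
    rintro w' ⟨h3, h4⟩
    apply huniq
    · exact (As.symm h3).trans (as1 _ _ hw1)
    · exact (As.symm h4).trans (as2 _ _ hw2)

end Pool.Agent.H223.CE
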