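import Pool.Agent.H223.CE.Fin
import Pool.Agent.H223.CE.Gps
import Pool.Agent.TH289.K.A9

set_option autoImplicit false
set_option linter.unusedSectionVars false

open scoped Manifold ContDiff Topology
open Set Filter

namespace Pool.Agent.H223.CE

open Pool.Agent.H721R2 Pool.Agent.H789R2.AN Pool.Agent.H721R2.CSys
open Pool.Agent.TH289.K (GPS)

variable {E : Type*} [NormedAddCommGroup E] [NormedSpace ℝ E] [FiniteDimensional ℝ E]
  {M : Type*} [TopologicalSpace M] [T2Space M] [CompactSpace M] [ConnectedSpace M]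
  [ChartedSpace E M] [IsManifold 𝓘(ℝ, E) ∞ M]
  {X : Type*} [MetricSpace X] [ProperSpace X] [ConnectedSpace X]
  {Γ : Type*} [Group Γ] [MulAction Γ X] [IsIsometricSMul Γ X]

/-- Global product structure on the covering gives rectangles on the manifold. -/
theorem man_gps (f : Diffeomorph 𝓘(ℝ, E) 𝓘(ℝ, E) M M 1)
    (Es Eu : ∀ x : M, Submodule ℝ (TangentSpace 𝓘(ℝ, E) x)) (hA : IsAnosov f Es Eu)
    (P : X → M) (hP : IsCoveringMap P) (hs : Function.Surjective P)
    (hΓ : ∀ x y, P x = P y ↔ ∃ γ : Γ, γ • x = y) (F : X ≃ₜ X) (hF : ∀ x, P (F x) = f (P x))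
    (hGP : ∀ x y, ∃! w, Asymp F x w ∧ Asymp F.symm y w) : GPS f.toHomeomorph := by
  obtain ⟨m, e, he, hemb, hinj⟩ := exists_embedding_euclidean_of_compact (I := 𝓘(ℝ, E)) (M := M)
  let _ : MetricSpace M := hemb.isEmbedding.comapMetricSpace e
  have hiso : ∀ x y : M, dist x y = ‖e x - e y‖ := fun x y => dist_eq_norm (e x) (e y)
  have he1 : ContMDiff 𝓘(ℝ, E) (𝓡 m) 1 e := he.of_le (by simp)
  obtain ⟨N, S, -, hN, hg⟩ := exists_sys_mul hiso he1 hinj f Es Eu hA 1 le_rfl
  obtain ⟨K, hK, hKΓ⟩ := exists_K (Γ := Γ) hP hs hΓ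
  obtain ⟨r, ρ, H⟩ := exists_sheets (Γ := Γ) hP hΓ hK hKΓ
  have hF' : ∀ x, P (F.symm x) = f.symm (P x) := by
    intro x
    apply f.injective
    show f (P (F.symm x)) = f (f.symm (P x))
    rw [← hF, Homeomorph.apply_symm_apply]
    exact (f.apply_symm_apply _).symm
  have hu : UCont F := lift_ucont (Γ := Γ) hP hΓ hK hKΓ (f := f) F.continuous hF
  have hu' : UCont F.symm :=
    lift_ucont (Γ := Γ) hP hΓ hK hKΓ (f := f.symm) F.symm.continuous hF'
  set G : X ≃ X := (iterHomeo F N).toEquiv with hGdef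
  have hGf : ∀ x, G x = F^[N] x := fun _ => rfl
  have hG : ∀ x, P (G x) = S.g (P x) := by
    intro x
    have h1 : ∀ (k : ℕ) (x : X), P (F^[k] x) = f^[k] (P x) := by
      intro k
      induction k with
      | zero => intro x; rfl
      | succ k ih => intro x; rw [Function.iterate_succ_apply, Function.iterate_succ_apply, ih, hF]
    rw [hg, hGf, h1]; rfl
  have huG : UCont G := hu.iter N
  have huG' : UCont G.symm := hu'.iter N
  have as1 : ∀ x y, As G x y → As F x y := fun x y h => as_of_iter hu hN h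
  have as2 : ∀ x y, As G.symm x y → As F.symm x y := fun x y h => as_of_iter hu' hN h
  have as1' : ∀ x y, As F x y → As G x y := fun x y h => iter_of_as hN h
  have as2' : ∀ x y, As F.symm x y → As G.symm x y := fun x y h => iter_of_as hN h
  refine gps_of_global S H hG huG huG' hP hs hN hg (fun x y => ?_) (fun x y h1 h2 => ?_)
  · obtain ⟨w, hw, -⟩ := hGP x y
    exact ⟨w, as1' _ _ hw.1, as2' _ _ hw.2⟩
  · obtain ⟨w, -, hw⟩ := hGP x x
    rw [hw x ⟨As.refl _ _, As.refl _ _⟩, hw y ⟨as1 _ _ h1, as2 _ _ h2⟩]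

/-- an Anosov diffeomorphism with global product structure on some normal covering: transitive and
covered by Euclidean space -/
theorem man_covered (f : Diffeomorph 𝓘(ℝ, E) 𝓘(ℝ, E) M M 1)
    (Es Eu : ∀ x : M, Submodule ℝ (TangentSpace 𝓘(ℝ, E) x)) (hA : IsAnosov f Es Eu)
    (P : X → M) (hP : IsCoveringMap P) (hs : Function.Surjective P)
    (hΓ : ∀ x y, P x = P y ↔ ∃ γ : Γ, γ • x = y) (F : X ≃ₜ X) (hF : ∀ x, P (F x) = f (P x))
    (hD : CoarselyHyperbolic F ∨ CoarselyDominated F) (hN : NWeak Γ F) :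
    ∃ π : E → M, IsCoveringMap π ∧ Function.Surjective π := by
  have h1 := ((man_tfae f Es Eu hA P hP hs hΓ F hF hD).out 4 0).mp hN
  exact (Pool.Agent.TH289.K.man_self f Es Eu hA
    (man_gps f Es Eu hA P hP hs hΓ F hF h1.2)).2

end Pool.Agent.H223.CE
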