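import Pool.Agent.H223.CE.Uniq

set_option autoImplicit false
set_option linter.unusedSectionVars false

namespace Pool.Agent.H223.CE

open Pool.Agent.H721R2 Pool.Agent.H721R2.CSys Pool.Agent.H789R2.AN Filter Topology Set

variable {M X Γ : Type*} [MetricSpace M] [CompactSpace M] [MetricSpace X] [ProperSpace X]
  [Group Γ] [MulAction Γ X] [IsIsometricSMul Γ X] {P : X → M}

omit [ProperSpace X] [IsIsometricSMul Γ X] in
theorem exists_K [ProperSpace X] (hP : IsCoveringMap P) (hs : Function.Surjective P)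
    (hΓ : ∀ x y, P x = P y ↔ ∃ γ : Γ, γ • x = y) :
    ∃ K : Set X, IsCompact K ∧ ∀ x, ∃ γ : Γ, γ • x ∈ K := by
  have key : ∃ K : Set X, IsCompact K ∧ (univ : Set M) ⊆ P '' K := by
    refine IsCompact.induction_on (p := fun S => ∃ K : Set X, IsCompact K ∧ S ⊆ P '' K)
      isCompact_univ ⟨∅, isCompact_empty, by simp⟩ ?_ ?_ ?_
    · rintro s t hst ⟨K, hK, h⟩
      exact ⟨K, hK, hst.trans h⟩
    · rintro s t ⟨K, hK, h⟩ ⟨K', hK', h'⟩
      refine ⟨K ∪ K', hK.union hK', ?_⟩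
      rw [image_union]
      exact union_subset_union h h'
    · intro m _
      obtain ⟨x, rfl⟩ := hs m
      refine ⟨P '' Metric.ball x 1, ?_, Metric.closedBall x 1, isCompact_closedBall x 1,
        image_mono Metric.ball_subset_closedBall⟩
      rw [nhdsWithin_univ]
      exact hP.isLocalHomeomorph.isOpenMap.image_mem_nhds (Metric.ball_mem_nhds x one_pos)
  obtain ⟨K, hK, h⟩ := key
  refine ⟨K, hK, fun x => ?_⟩
  obtain ⟨k, hk, hkx⟩ := h (mem_univ (P x))
  obtain ⟨γ, hγ⟩ := (hΓ x k).mp hkx.symm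
  exact ⟨γ, by rw [hγ]; exact hk⟩

theorem proj_smul (hΓ : ∀ x y, P x = P y ↔ ∃ γ : Γ, γ • x = y) (γ : Γ) (x : X) :
    P (γ • x) = P x := ((hΓ x (γ • x)).mpr ⟨γ, rfl⟩).symm

/-- Local injectivity at a uniform scale. -/
theorem exists_inj (hP : IsCoveringMap P) (hΓ : ∀ x y, P x = P y ↔ ∃ γ : Γ, γ • x = y)
    {K : Set X} (hK : IsCompact K) (hKΓ : ∀ x, ∃ γ : Γ, γ • x ∈ K) :
    ∃ r > 0, ∀ x y : X, dist x y < r → P x = P y → x = y := by
  have key : ∃ r > 0, ∀ x ∈ K, ∀ y : X, dist x y < r → P x = P y → x = y := by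
    refine IsCompact.induction_on
      (p := fun S => ∃ r > 0, ∀ x ∈ S, ∀ y : X, dist x y < r → P x = P y → x = y)
      hK ⟨1, one_pos, by simp⟩ ?_ ?_ ?_
    · rintro s t hst ⟨r, hr, h⟩
      exact ⟨r, hr, fun x hx => h x (hst hx)⟩
    · rintro s t ⟨r, hr, h⟩ ⟨r', hr', h'⟩
      refine ⟨min r r', lt_min hr hr', ?_⟩
      rintro x (hx | hx) y hxy
      · exact h x hx y (lt_of_lt_of_le hxy (min_le_left _ _))
      · exact h' x hx y (lt_of_lt_of_le hxy (min_le_right _ _))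
    · intro k _
      obtain ⟨U, hU, hkU, hinj⟩ := hP.isLocalHomeomorph.isLocallyInjective k
      obtain ⟨ε, hε, hball⟩ := Metric.isOpen_iff.mp hU k hkU
      refine ⟨Metric.ball k (ε / 2), mem_nhdsWithin_of_mem_nhds (Metric.ball_mem_nhds k (half_pos hε)),
        ε / 2, half_pos hε, fun x hx y hxy h => ?_⟩
      rw [Metric.mem_ball] at hx
      refine hinj (hball ?_) (hball ?_) h
      · rw [Metric.mem_ball]; linarith
      · rw [Metric.mem_ball]
        have := dist_triangle y x k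
        rw [dist_comm y x] at this
        linarith
  obtain ⟨r, hr, h⟩ := key
  refine ⟨r, hr, fun x y hxy hPxy => ?_⟩
  obtain ⟨γ, hγ⟩ := hKΓ x
  have h1 := h (γ • x) hγ (γ • y) (by rwa [dist_smul]) (by rw [proj_smul hΓ, proj_smul hΓ]; exact hPxy)
  exact MulAction.injective γ h1

/-- Openness at a uniform scale. -/
theorem exists_open (hP : IsCoveringMap P) (hΓ : ∀ x y, P x = P y ↔ ∃ γ : Γ, γ • x = y)
    {K : Set X} (hK : IsCompact K) (hKΓ : ∀ x, ∃ γ : Γ, γ • x ∈ K) (η : ℝ) (hη : 0 < η) :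
    ∃ ρ > 0, ∀ (x : X) (m : M), dist (P x) m < ρ → ∃ y, P y = m ∧ dist x y < η := by
  have key : ∃ ρ > 0, ∀ x ∈ K, ∀ m : M, dist (P x) m < ρ → ∃ y, P y = m ∧ dist x y < η := by
    refine IsCompact.induction_on
      (p := fun S => ∃ ρ > 0, ∀ x ∈ S, ∀ m : M, dist (P x) m < ρ → ∃ y, P y = m ∧ dist x y < η)
      hK ⟨1, one_pos, by simp⟩ ?_ ?_ ?_
    · rintro s t hst ⟨r, hr, h⟩
      exact ⟨r, hr, fun x hx => h x (hst hx)⟩
    · rintro s t ⟨r, hr, h⟩ ⟨r', hr', h'⟩
      refine ⟨min r r', lt_min hr hr', ?_⟩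
      rintro x (hx | hx) y hxy
      · exact h x hx y (lt_of_lt_of_le hxy (min_le_left _ _))
      · exact h' x hx y (lt_of_lt_of_le hxy (min_le_right _ _))
    · intro k _
      have h1 : P '' Metric.ball k (η / 2) ∈ 𝓝 (P k) :=
        hP.isLocalHomeomorph.isOpenMap.image_mem_nhds (Metric.ball_mem_nhds k (half_pos hη))
      obtain ⟨ε, hε, hball⟩ := Metric.mem_nhds_iff.mp h1
      have h2 : P ⁻¹' Metric.ball (P k) (ε / 2) ∈ 𝓝 k :=
        hP.continuous.continuousAt (Metric.ball_mem_nhds _ (half_pos hε))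
      refine ⟨P ⁻¹' Metric.ball (P k) (ε / 2) ∩ Metric.ball k (η / 2),
        mem_nhdsWithin_of_mem_nhds (inter_mem h2 (Metric.ball_mem_nhds k (half_pos hη))),
        ε / 2, half_pos hε, fun x hx m hm => ?_⟩
      have hx1 : dist (P x) (P k) < ε / 2 := hx.1
      have hx2 : dist x k < η / 2 := hx.2
      obtain ⟨y, hy, hym⟩ := hball (show m ∈ Metric.ball (P k) ε by
        rw [Metric.mem_ball]
        have := dist_triangle m (P x) (P k)
        rw [dist_comm m (P x)] at this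
        linarith)
      have hy' : dist y k < η / 2 := hy
      refine ⟨y, hym, ?_⟩
      have := dist_triangle x k y
      rw [dist_comm k y] at this
      linarith
  obtain ⟨r, hr, h⟩ := key
  refine ⟨r, hr, fun x m hxm => ?_⟩
  obtain ⟨γ, hγ⟩ := hKΓ x
  obtain ⟨y, hy, hxy⟩ := h (γ • x) hγ m (by rwa [proj_smul hΓ])
  refine ⟨γ⁻¹ • y, by rw [proj_smul hΓ, hy], ?_⟩
  have h1 : dist (γ • x) (γ • (γ⁻¹ • y)) < η := by rwa [smul_inv_smul]
  rwa [dist_smul] at h1

/-- Uniform continuity of equivariant maps. -/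
theorem ucont_equiv {N : Type*} [MetricSpace N] {K : Set X} (hK : IsCompact K)
    (hKΓ : ∀ x, ∃ γ : Γ, γ • x ∈ K) (φ : X → N) (hφ : Continuous φ)
    (hinv : ∀ (γ : Γ) (x y : X), dist (φ (γ • x)) (φ (γ • y)) = dist (φ x) (φ y)) :
    ∀ ε > 0, ∃ δ > 0, ∀ x y, dist x y < δ → dist (φ x) (φ y) < ε := by
  intro ε hε
  have h1 := hK.uniformContinuousAt_of_continuousAt φ (fun a _ => hφ.continuousAt)
    (Metric.dist_mem_uniformity hε)
  obtain ⟨δ, hδ, h2⟩ := Metric.mem_uniformity_dist.mp h1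
  refine ⟨δ, hδ, fun x y hxy => ?_⟩
  obtain ⟨γ, hγ⟩ := hKΓ x
  have h3 := h2 (a := γ • x) (b := γ • y) (by rwa [dist_smul]) hγ
  rw [← hinv γ]
  exact h3

/-- The sheets of a regular covering. -/
theorem exists_sheets (hP : IsCoveringMap P) (hΓ : ∀ x y, P x = P y ↔ ∃ γ : Γ, γ • x = y)
    {K : Set X} (hK : IsCompact K) (hKΓ : ∀ x, ∃ γ : Γ, γ • x ∈ K) :
    ∃ r ρ : ℝ, Sheets P r ρ := by
  obtain ⟨r0, hr0, hinj⟩ := exists_inj hP hΓ hK hKΓ
  obtain ⟨ρ, hρ, hop⟩ := exists_open hP hΓ hK hKΓ (r0 / 2 / 2) (by positivity)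
  refine ⟨r0 / 2, ρ, {
    r_pos := by positivity
    ρ_pos := hρ
    inj := fun x y hxy h => hinj x y (by linarith) h
    lift := hop
    gap := ?_
    unif := ?_
    cont := ?_ }⟩
  · intro x y hxy h
    obtain ⟨y', hy', hxy'⟩ := hop x (P y) h
    have : y = y' := by
      apply hinj _ _ _ hy'.symm
      have := dist_triangle y x y'
      rw [dist_comm y x] at this
      linarith
    rw [this]; exact hxy'
  · intro η hη
    obtain ⟨ε, hε, h1⟩ := exists_open hP hΓ hK hKΓ (min η (r0 / 2)) (lt_min hη (by positivity))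
    refine ⟨ε, hε, fun x y hxy h => ?_⟩
    obtain ⟨y', hy', hxy'⟩ := h1 x (P y) h
    have : y = y' := by
      apply hinj _ _ _ hy'.symm
      have := dist_triangle y x y'
      rw [dist_comm y x] at this
      have := min_le_right η (r0 / 2)
      linarith
    rw [this]; exact lt_of_lt_of_le hxy' (min_le_left _ _)
  · exact ucont_equiv hK hKΓ P hP.continuous (fun γ x y => by
      rw [proj_smul hΓ, proj_smul hΓ])

/-- A lift normalises the deck group. -/
theorem lift_normal [PreconnectedSpace X] (hP : IsCoveringMap P)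
    (hΓ : ∀ x y, P x = P y ↔ ∃ γ : Γ, γ • x = y) {f : M → M} {F : X → X} (hF : Continuous F)
    (hFf : ∀ x, P (F x) = f (P x)) (γ : Γ) : ∃ γ' : Γ, ∀ x, F (γ • x) = γ' • F x := by
  rcases isEmpty_or_nonempty X with h | ⟨⟨x0⟩⟩
  · exact ⟨1, fun x => (IsEmpty.false x).elim⟩
  · obtain ⟨γ', hγ'⟩ := (hΓ (F x0) (F (γ • x0))).mp (by rw [hFf, hFf, proj_smul hΓ])
    have h1 : (fun x => F (γ • x)) = fun x => γ' • F x := by
      apply hP.eq_of_comp_eq (A := X) _ _ _ x0 hγ'.symm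
      · exact hF.comp (isometry_smul X γ).continuous
      · exact (isometry_smul X γ').continuous.comp hF
      · funext x
        show P (F (γ • x)) = P (γ' • F x)
        rw [hFf, proj_smul hΓ, proj_smul hΓ, hFf]
    exact ⟨γ', fun x => congrFun h1 x⟩

theorem lift_ucont [PreconnectedSpace X] (hP : IsCoveringMap P)
    (hΓ : ∀ x y, P x = P y ↔ ∃ γ : Γ, γ • x = y) {K : Set X} (hK : IsCompact K)
    (hKΓ : ∀ x, ∃ γ : Γ, γ • x ∈ K) {f : M → M} {F : X → X} (hF : Continuous F)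
    (hFf : ∀ x, P (F x) = f (P x)) : UCont F := by
  apply ucont_equiv hK hKΓ F hF
  intro γ x y
  obtain ⟨γ', h⟩ := lift_normal hP hΓ hF hFf γ
  rw [h, h, dist_smul]

theorem bgeom {K : Set X} (hK : IsCompact K) (hKΓ : ∀ x, ∃ γ : Γ, γ • x ∈ K) : BGeom X := by
  classical
  intro r δ hδ
  obtain ⟨t, -, ht, hcov⟩ := (hK.cthickening (r := r)).finite_cover_balls hδ
  refine ⟨ht.toFinset.card, fun x => ?_⟩
  obtain ⟨γ, hγ⟩ := hKΓ x
  refine ⟨ht.toFinset.image (fun z => γ⁻¹ • z), Finset.card_image_le, fun y hy => ?_⟩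
  have h1 : γ • y ∈ Metric.cthickening r K := by
    apply Metric.mem_cthickening_of_dist_le (γ • y) (γ • x) r K hγ
    rw [dist_smul, dist_comm]; exact hy
  have h2 := hcov h1
  simp only [mem_iUnion, Metric.mem_ball, exists_prop] at h2
  obtain ⟨z, hz, hyz⟩ := h2
  refine ⟨γ⁻¹ • z, Finset.mem_image_of_mem _ (by simpa using hz), ?_⟩
  rw [← dist_smul γ, smul_inv_smul, dist_comm]
  exact hyz

end Pool.Agent.H223.CE
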