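import Pool.Agent.H223.CE.Close

set_option autoImplicit false
set_option linter.unusedSectionVars false

namespace Pool.Agent.H223.CE

open Pool.Agent.H721R2 Pool.Agent.H721R2.CSys Pool.Agent.H789R2.AN Filter Topology Set

variable {M X Γ E : Type*} [MetricSpace M] [CompactSpace M] [MetricSpace X]
  [NormedAddCommGroup E] [NormedSpace ℝ E]
  [Group Γ] [MulAction Γ X] [IsIsometricSMul Γ X] {P : X → M} {r ρ : ℝ}

/-- **Twisted shadowing of words.** -/
theorem tshadow (S : HypSys M E) (H : Sheets P r ρ) {G : X ≃ X}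
    (hG : ∀ x, P (G x) = S.g (P x)) (hu : UCont G) (hPΓ : ∀ (γ : Γ) (x : X), P (γ • x) = P x)
    (ε : ℝ) (hε : 0 < ε) : ∃ δ > 0, ∀ {ι : Type} (L : ℕ) (γ : Γ) (a0 : X) (u : ι → ℕ → X), 1 ≤ L →
      (∀ a, u a 0 = a0) → (∀ a, u a L = γ • a0) →
      (∀ a, ∀ i < L, dist (G (u a i)) (u a (i + 1)) < δ) →
      ∀ (K : ℕ), 1 ≤ K → ∀ s : ℕ → ι,
      ∃ p, (fun x => γ⁻¹ • G^[L] x)^[K] p = p ∧
        ∀ j < K, ∀ i ≤ L, dist (G^[i] ((fun x => γ⁻¹ • G^[L] x)^[j] p)) (u (s j) i) < ε := by
  have hr := H.r_pos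
  obtain ⟨δG, hδG, hGc⟩ := hu (r / 4) (by positivity)
  set ε2 := min ε (min δG (r / 4)) with hε2
  have hε2' : 0 < ε2 := lt_min hε (lt_min hδG (by positivity))
  have e1 : ε2 ≤ ε := min_le_left _ _
  have e2 : ε2 ≤ δG := (min_le_right _ _).trans (min_le_left _ _)
  have e3 : ε2 ≤ r / 4 := (min_le_right _ _).trans (min_le_right _ _)
  obtain ⟨ε3, hε3, hun⟩ := H.unif ε2 hε2'
  set ε4 := min (ε3 / 2) (ρ / 2) with hε4
  have hε4' : 0 < ε4 := lt_min (half_pos hε3) (half_pos H.ρ_pos)
  have e4 : ε4 < ε3 := lt_of_le_of_lt (min_le_left _ _) (by linarith)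
  have e5 : ε4 < ρ := lt_of_le_of_lt (min_le_right _ _) (by linarith [H.ρ_pos])
  obtain ⟨δ1, hδ1, hps⟩ := Pool.Agent.TH289.per_shadow S hε4'
  obtain ⟨η1, hη1, hc⟩ := H.cont δ1 hδ1
  refine ⟨min η1 (r / 4), lt_min hη1 (by positivity), fun {ι} L γ a0 u hL h0 hend hstep K hK s => ?_⟩
  set φ : X → X := fun x => γ⁻¹ • G^[L] x with hφ
  -- the concatenated pseudo-orbit in `M`
  set U : ℕ → M := fun n => P (u (s (n / L)) (n % L)) with hU
  have hKL : 1 ≤ K * L := Nat.mul_pos hK hL
  have hKL0 : (0 : ℤ) < (K * L : ℕ) := by exact_mod_cast hKL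
  have hend' : ∀ a, P (u a L) = P a0 := fun a => by rw [hend, hPΓ]
  -- values in a block
  have hblock : ∀ j i, i < L → U (j * L + i) = P (u (s j) i) := by
    intro j i hi
    show P (u (s ((j * L + i) / L)) ((j * L + i) % L)) = _
    have h1 : (j * L + i) / L = j := by
      rw [Nat.add_comm, Nat.add_mul_div_right _ _ (by omega), Nat.div_eq_of_lt hi, zero_add]
    have h2 : (j * L + i) % L = i := by
      rw [Nat.add_comm, Nat.add_mul_mod_self_right, Nat.mod_eq_of_lt hi]
    rw [h1, h2]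
  have hblock' : ∀ j i, i ≤ L → U (j * L + i) = P (u (s j) i) := by
    intro j i hi
    rcases Nat.lt_or_ge i L with h | h
    · exact hblock j i h
    · have : i = L := le_antisymm hi h
      subst this
      rw [hend', show j * i + i = (j + 1) * i + 0 by ring, hblock (j + 1) 0 (by omega), h0]
  set v : ℤ → M := fun n => U (n % (K * L : ℕ)).toNat with hv
  have hper : ∀ n, v (n + (K * L : ℕ)) = v n := by
    intro n
    show U ((n + (K * L : ℕ)) % (K * L : ℕ)).toNat = U (n % (K * L : ℕ)).toNat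
    rw [Int.add_emod_right]
  have hU0 : U (K * L) = U 0 := by
    have h1 := hblock' K 0 (Nat.zero_le _)
    have h2 := hblock' 0 0 (Nat.zero_le _)
    rw [Nat.zero_mul] at h2
    rw [Nat.add_zero] at h1 h2
    rw [h1, h2, h0, h0]
  have hnext : ∀ n : ℤ, v (n + 1) = U ((n % (K * L : ℕ)).toNat + 1) := by
    intro n
    have e0 : 0 ≤ n % (K * L : ℕ) := Int.emod_nonneg n hKL0.ne'
    have e1 : n % (K * L : ℕ) < (K * L : ℕ) := Int.emod_lt_of_pos n hKL0
    show U ((n + 1) % (K * L : ℕ)).toNat = _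
    generalize hm : K * L = m at *
    by_cases h4 : n % m + 1 < m
    · have h5 : (n + 1) % m = n % m + 1 := by
        rw [Int.add_emod]
        have h6 : (1 : ℤ) % m = 1 := Int.emod_eq_of_lt (by norm_num) (by omega)
        rw [h6]
        exact Int.emod_eq_of_lt (by omega) h4
      rw [h5]
      have h6 : (n % m + 1).toNat = (n % m).toNat + 1 := by omega
      rw [h6]
    · have h5 : n % m = m - 1 := by omega
      have h6 : (n + 1) % m = 0 := by
        have : n + 1 = m * (n / m) + m := by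
          have := Int.mul_ediv_add_emod n m
          omega
        rw [this]
        simp
      rw [h6]
      have h7 : (n % (m : ℤ)).toNat + 1 = m := by omega
      rw [h7, hU0]
      rfl
  have hUstep : ∀ n, dist (S.g (U n)) (U (n + 1)) ≤ δ1 := by
    intro n
    have h1 : n = n / L * L + n % L := by
      have := Nat.div_add_mod n L
      rw [mul_comm] at this
      exact this.symm
    have h2 : n % L < L := Nat.mod_lt _ (by omega)
    rw [h1, add_assoc, hblock _ _ h2, hblock' _ _ (by omega), ← hG]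
    exact (hc _ _ (lt_of_lt_of_le (hstep _ _ h2) (min_le_left _ _))).le
  have hpseudo : ∀ n, dist (S.g (v n)) (v (n + 1)) ≤ δ1 := by
    intro n
    rw [hnext]
    exact hUstep _
  obtain ⟨p0, hp0, hp1, -⟩ := hps (K * L) v hper hpseudo
  have hvi : ∀ n ≤ K * L, v (n : ℤ) = U n := by
    intro n hn
    rcases Nat.lt_or_ge n (K * L) with h | h
    · show U ((n : ℤ) % (K * L : ℕ)).toNat = U n
      have : (n : ℤ) % (K * L : ℕ) = n := Int.emod_eq_of_lt (by omega) (by exact_mod_cast h)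
      rw [this]; rfl
    · have : n = K * L := le_antisymm hn h
      subst this
      rw [hU0]
      show U (((K * L : ℕ) : ℤ) % (K * L : ℕ)).toNat = U 0
      rw [Int.emod_self]; rfl
  have hclose : ∀ n ≤ K * L, dist (S.g^[n] p0) (U n) ≤ ε4 := by
    intro n hn
    rw [← hvi n hn]
    exact hp1 n
  have h00 : dist (P a0) p0 ≤ ε4 := by
    have h1 := hclose 0 (Nat.zero_le _)
    have h2 := hblock' 0 0 (Nat.zero_le _)
    rw [Nat.zero_mul, Nat.add_zero] at h2
    rw [h2, h0] at h1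
    rw [dist_comm]; exact h1
  obtain ⟨p, hp, hup⟩ := H.lift a0 p0 (lt_of_le_of_lt h00 e5)
  have hG1 : ∀ x, P (G x) = S.g.toEquiv (P x) := hG
  have hPG : ∀ (i : ℕ) (x : X), P (G^[i] x) = S.g^[i] (P x) := by
    intro i x
    rw [proj_iter hG1]; rfl
  have hPφ : ∀ j : ℕ, P (φ^[j] p) = S.g^[j * L] p0 := by
    intro j
    induction j with
    | zero => rw [Nat.zero_mul]; exact hp
    | succ j ih =>
      rw [Function.iterate_succ_apply']
      show P (γ⁻¹ • G^[L] (φ^[j] p)) = _
      rw [hPΓ, hPG, ih, ← Function.iterate_add_apply]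
      congr 2
      ring
  have hsm : ∀ j < K, ∀ i ≤ L, dist (G^[i] (φ^[j] p)) (u (s j) i) < r →
      dist (G^[i] (φ^[j] p)) (u (s j) i) < ε2 := by
    intro j hj i hi h
    apply hun _ _ h
    rw [hPG, hPφ, ← Function.iterate_add_apply, ← hblock' j i hi, Nat.add_comm i (j * L)]
    refine lt_of_le_of_lt (hclose _ ?_) e4
    calc j * L + i ≤ j * L + L := by omega
      _ = (j + 1) * L := by ring
      _ ≤ K * L := Nat.mul_le_mul_right _ hj
  have keyb : ∀ j < K, dist (φ^[j] p) a0 < r → ∀ i ≤ L,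
      dist (G^[i] (φ^[j] p)) (u (s j) i) < ε2 := by
    intro j hj hstart i
    induction i with
    | zero =>
      intro _
      apply hsm j hj 0 (Nat.zero_le _)
      rw [h0]; exact hstart
    | succ i ih =>
      intro hi
      apply hsm j hj _ hi
      have h1 := ih (by omega)
      have h2 := hGc _ _ (lt_of_lt_of_le h1 e2)
      have h3 := lt_of_lt_of_le (hstep (s j) i (by omega)) (min_le_right _ _)
      rw [Function.iterate_succ_apply']
      have := dist_triangle (G (G^[i] (φ^[j] p))) (G (u (s j) i)) (u (s j) (i + 1))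
      linarith
  have keyj : ∀ j ≤ K, dist (φ^[j] p) a0 < r / 2 := by
    intro j
    induction j with
    | zero => intro _; show dist p a0 < r / 2; rw [dist_comm]; exact hup
    | succ j ih =>
      intro hj
      have h1 := keyb j (by omega) (by linarith [ih (by omega)]) L le_rfl
      rw [hend] at h1
      rw [Function.iterate_succ_apply']
      show dist (γ⁻¹ • G^[L] (φ^[j] p)) a0 < r / 2
      rw [← dist_smul γ, smul_inv_smul]
      linarith
  refine ⟨p, ?_, fun j hj i hi => lt_of_lt_of_le (keyb j hj (by linarith [keyj j hj.le]) i hi) e1⟩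
  apply H.inj
  · have h1 := keyj K le_rfl
    have h2 := keyj 0 (Nat.zero_le _)
    have h2' : dist p a0 < r / 2 := h2
    have := dist_triangle_right (φ^[K] p) p a0
    linarith
  · rw [hPφ, hp, hp0]

/-- **Horseshoes.**  Two blocks give `2 ^ K` fixed points of the `K`-th power. -/
theorem horseshoe (S : HypSys M E) (H : Sheets P r ρ) {G : X ≃ X}
    (hG : ∀ x, P (G x) = S.g (P x)) (hu : UCont G) (hPΓ : ∀ (γ : Γ) (x : X), P (γ • x) = P x)
    (ε : ℝ) (hε : 0 < ε) : ∃ δ > 0, ∀ (L : ℕ) (γ : Γ) (a0 : X) (u : Bool → ℕ → X), 1 ≤ L →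
      (∀ a, u a 0 = a0) → (∀ a, u a L = γ • a0) →
      (∀ a, ∀ i < L, dist (G (u a i)) (u a (i + 1)) < δ) →
      (∃ i ≤ L, 2 * ε ≤ dist (u false i) (u true i)) →
      ∀ K : ℕ, 1 ≤ K → (2 : ℕ∞) ^ K ≤ {x | (fun x => γ⁻¹ • G^[L] x)^[K] x = x}.encard := by
  obtain ⟨δ, hδ, h⟩ := tshadow S H hG hu hPΓ ε hε
  refine ⟨δ, hδ, fun L γ a0 u hL h0 hend hstep ⟨i0, hi0, hsep⟩ K hK => ?_⟩
  have hs : ∀ s : Fin K → Bool, ∃ p, (fun x => γ⁻¹ • G^[L] x)^[K] p = p ∧
      ∀ j : Fin K, dist (G^[i0] ((fun x => γ⁻¹ • G^[L] x)^[(j : ℕ)] p)) (u (s j) i0) < ε := by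
    intro s
    obtain ⟨p, hp, hp'⟩ := h L γ a0 u hL h0 hend hstep K hK
      (fun j => if hj : j < K then s ⟨j, hj⟩ else true)
    refine ⟨p, hp, fun j => ?_⟩
    have h1 := hp' j j.2 i0 hi0
    simpa using h1
  choose p hp hp' using hs
  have hinj : Function.Injective p := by
    intro s s' hss
    by_contra hne
    obtain ⟨j, hj⟩ := Function.ne_iff.mp hne
    have h1 := hp' s j
    have h2 := hp' s' j
    rw [← hss] at h2
    have h3 := dist_triangle_left (u (s j) i0) (u (s' j) i0)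
      (G^[i0] ((fun x => γ⁻¹ • G^[L] x)^[(j : ℕ)] (p s)))
    have h4 : dist (u (s j) i0) (u (s' j) i0) = dist (u false i0) (u true i0) := by
      cases h5 : s j <;> cases h6 : s' j
      · rw [h5, h6] at hj; exact absurd rfl hj
      · rfl
      · exact dist_comm _ _
      · rw [h5, h6] at hj; exact absurd rfl hj
    rw [h4] at h3
    linarith
  have hcard : (Set.range p).encard = 2 ^ K := by
    rw [← Set.image_univ, hinj.encard_image, Set.encard_univ]
    simp
  rw [← hcard]
  apply Set.encard_le_encard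
  rintro _ ⟨s, rfl⟩
  exact hp s

end Pool.Agent.H223.CE
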