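import Pool.Agent.H223.CE.Nf

set_option autoImplicit false
set_option linter.unusedSectionVars false

namespace Pool.Agent.H223.CE

open Pool.Agent.H721R2 Pool.Agent.H721R2.CSys Pool.Agent.H789R2.AN Filter Topology Set

section tr

variable {M X Γ E : Type*} [MetricSpace M] [CompactSpace M] [MetricSpace X]
  [NormedAddCommGroup E] [NormedSpace ℝ E]
  [Group Γ] [MulAction Γ X] [IsIsometricSMul Γ X] {P : X → M} {r ρ : ℝ}

/-- Uniqueness of the intersections from transitivity. -/
theorem uniq_of_nfix (S : HypSys M E) (H : Sheets P r ρ) {G : X ≃ X}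
    (hG : ∀ x, P (G x) = S.g (P x)) (hu : UCont G)
    (hΓ : ∀ x y, P x = P y ↔ ∃ γ : Γ, γ • x = y)
    (hN : NFix Γ G) (htr : ∀ U V : Set M, IsOpen U → U.Nonempty → IsOpen V → V.Nonempty →
      ∃ n : ℕ, (S.g^[n] '' U ∩ V).Nonempty) (x y : X) (h1 : As G x y) (h2 : As G.symm x y) :
    x = y := by
  have hPΓ : ∀ (γ : Γ) (x : X), P (γ • x) = P x := fun γ x => ((hΓ x (γ • x)).mpr ⟨γ, rfl⟩).symm
  have hr := H.r_pos
  have hρ := H.ρ_pos
  have hG1 : ∀ x, P (G x) = S.g.toEquiv (P x) := hG
  refine dist_le_zero.mp (le_of_forall_pos_le_add fun ε hε => ?_)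
  rw [zero_add]
  obtain ⟨δ, hδ, hcl⟩ := tclose S H hG hu hPΓ (ε / 2) (half_pos hε)
  obtain ⟨ε3, hε3, hun⟩ := H.unif (δ / 2) (half_pos hδ)
  have hm3 : 0 < min ε3 ρ := lt_min hε3 hρ
  obtain ⟨n1, hn1⟩ := eventually_atTop.mp (((tendsto_order.mp h1).2 (δ / 2) (half_pos hδ)).and
    ((tendsto_order.mp h2).2 (δ / 2) (half_pos hδ)))
  obtain ⟨n, hn⟩ : ∃ n, n = n1 + 1 := ⟨_, rfl⟩
  have hb1 := (hn1 n (by omega)).1
  have hb2 := (hn1 n (by omega)).2
  -- connecting orbit
  obtain ⟨t, m, ⟨z, hzU, rfl⟩, hzV⟩ := htr (Metric.ball (P (G^[n] x)) (min ε3 ρ))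
    (S.g ⁻¹' Metric.ball (P (G.symm^[n] x)) (min ε3 ρ)) Metric.isOpen_ball
    ⟨_, Metric.mem_ball_self hm3⟩ (Metric.isOpen_ball.preimage S.g.continuous)
    (by
      obtain ⟨w, hw⟩ := S.g.surjective (P (G.symm^[n] x))
      refine ⟨w, ?_⟩
      show S.g w ∈ Metric.ball (P (G.symm^[n] x)) (min ε3 ρ)
      rw [hw]; exact Metric.mem_ball_self hm3)
  have hzV' : S.g^[t + 1] z ∈ Metric.ball (P (G.symm^[n] x)) (min ε3 ρ) := by
    rw [Function.iterate_succ_apply' S.g t z]; exact hzV
  rw [Metric.mem_ball, dist_comm] at hzU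
  rw [Metric.mem_ball] at hzV'
  obtain ⟨z', hz', hdz⟩ := H.lift _ _ (lt_of_lt_of_le hzU (min_le_right _ _))
  have hdz' : dist (G^[n] x) z' < δ / 2 := by
    apply hun _ _ (by linarith)
    rw [hz']
    exact lt_of_lt_of_le hzU (min_le_left _ _)
  have hPz : P (G^[t + 1] z') = S.g^[t + 1] z := by
    rw [proj_iter hG1, hz']; rfl
  obtain ⟨a', ha', hda⟩ := H.lift (G^[t + 1] z') (P (G.symm^[n] x)) (by
    rw [hPz]; exact lt_of_lt_of_le hzV' (min_le_right _ _))
  have hda' : dist (G^[t + 1] z') a' < δ / 2 := by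
    apply hun _ _ (by linarith)
    rw [ha', hPz]
    exact lt_of_lt_of_le hzV' (min_le_left _ _)
  obtain ⟨γ, hγ⟩ := (hΓ (G.symm^[n] x) a').mp ha'.symm
  rw [← hγ] at hda'
  -- the shadowing points
  have key : ∀ w : X, dist (G^[n] w) (G^[n] x) < δ / 2 →
      dist (G.symm^[n] w) (G.symm^[n] x) < δ / 2 →
      ∃ p, G^[2 * n + (t + 1)] p = γ • p ∧ dist (G^[n] p) w < ε / 2 := by
    intro w hw1 hw2
    have e0 : ∀ i, G^[n + i] (G.symm^[n] w) = G^[i] w := by
      intro i
      rw [Nat.add_comm n i, Function.iterate_add_apply, eq_iter_symm_iter]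
    obtain ⟨p, hp, hp'⟩ := hcl (2 * n + (t + 1)) γ
      (fun i => if i < 2 * n then G^[i] (G.symm^[n] w) else
        if i < 2 * n + (t + 1) then G^[i - 2 * n] z' else γ • G.symm^[n] w) (by omega) (by
      intro i hi
      rcases Nat.lt_or_ge (i + 1) (2 * n) with h | h
      · rw [if_pos (by omega), if_pos h, Function.iterate_succ_apply', dist_self]
        exact hδ
      · rcases Nat.lt_or_ge i (2 * n) with h' | h'
        · have hi' : i + 1 = 2 * n := by omega
          rw [if_pos h', if_neg (by omega), if_pos (by omega), hi', Nat.sub_self,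
            ← Function.iterate_succ_apply' G i, Nat.succ_eq_add_one, hi',
            show 2 * n = n + n by ring, e0]
          show dist (G^[n] w) z' < δ
          have := dist_triangle (G^[n] w) (G^[n] x) z'
          linarith
        · rcases Nat.lt_or_ge (i + 1) (2 * n + (t + 1)) with h'' | h''
          · rw [if_neg (by omega), if_pos (by omega), if_neg (by omega), if_pos h'',
              ← Function.iterate_succ_apply' G, show (i - 2 * n).succ = i + 1 - 2 * n by omega,
              dist_self]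
            exact hδ
          · have hi' : i + 1 = 2 * n + (t + 1) := by omega
            rw [if_neg (by omega), if_pos (by omega), if_neg (by omega), if_neg (by omega),
              ← Function.iterate_succ_apply' G, show (i - 2 * n).succ = t + 1 by omega]
            have h5 := dist_triangle (G^[t + 1] z') (γ • G.symm^[n] x) (γ • G.symm^[n] w)
            rw [dist_smul, dist_comm (G.symm^[n] x)] at h5
            linarith) (by
      rw [if_neg (by omega), if_neg (by omega), if_pos (by omega)]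
      rfl)
    refine ⟨p, hp, ?_⟩
    have h5 := hp' n (by omega)
    rw [if_pos (by omega), eq_iter_symm_iter] at h5
    exact h5
  obtain ⟨p, hp1, hp2⟩ := key x (by rw [dist_self]; linarith) (by rw [dist_self]; linarith)
  obtain ⟨q, hq1, hq2⟩ := key y (by rw [dist_comm]; exact hb1) (by rw [dist_comm]; exact hb2)
  have hpq := hN _ (by omega) _ _ _ hp1 hq1
  subst hpq
  have := dist_triangle_left x y (G^[n] p)
  linarith

end tr

section conv

variable {X Γ : Type*} [MetricSpace X] [Group Γ] [MulAction Γ X] [IsIsometricSMul Γ X]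

/-- invariance of the distances of the orbits -/
theorem inv_iter {F : X → X} (h : ∀ γ : Γ, ∃ γ' : Γ, ∀ x, F (γ • x) = γ' • F x) (n : ℕ) :
    ∀ (γ : Γ) (x y : X), dist (F^[n] (γ • x)) (F^[n] (γ • y)) = dist (F^[n] x) (F^[n] y) := by
  induction n with
  | zero => intro γ x y; exact dist_smul γ x y
  | succ n ih =>
    intro γ x y
    obtain ⟨γ', hγ'⟩ := h γ
    rw [Function.iterate_succ_apply, Function.iterate_succ_apply, hγ', hγ', ih,
      Function.iterate_succ_apply, Function.iterate_succ_apply]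

/-- Global product structure gives the uniqueness of fixed points. -/
theorem nfix_of_gps {F : X ≃ X} (h1 : ∀ γ : Γ, ∃ γ' : Γ, ∀ x, F (γ • x) = γ' • F x)
    (h2 : ∀ γ : Γ, ∃ γ' : Γ, ∀ x, F.symm (γ • x) = γ' • F.symm x)
    (hg : ∀ x y, ∃! w, As F x w ∧ As F.symm y w) : NFix Γ F := by
  have hn1 := inv_iter (F := F) h1
  have hn2 := inv_iter (F := F.symm) h2
  have s1 : ∀ (γ : Γ) {a b : X}, As F a b → As F (γ • a) (γ • b) := by
    intro γ a b h
    unfold As at *
    simpa only [hn1] using h
  have s2 : ∀ (γ : Γ) {a b : X}, As F.symm a b → As F.symm (γ • a) (γ • b) := by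
    intro γ a b h
    unfold As at *
    simpa only [hn2] using h
  intro n hn γ x y hx hy
  obtain ⟨w, ⟨hw1, hw2⟩, hw3⟩ := hg x y
  have hw : γ⁻¹ • F^[n] w = w := by
    apply hw3
    constructor
    · have := s1 γ⁻¹ (hw1.iter n)
      rwa [hx, inv_smul_smul] at this
    · have := s2 γ⁻¹ (as_symm_iter F hw2 n)
      rwa [hy, inv_smul_smul] at this
  have hw' : F^[n] w = γ • w := by
    rw [inv_smul_eq_iff] at hw
    exact hw
  -- `x = w`
  have e1 : ∀ j : ℕ, dist ((F^[n])^[j] x) ((F^[n])^[j] w) = dist x w := by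
    intro j
    induction j with
    | zero => rfl
    | succ j ih =>
      rw [Function.iterate_succ_apply, Function.iterate_succ_apply, hx, hw',
        ← Function.iterate_mul, hn1, Function.iterate_mul, ih]
  have e2 : ∀ j : ℕ, dist ((F.symm^[n])^[j] y) ((F.symm^[n])^[j] w) = dist y w := by
    intro j
    induction j with
    | zero => rfl
    | succ j ih =>
      have h3 : dist ((F.symm^[n])^[j + 1] (γ • y)) ((F.symm^[n])^[j + 1] (γ • w)) =
          dist ((F.symm^[n])^[j + 1] y) ((F.symm^[n])^[j + 1] w) := by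
        rw [← Function.iterate_mul]
        exact hn2 _ _ _ _
      rw [← h3, Function.iterate_succ_apply, Function.iterate_succ_apply, ← hy, ← hw',
        eq_symm_iter_iter, eq_symm_iter_iter, ih]
  have hxw : x = w := by
    have h3 := iter_of_as hn hw1
    unfold As at h3
    simp only [e1] at h3
    exact dist_eq_zero.mp (tendsto_nhds_unique tendsto_const_nhds h3)
  have hyw : y = w := by
    have h3 := iter_of_as hn hw2
    unfold As at h3
    simp only [e2] at h3
    exact dist_eq_zero.mp (tendsto_nhds_unique tendsto_const_nhds h3)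
  rw [hxw, hyw]

end conv

end Pool.Agent.H223.CE
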