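import Pool.Agent.H223.CE.Core

set_option autoImplicit false
set_option linter.unusedSectionVars false

namespace Pool.Agent.H223.CE

open Pool.Agent.H721R2 Pool.Agent.H721R2.CSys Pool.Agent.H789R2.AN Filter Topology

/-- Bounded geometry. -/
def BGeom (X : Type*) [MetricSpace X] : Prop :=
  ∀ r δ : ℝ, 0 < δ → ∃ Q : ℕ, ∀ x : X, ∃ s : Finset X, s.card ≤ Q ∧
    ∀ y, dist x y ≤ r → ∃ z ∈ s, dist z y < δ

/-- A chain of few colours can be shortened. -/
theorem colour_chain {Y α : Type*} [MetricSpace Y] (T : CSys Y) :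
    ∀ (n : ℕ) (S : Finset α) (k : ℕ) (c : ℕ → Y) (κ : ℕ → α), S.card = n → (∀ i ≤ k, κ i ∈ S) →
    (∀ i < k, FRel T.g T.εs (c i) (c (i + 1))) →
    (∀ i ≤ k, ∀ j ≤ k, κ i = κ j → FRel T.g T.εs (c i) (c j)) →
    ∀ l : ℕ, dist (T.g^[l] (c 0)) (T.g^[l] (c k)) ≤ 2 * n * (T.α ^ l * T.εs) := by
  classical
  intro n
  have hα0 := T.α_pos
  have hε0 : 0 ≤ T.εs := T.δ_pos.le.trans T.δ_le_εs
  have step : ∀ {x y : Y}, FRel T.g T.εs x y → ∀ l : ℕ,
      dist (T.g^[l] x) (T.g^[l] y) ≤ T.α ^ l * T.εs := by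
    intro x y h l
    refine (T.contrS x y h l).trans ?_
    exact mul_le_mul_of_nonneg_left h.dist_le (by positivity)
  induction n with
  | zero =>
    intro S k c κ hS hκ
    have := hκ 0 (Nat.zero_le _)
    rw [Finset.card_eq_zero.mp hS] at this
    simp at this
  | succ n ih =>
    intro S k c κ hS hκ hc hcol l
    -- the last index with the colour of `0`
    have hne : ((Finset.range (k + 1)).filter (fun i => κ i = κ 0)).Nonempty :=
      ⟨0, by simp⟩
    set i1 := ((Finset.range (k + 1)).filter (fun i => κ i = κ 0)).max' hne with hi1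
    have hmem := Finset.max'_mem _ hne
    rw [← hi1, Finset.mem_filter, Finset.mem_range] at hmem
    have hlast : ∀ i ≤ k, κ i = κ 0 → i ≤ i1 := fun i hi h =>
      Finset.le_max' _ _ (by rw [Finset.mem_filter, Finset.mem_range]; exact ⟨by omega, h⟩)
    have h1 := step (hcol 0 (Nat.zero_le _) i1 (by omega) hmem.2.symm) l
    have hp : 0 ≤ T.α ^ l * T.εs := by positivity
    rcases Nat.lt_or_ge i1 k with h | h
    · have h2 := step (hc i1 h) l
      have h3 := ih (S.erase (κ 0)) (k - (i1 + 1)) (fun i => c (i + (i1 + 1)))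
        (fun i => κ (i + (i1 + 1))) (by
          rw [Finset.card_erase_of_mem (hκ 0 (Nat.zero_le _)), hS]; rfl) (by
          intro i hi
          rw [Finset.mem_erase]
          refine ⟨fun h' => ?_, hκ _ (by omega)⟩
          have := hlast _ (by omega) h'
          omega) (by
          intro i hi
          have := hc (i + (i1 + 1)) (by omega)
          rwa [show i + (i1 + 1) + 1 = i + 1 + (i1 + 1) by ring] at this) (by
          intro i hi j hj hij
          exact hcol _ (by omega) _ (by omega) hij) l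
      simp only [Nat.zero_add] at h3
      rw [Nat.sub_add_cancel (by omega)] at h3
      have h4 := dist_triangle4 (T.g^[l] (c 0)) (T.g^[l] (c i1)) (T.g^[l] (c (i1 + 1)))
        (T.g^[l] (c k))
      push_cast
      linarith
    · have h5 : i1 = k := by omega
      rw [h5] at h1
      push_cast
      have : (0 : ℝ) ≤ n := Nat.cast_nonneg _
      nlinarith [mul_nonneg this hp]

variable {M X E : Type*} [MetricSpace M] [MetricSpace X] [NormedAddCommGroup E] [NormedSpace ℝ E]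
  {P : X → M} {r ρ : ℝ}

/-- **Uniqueness of the intersections makes the leaves uniformly proper.** -/
theorem bp_of_unique [CompactSpace M] (S : HypSys M E) (H : Sheets P r ρ) {G : X ≃ X}
    (hG : ∀ x, P (G x) = S.g (P x)) (hu : UCont G) (hu' : UCont G.symm) (hBG : BGeom X)
    (hU : ∀ x y, As G x y → As G.symm x y → x = y) : BPieces G := by
  classical
  obtain ⟨T, hTg, -, -, hTρ, -⟩ := exists_lift S H hG hu hu' 0 1 one_pos
  have hTg' : T.g.symm = lmap H G.symm := by rw [hTg]; rfl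
  have hδ0 := T.δ_pos
  have hδε := T.δ_le_εs
  have h36 := T.e36
  have hKδ := T.Kδ_pos
  have hK := T.one_le_K
  have hβ0 := T.β_pos
  have hr := H.r_pos
  have hδρ : T.δ < ρ := lt_of_le_of_lt T.δ_le_εs hTρ
  have h2δρ : 2 * T.δ < ρ := by linarith
  obtain ⟨η, hη, hc⟩ := H.cont T.δ hδ0
  have hmin : 0 < min η r := lt_min hη hr
  -- points at distance less than `min η r` in `X` are `δ`-close in `LX`
  have close : ∀ a b : X, dist a b < min η r → dist (⟨a⟩ : LX H) ⟨b⟩ ≤ T.δ := by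
    intro a b hab
    rw [lx_dist, ndist_le_iff hδρ]
    exact ⟨lt_of_lt_of_le hab (min_le_right _ _), (hc _ _ (lt_of_lt_of_le hab (min_le_left _ _))).le⟩
  refine ⟨min η r / 2, half_pos hmin, fun R ε' hε' => ?_⟩
  obtain ⟨Q, hQ⟩ := hBG R (min η r / 2) (half_pos hmin)
  obtain ⟨ε1, hε1, hu1⟩ := H.unif ε' hε'
  have hmin1 : 0 < min ε1 ρ := lt_min hε1 H.ρ_pos
  -- the time
  obtain ⟨m, hm⟩ : ∃ m : ℕ, ∀ l ≥ m, 2 * (Q : ℝ) * (T.β ^ l * T.εs) < min ε1 ρ := by
    have t1 : Tendsto (fun l : ℕ => 2 * (Q : ℝ) * (T.β ^ l * T.εs)) atTop (𝓝 0) := by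
      have := ((tendsto_pow_atTop_nhds_zero_of_lt_one hβ0
        (by linarith [T.β_le] : T.β < 1)).mul_const T.εs).const_mul (2 * (Q : ℝ))
      simpa using this
    exact eventually_atTop.mp ((tendsto_order.mp t1).2 _ hmin1)
  refine ⟨m, fun k c hstep hball l hl => ?_⟩
  obtain ⟨s, hs, hcov⟩ := hQ (c 0)
  have hex : ∀ i, ∃ z : X, i ≤ k → z ∈ s ∧ dist z (c i) < min η r / 2 := by
    intro i
    by_cases hi : i ≤ k
    · obtain ⟨z, hz⟩ := hcov (c i) (hball i hi)
      exact ⟨z, fun _ => hz⟩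
    · exact ⟨c i, fun h => absurd h hi⟩
  choose κ hκ using hex
  -- the steps
  have hst : ∀ i < k, FRel T.g.symm T.δ (⟨c i⟩ : LX H) ⟨c (i + 1)⟩ := by
    intro i hi j
    rw [hTg', lx_dist, lmap_iter, lmap_iter, ← lx_dist H ⟨_⟩ ⟨_⟩]
    exact close _ _ (lt_of_le_of_lt (hstep i hi j) (by linarith))
  have hasy : ∀ i ≤ k, As T.g.symm (⟨c 0⟩ : LX H) ⟨c i⟩ :=
    as_chain (g := T.g.symm) (c := fun i => (⟨c i⟩ : LX H)) (k := k)
      (fun i hi => asU_of_frel T hδε (hst i hi))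
  have hsame : ∀ i ≤ k, ∀ j ≤ k, κ i = κ j →
      FRel T.g.symm T.εs (⟨c i⟩ : LX H) ⟨c j⟩ := by
    intro i hi j hj hij
    have h1 := (hκ i hi).2
    have h2 := (hκ j hj).2
    rw [← hij] at h2
    have h3 : dist (c i) (c j) < min η r := by
      have := dist_triangle (c i) (κ i) (c j)
      rw [dist_comm (c i) (κ i)] at this
      linarith
    have h4 := close _ _ h3
    obtain ⟨z, hz1, hz2⟩ := T.lp _ _ (h4.trans (by linarith : T.δ ≤ 2 * T.δ))
    have h9 : 9 * T.K * dist (⟨c i⟩ : LX H) ⟨c j⟩ ≤ T.εs := by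
      have h5 : 9 * T.K * dist (⟨c i⟩ : LX H) ⟨c j⟩ ≤ 9 * T.K * T.δ :=
        mul_le_mul_of_nonneg_left h4 (by linarith)
      linarith
    have hS1 := as_of_frel T h9 hz1
    have hU1 := asU_of_frel T h9 hz2
    have hU2 : As T.g.symm (⟨c i⟩ : LX H) z :=
      ((hasy i hi).symm.trans (hasy j hj)).trans hU1.symm
    rw [hTg] at hS1
    rw [hTg'] at hU2
    have h6 := hU _ _ (as_of_lx H hS1) (as_of_lx H hU2)
    have h7 : (⟨c i⟩ : LX H) = z := LX.ext h6
    rw [← h7] at hz2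
    exact hz2.mono h9
  have hcard : ((s.card : ℕ) : ℝ) ≤ Q := by exact_mod_cast hs
  have key := colour_chain T.symm s.card s k (fun i => (⟨c i⟩ : LX H)) κ rfl
    (fun i hi => (hκ i hi).1) (fun i hi => (hst i hi).mono hδε) hsame l
  have key' : dist (T.g.symm^[l] (⟨c 0⟩ : LX H)) (T.g.symm^[l] ⟨c k⟩) ≤
      2 * s.card * (T.β ^ l * T.εs) := key
  have hε0 : 0 ≤ T.εs := hδ0.le.trans hδε
  have h8 : 2 * (s.card : ℝ) * (T.β ^ l * T.εs) ≤ 2 * Q * (T.β ^ l * T.εs) :=
    mul_le_mul_of_nonneg_right (by linarith) (by positivity)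
  have h9 := lt_of_le_of_lt (key'.trans h8) (hm l hl)
  rw [hTg', lx_dist, lmap_iter, lmap_iter] at h9
  have h10 := (ndist_le_iff (lt_of_lt_of_le h9 (min_le_right _ _))).mp le_rfl
  exact (hu1 _ _ h10.1 (lt_of_le_of_lt h10.2 (lt_of_lt_of_le h9 (min_le_left _ _)))).le

end Pool.Agent.H223.CE
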